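import Pool.Agent.Work.MP_ae1ff6_fo.Interface

/-!
# Block CRV: closed paths with a prescribed first turn
-/

open Topology Filter Set
open scoped ComplexConjugate Matrix

set_option autoImplicit false

namespace Pool.FO

open Pool.CG Pool.AR Pool.SH

theorem CRV_open (a b : Circle) : IsOpen {x : Circle | Ccw a x b} := by
  unfold Ccw area
  refine isOpen_lt continuous_const ?_
  exact Complex.continuous_im.comp (((Complex.continuous_conj).comp
    ((continuous_subtype_val).sub continuous_const)).mul continuous_const)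

theorem CRV_ne (a b : Circle) (h : a ≠ b) : {x : Circle | Ccw a x b}.Nonempty := by
  obtain ⟨s, t, h1, h2, rfl, rfl⟩ := q_ANG.2.2.1 a b h
  exact ⟨Circle.exp ((s + t) / 2), q_ANG.1 _ _ _ (by linarith) (by linarith) (by linarith)⟩

theorem CRV_pos (r s x : Circle) (h1 : x ≠ r) (h2 : x ≠ s) : 0 < R r s x :=
  div_pos (dist_pos.2 h1) (dist_pos.2 h2)

theorem CRV_core (h2 : Stmt_RCH) (h3 : Stmt_MON) (h4 : Stmt_DYN) (Γ : Subgroup H)
    (T : Set (Circle × Circle)) (hΓ : FirstKind Γ) (hT : Tri T) (hK : Keeps Γ T)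
    (a b x y : Circle) (hab : (a, b) ∈ T) (hxy : (x, y) ∈ T) (c1 : Ccw x a b) (c2 : Ccw x b y) :
    ∃ γ ∈ Γ, (∃ r s, Axis γ r s) ∧ ∃ l, ed T l (a, b) = (γ x, γ y) := by
  have rot : ∀ {a b c : Circle}, Ccw a b c → Ccw b c a := fun h => q_CYO.1 _ _ _ h
  have tr4 : ∀ {a b c d : Circle}, Ccw a b c → Ccw a c d → Ccw a b d ∧ Ccw b c d :=
    fun h h' => q_CYO.2.2.2 _ _ _ _ h h'
  have hyx : y ≠ x := (hT.ne _ _ hxy).symm
  have hne : a ≠ b := hT.ne _ _ hab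
  obtain ⟨γ₀, hγ₀, r, hr, s, hs, hax⟩ := Pool.GC.dns Γ hΓ {z | Ccw y z x} {z | Ccw a z b}
    (CRV_open y x) (CRV_ne y x hyx) (CRV_open a b) (CRV_ne a b hne)
  have hr : Ccw y r x := hr
  have hs : Ccw a s b := hs
  obtain ⟨γ', c, hγ', hc, hpow⟩ := h4 γ₀ r s (hΓ.mob _ hγ₀) hax
  have hγ'Γ : γ' ∈ Γ := by
    rcases hγ' with h | h
    · rw [h]; exact hγ₀
    · rw [h]; exact Γ.inv_mem hγ₀
  -- cyclic order
  have k1 := tr4 c1 c2
  have k2 : Ccw y x a := rot (rot k1.1)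
  have k3 := tr4 hr k2
  have k4 : Ccw y x b := rot (rot c2)
  have k5 := tr4 hr k4
  have k6 : Ccw y a b := rot (rot k1.2)
  have k7 := tr4 k3.1 k6
  have k8 := tr4 hs (rot k7.2)
  have o2 : Ccw r a s := rot (rot k8.1)
  have o3 : Ccw s b r := k8.2
  have k9 := tr4 k3.2 o2
  have o1 : Ccw r x s := k9.1
  have k10 : Ccw r s b := rot (rot o3)
  have k11 : Ccw r b y := rot k7.1
  have k12 := tr4 k10 k11
  have o4 : Ccw s y r := rot k12.1
  have pa : 0 < R r s a := CRV_pos r s a (q_CYO.2.1 _ _ _ o2).2.1.symm (q_CYO.2.1 _ _ _ o2).2.2.1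
  have pb : 0 < R r s b := CRV_pos r s b (q_CYO.2.1 _ _ _ o3).2.2.1 (q_CYO.2.1 _ _ _ o3).2.1.symm
  have px : 0 < R r s x := CRV_pos r s x (q_CYO.2.1 _ _ _ o1).2.1.symm (q_CYO.2.1 _ _ _ o1).2.2.1
  have py : 0 < R r s y := CRV_pos r s y (q_CYO.2.1 _ _ _ o4).2.2.1 (q_CYO.2.1 _ _ _ o4).2.1.symm
  obtain ⟨n, hn⟩ := pow_unbounded_of_one_lt (R r s a / R r s x + R r s b / R r s y + 1) hc
  have q1 : 0 ≤ R r s a / R r s x := (div_pos pa px).le
  have q2 : 0 ≤ R r s b / R r s y := (div_pos pb py).le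
  have hn0 : 0 < n := by
    rcases Nat.eq_zero_or_pos n with h | h
    · rw [h, pow_zero] at hn
      linarith
    · exact h
  have e1 : R r s a < c ^ n * R r s x := by
    rw [← div_lt_iff₀ px]
    linarith
  have e2 : R r s b < c ^ n * R r s y := by
    rw [← div_lt_iff₀ py]
    linarith
  obtain ⟨hRn, hAn⟩ := hpow n
  have hAx := hAn hn0
  have hγΓ : γ' ^ n ∈ Γ := Γ.pow_mem hγ'Γ n
  have hori : Ori (γ' ^ n) := q_MOR.1 _ (hΓ.mob _ hγΓ)
  have fr : (γ' ^ n) r = r := (hAx.2 r).2 (Or.inl rfl)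
  have fs : (γ' ^ n) s = s := (hAx.2 s).2 (Or.inr rfl)
  have m1 : Ccw r ((γ' ^ n) x) s := by
    have := hori _ _ _ o1
    rwa [fr, fs] at this
  have m2 : Ccw s ((γ' ^ n) y) r := by
    have := hori _ _ _ o4
    rwa [fr, fs] at this
  obtain ⟨w1, w2⟩ := h3.2.2 r s a b ((γ' ^ n) x) ((γ' ^ n) y) o2 m1 o3 m2 (by rw [hRn]; exact e1)
    (by rw [hRn]; exact e2)
  exact ⟨γ' ^ n, hγΓ, ⟨r, s, hAx⟩, h2 T hT a b _ _ hab (hK _ hγΓ _ _ hxy) w1 w2⟩

theorem p_CRV (h1 : Stmt_VTX) (h2 : Stmt_RCH) (h3 : Stmt_MON) (h4 : Stmt_DYN) : Stmt_CRV := by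
  intro Γ T hΓ hT hK p q hpq
  have rot : ∀ {a b c : Circle}, Ccw a b c → Ccw b c a := fun h => q_CYO.1 _ _ _ h
  have hqp := hT.symm _ _ hpq
  obtain ⟨-, -, -, hv, hpv, hvq, -⟩ := (h1 T hT).2.1 p q hpq
  obtain ⟨-, -, -, hy, hqy, hyp, -⟩ := (h1 T hT).2.1 q p hqp
  set v := thd T (p, q) with hvdef
  set y := thd T (q, p) with hydef
  have hpy := hT.symm _ _ hyp
  have hyq := hT.symm _ _ hqy
  have c1 : Ccw p q y := rot (rot hy)
  have c2 : Ccw y p q := rot hy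
  have t1 : thd T (p, y) = q := (((h1 T hT).2.1 p y hpy).2.2.2.2.2.2 q c1 hpq hqy).symm
  have t2 : thd T (y, q) = p := (((h1 T hT).2.1 y q hyq).2.2.2.2.2.2 p c2 hyp hpq).symm
  have s1 : ed T [false] (p, y) = (p, q) := by
    show (p, thd T (p, y)) = (p, q)
    rw [t1]
  have s2 : ed T [true] (y, q) = (p, q) := by
    show (thd T (y, q), q) = (p, q)
    rw [t2]
  constructor
  · obtain ⟨γ, hγ, hax, l, hl⟩ := CRV_core h2 h3 h4 Γ T hΓ hT hK v q p y hvq hpy hv c1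
    refine ⟨γ, hγ, hax, (p, y), hpy, l, s1, ?_⟩
    show ed T (true :: l) (ed T [false] (p, y)) = _
    rw [s1]
    exact hl
  · have c3 : Ccw q p v := rot (rot hv)
    have c4 := q_CYO.2.2.2 _ _ _ _ hy c3
    obtain ⟨γ, hγ, hax, l, hl⟩ := CRV_core h2 h3 h4 Γ T hΓ hT hK p v y q hpv hyq c4.2 (by
      exact (rot c4.1))
    refine ⟨γ, hγ, hax, (y, q), hyq, l, s2, ?_⟩
    show ed T (false :: l) (ed T [true] (y, q)) = _
    rw [s2]
    exact hl

end Pool.FO
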