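import Pool.Agent.Work.MP_ae1ff6_fo.Interface

/-!
# Block DEV (MP_ae1ff6_gt, mapping classes of finite order): developing maps (helper94)
-/

open Topology Filter Set
open scoped ComplexConjugate Matrix

set_option autoImplicit false

namespace Pool.FO

open Pool.CG Pool.AR Pool.SH

/-- pairs of different points of a triangle are edges -/
theorem DEV_pair (T : Set (Circle × Circle)) (hT : Tri T) (P : Set Circle) (hP : P ∈ Trg T)
    (x y : Circle) (hx : x ∈ P) (hy : y ∈ P) (hxy : x ≠ y) : (x, y) ∈ T := by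
  obtain ⟨a, b, c, habc, rfl, h1, h2, h3⟩ := hP
  simp only [mem_insert_iff, mem_singleton_iff] at hx hy
  rcases hx with rfl | rfl | rfl <;> rcases hy with rfl | rfl | rfl
  all_goals first
    | exact absurd rfl hxy
    | assumption
    | exact hT.symm _ _ h1
    | exact hT.symm _ _ h2
    | exact hT.symm _ _ h3

/-- a point between `p` and `q` is different from both -/
theorem DEV_ne (p q v : Circle) (h : Ccw p v q) : p ≠ v ∧ v ≠ q ∧ p ≠ q :=
  (q_CYO.2.1 p v q h).2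

/-- developing maps in terms of triangles -/
theorem DEV_iff (hTRP : Stmt_TRP) (hVTX : Stmt_VTX) (T : Set (Circle × Circle)) (z : Ed)
    (d : Circle → Circle) (hT : Tri T) :
    Dev T z d ↔ CyOn d (⋃₀ (Trg T)) ∧ Shear (Trg T) T (fun p q => z (p, q)) d := by
  have hU : ⋃₀ (Trg T) = Vx T := (hTRP T hT).2.2.2
  have hv := (hVTX T hT).2.1
  rw [hU]
  constructor
  · intro h
    refine ⟨h.cy, ?_⟩
    intro p q v w hpq hpv hqw hP hP'
    obtain ⟨n1, n2, n3⟩ := DEV_ne p q v hpv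
    obtain ⟨n4, n5, n6⟩ := DEV_ne q p w hqw
    have e1 : v = thd T (p, q) := (hv p q hpq).2.2.2.2.2.2 v hpv
      (DEV_pair T hT _ hP p v (by simp) (by simp) n1)
      (DEV_pair T hT _ hP v q (by simp) (by simp) n2)
    have e2 : w = thd T (q, p) := (hv q p (hT.symm _ _ hpq)).2.2.2.2.2.2 w hqw
      (DEV_pair T hT _ hP' q w (by simp) (by simp) n4)
      (DEV_pair T hT _ hP' w p (by simp) (by simp) n5)
    rw [e1, e2]
    exact h.sh p q hpq
  · rintro ⟨h1, h2⟩
    refine ⟨h1, ?_⟩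
    intro p q hpq
    have hqp := hT.symm _ _ hpq
    obtain ⟨-, -, -, c1, m1, m2, -⟩ := hv p q hpq
    obtain ⟨-, -, -, c2, m3, m4, -⟩ := hv q p hqp
    refine h2 p q _ _ hpq c1 c2 ⟨p, _, q, c1, ?_, m1, m2, hqp⟩ ⟨q, _, p, c2, ?_, m3, m4, hpq⟩
    · ext x
      simp only [mem_insert_iff, mem_singleton_iff]
      tauto
    · ext x
      simp only [mem_insert_iff, mem_singleton_iff]
      tauto

theorem p_DEV (h1 : Pool.SH.Stmt_DV1) (h2 : Pool.SH.Stmt_DU1) (h3 : Stmt_TRP) (h4 : Stmt_VTX) :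
    Stmt_DEV := by
  refine ⟨?_, ?_⟩
  · intro T z hT hz
    obtain ⟨hP, hTr, -, -⟩ := h3 T hT
    obtain ⟨d, hd⟩ := h1 (Trg T) T hP hTr (fun p q => z (p, q)) hz
    exact ⟨d, (DEV_iff h3 h4 T z d hT).2 hd⟩
  · intro T z d d' hT hd hd'
    obtain ⟨hP, hTr, hne, hU⟩ := h3 T hT
    obtain ⟨a1, a2⟩ := (DEV_iff h3 h4 T z d hT).1 hd
    obtain ⟨b1, b2⟩ := (DEV_iff h3 h4 T z d' hT).1 hd'
    obtain ⟨n, hn, hx⟩ := h2 (Trg T) T hP hTr hne (fun p q => z (p, q)) d d' a1 b1 a2 b2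
    exact ⟨n, hn, fun x hx' => hx x (by rw [hU]; exact hx')⟩

end Pool.FO
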