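import Pool.Agent.Work.MP_ae1ff6_fo.Interface

open Topology Filter Set
open scoped ComplexConjugate Matrix

set_option autoImplicit false

namespace Pool.FO

open Pool.CG Pool.AR Pool.SH

theorem ESB_zero : ES (fun _ => 0) := ⟨[], fun z => by simp⟩

theorem ESB_exp (ℓ : Ed →L[ℝ] ℝ) : ES fun z => Real.exp (ℓ z) := ⟨[ℓ], fun z => by simp⟩

theorem ESB_add (g g' : Ed → ℝ) (h : ES g) (h' : ES g') : ES fun z => g z + g' z := by
  obtain ⟨L, hL⟩ := h
  obtain ⟨L', hL'⟩ := h'
  exact ⟨L ++ L', fun z => by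
    show g z + g' z = _
    rw [List.map_append, List.sum_append, hL, hL']⟩

theorem ESB_mul1 (a : Ed →L[ℝ] ℝ) (L : List (Ed →L[ℝ] ℝ)) (z : Ed) :
    Real.exp (a z) * (L.map fun ℓ => Real.exp (ℓ z)).sum =
      ((L.map (fun b => a + b)).map fun ℓ => Real.exp (ℓ z)).sum := by
  induction L with
  | nil => simp
  | cons b L ih =>
    simp only [List.map_cons, List.sum_cons, mul_add, ih]
    congr 1
    rw [← Real.exp_add]
    rfl

theorem ESB_mul (g g' : Ed → ℝ) (h : ES g) (h' : ES g') : ES fun z => g z * g' z := by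
  obtain ⟨L, hL⟩ := h
  obtain ⟨L', hL'⟩ := h'
  have key : ∀ L : List (Ed →L[ℝ] ℝ), ES fun z => (L.map fun ℓ => Real.exp (ℓ z)).sum * g' z := by
    intro L
    induction L with
    | nil =>
      refine ⟨[], fun z => ?_⟩
      simp
    | cons a L ih =>
      have h1 : ES fun z => Real.exp (a z) * g' z :=
        ⟨L'.map (fun b => a + b), fun z => by
          show Real.exp (a z) * g' z = _
          rw [hL', ESB_mul1]⟩
      have h3 := ESB_add _ _ h1 ih
      obtain ⟨M, hM⟩ := h3
      refine ⟨M, fun z => ?_⟩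
      rw [← hM]
      simp only [List.map_cons, List.sum_cons, add_mul]
  obtain ⟨M, hM⟩ := key L
  exact ⟨M, fun z => by
    show g z * g' z = _
    rw [hL, ← hM]⟩

theorem ESB_sum (ι : Type) (s : Finset ι) (g : ι → Ed → ℝ) (h : ∀ i ∈ s, ES (g i)) :
    ES fun z => ∑ i ∈ s, g i z := by
  classical
  induction s using Finset.induction_on with
  | empty => exact ⟨[], fun z => by simp⟩
  | insert a s ha ih =>
    have h1 := h a (Finset.mem_insert_self a s)
    have h2 := ih (fun i hi => h i (Finset.mem_insert_of_mem hi))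
    obtain ⟨M, hM⟩ := ESB_add _ _ h1 h2
    exact ⟨M, fun z => by
      show ∑ i ∈ insert a s, g i z = _
      rw [Finset.sum_insert ha, ← hM]⟩

theorem ESB_half (s t : ℝ) : Real.exp ((1 / 2 : ℝ) * (s + t)) ≤ (Real.exp s + Real.exp t) / 2 := by
  have h1 : Real.exp s = Real.exp (s / 2) * Real.exp (s / 2) := by
    rw [← Real.exp_add]; congr 1; ring
  have h2 : Real.exp t = Real.exp (t / 2) * Real.exp (t / 2) := by
    rw [← Real.exp_add]; congr 1; ring
  have h3 : Real.exp ((1 / 2 : ℝ) * (s + t)) = Real.exp (s / 2) * Real.exp (t / 2) := by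
    rw [← Real.exp_add]; congr 1; ring
  rw [h1, h2, h3]
  nlinarith [sq_nonneg (Real.exp (s / 2) - Real.exp (t / 2))]

theorem ESB_prop (L : List (Ed →L[ℝ] ℝ)) :
    Continuous (fun z : Ed => (L.map fun ℓ => Real.exp (ℓ z)).sum) ∧
    (∀ z : Ed, 0 ≤ (L.map fun ℓ => Real.exp (ℓ z)).sum) ∧
    ∀ x y : Ed, (L.map fun ℓ => Real.exp (ℓ ((1 / 2 : ℝ) • (x + y)))).sum ≤
      ((L.map fun ℓ => Real.exp (ℓ x)).sum + (L.map fun ℓ => Real.exp (ℓ y)).sum) / 2 := by
  induction L with
  | nil =>
    refine ⟨?_, ?_, ?_⟩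
    · simp only [List.map_nil, List.sum_nil]
      exact continuous_const
    · intro z; simp
    · intro x y; simp
  | cons a L ih =>
    obtain ⟨ih1, ih2, ih3⟩ := ih
    refine ⟨?_, ?_, ?_⟩
    · simp only [List.map_cons, List.sum_cons]
      exact (Real.continuous_exp.comp a.continuous).add ih1
    · intro z
      simp only [List.map_cons, List.sum_cons]
      have := Real.exp_pos (a z)
      have := ih2 z
      linarith
    · intro x y
      simp only [List.map_cons, List.sum_cons]
      have h1 := ih3 x y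
      have h2 := ESB_half (a x) (a y)
      have h3 : a ((1 / 2 : ℝ) • (x + y)) = (1 / 2 : ℝ) * (a x + a y) := by
        rw [map_smul, map_add, smul_eq_mul]
      rw [h3]
      linarith

theorem p_ESB : Stmt_ESB := by
  refine ⟨ESB_zero, ESB_exp, ESB_add, ESB_mul, ESB_sum, ?_⟩
  rintro g ⟨L, hL⟩
  obtain ⟨h1, h2, h3⟩ := ESB_prop L
  refine ⟨?_, ?_, ?_⟩
  · have : g = fun z => (L.map fun ℓ => Real.exp (ℓ z)).sum := funext hL
    rw [this]; exact h1
  · intro z; rw [hL]; exact h2 z
  · intro x y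
    rw [hL, hL x, hL y]
    exact h3 x y

end Pool.FO
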