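import Pool.Agent.Work.MP_ae1ff6_fo.Interface

/-! # Block ESL: the traces as functions of the shears -/

open Topology Filter Set
open scoped ComplexConjugate Matrix

set_option autoImplicit false

namespace Pool.FO

open Pool.CG Pool.AR Pool.SH

theorem p_ESL (h1 : Stmt_TRD) (h2 : Stmt_TRC) (h3 : Stmt_WLT) (h4 : Stmt_WRD) (h5 : Stmt_CRV) :
    Stmt_ESL := by
  intro Γ T hΓ hT hK
  refine ⟨?_, ?_⟩
  · intro γ hγ r s hax
    obtain ⟨γ', hγ', e, he, l, hl⟩ := h4 Γ T hΓ hT hK γ hγ r s hax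
    obtain ⟨⟨G, hG, hGz⟩, -, -⟩ := h3 T l e
    refine ⟨G, hG, fun z hz => ?_⟩
    have hγ'Γ : γ' ∈ Γ := by
      rcases hγ' with rfl | rfl
      · exact hγ
      · exact Γ.inv_mem hγ
    rw [← hGz z, ← h2 Γ T z hΓ hT hK hz γ' hγ'Γ l e he hl]
    rcases hγ' with rfl | rfl
    · rfl
    · exact ((h1 Γ T z hΓ hT hK hz).2.2.2 γ hγ).symm
  · rintro ⟨p, q⟩ ha σ hσ
    obtain ⟨⟨γ, hγ, hax, e, he, l, hl1, hl2⟩, γ', hγ', hax', e', he', l', hl1', hl2'⟩ :=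
      h5 Γ T hΓ hT hK p q ha
    rcases hσ with rfl | rfl
    · obtain ⟨-, ⟨S, G, hG, hGz⟩, -⟩ := h3 T l e
      refine ⟨γ, hγ, hax, S, G, hG, fun z hz => ?_⟩
      rw [h2 Γ T z hΓ hT hK hz γ hγ _ e he hl2, hGz z, hl1, one_mul]
    · obtain ⟨-, -, S, G, hG, hGz⟩ := h3 T l' e'
      refine ⟨γ', hγ', hax', S, G, hG, fun z hz => ?_⟩
      rw [h2 Γ T z hΓ hT hK hz γ' hγ' _ e' he' hl2', hGz z, hl1', neg_one_mul]

end Pool.FO
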