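import Pool.Agent.Work.MP_ae1ff6_fo.Interface

/-! # Block EXT: extension of the developing map to the circle -/

open Topology Filter Set
open scoped ComplexConjugate Matrix

set_option autoImplicit false

namespace Pool.FO

open Pool.CG Pool.AR Pool.SH

theorem p_EXT (hVTX : Stmt_VTX) (hTRD : Stmt_TRD) (hLMA : Stmt_LMA) (hLMB : Stmt_LMB)
    (hLMC : Stmt_LMC) (hLMD : Stmt_LMD) : Stmt_EXT := by
  intro Γ T z d hFK hT hK hS hdev
  have hden : Dense (Vx T) := (hVTX T hT).1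
  choose D hD using hLMB (Vx T) d hden hdev.cy
  refine ⟨D, hLMD (Vx T) d D hden hdev.cy hD, hLMC (Vx T) d D hden hD, ?_⟩
  intro γ hγ
  obtain ⟨n, hn, hnx⟩ := (hTRD Γ T z hFK hT hK hS).1 γ hγ d hdev
  obtain ⟨-, L2, L3, L4, L5⟩ := hLMA
  refine ⟨n, hn, hnx, fun u => ?_⟩
  have hori : Ori γ := q_MOR.1 γ (hFK.mob γ hγ)
  have hmap : ∀ x ∈ Vx T, γ x ∈ Vx T := by
    rintro x ⟨y, hy⟩
    exact ⟨γ y, hK γ hγ x y hy⟩
  have e1 : LimL (Vx T) (fun x => d (γ x)) u (D (γ u)) := L5 (Vx T) d u (D (γ u)) γ hori hmap (hD _)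
  have e2 : LimL (Vx T) (fun x => n (d x)) u (n (D u)) := L4 (Vx T) d u (D u) n (hD u)
  have e3 := L3 (Vx T) (Vx T) (fun x => d (γ x)) (fun x => n (d x)) u (n (D u)) Subset.rfl hnx e2
  exact L2 (Vx T) (fun x => d (γ x)) u (D (γ u)) (n (D u)) hden e1 e3

end Pool.FO
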