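import Pool.Agent.Work.MP_ae1ff6_fo.Interface

/-!
# Mapping classes of finite order: the equivariant monotone map
-/

open Topology Filter Set
open scoped ComplexConjugate Matrix

set_option autoImplicit false

namespace Pool.FO

open Pool.CG Pool.AR Pool.SH

/-- for a mapping class of finite order there is a map of the circle which preserves the cyclic order and
conjugates the action of `Γ ⊔ zpowers f` to Möbius maps -/
def Stmt_FNX : Prop :=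
  ∀ (Γ : Subgroup H) (f : H) (T : Set (Circle × Circle)), FirstKind Γ → Tri T → Keeps Γ T → Ori f →
    (∀ γ, γ ∈ Γ ↔ f * γ * f⁻¹ ∈ Γ) → (∃ n : ℕ, 0 < n ∧ f ^ n ∈ Γ) →
    ∃ D : Circle → Circle, CyOn D univ ∧ ∀ g ∈ Γ ⊔ Subgroup.zpowers f, ∃ n : H, IsMob n ∧
      ∀ x, D (g x) = n (D x)

theorem p_FNX (h1 : Pool.SH.Stmt_MBG) (h3 : Stmt_VTX) (h4 : Stmt_DEV)
    (h5 : Stmt_SHR) (h6 : Stmt_TRD) (h7 : Stmt_LMA) (h8 : Stmt_EXT) (h9 : Stmt_UMN) :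
    Stmt_FNX := by
  intro Γ f T hFK hT hK hOf hnorm hfin
  obtain ⟨m, hm0, hm⟩ := hfin
  obtain ⟨z, hz, hz1, hz2⟩ := h9 Γ f T m hFK hT hK hOf hnorm hm0 hm
  obtain ⟨d, hd⟩ := h4.1 T z hT (fun p q => hz.symm p q)
  obtain ⟨D, hDcy, hDlim, hDn⟩ := h8 Γ T z d hFK hT hK hz hd
  obtain ⟨-, lm2, lm3, lm4, lm5⟩ := h7
  -- the shears of `D`
  have hcyV : CyOn D (Vx T) := fun a _ b _ c _ h => hDcy a trivial b trivial c trivial h
  obtain ⟨z₁, hz₁, hd₁⟩ := h5 Γ T D hFK hT hK hcyV (fun γ hγ => by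
    obtain ⟨n, hn, -, hn2⟩ := hDn γ hγ
    exact ⟨n, hn, fun x _ => hn2 x⟩)
  have e1 : z₁ = z := by
    refine hz1 z₁ hz₁ fun γ hγ => ?_
    obtain ⟨n, hn, hn1, hn2⟩ := hDn γ hγ
    rw [(h6 Γ T z₁ hFK hT hK hz₁).2.1 γ hγ D n hd₁ hn (fun x _ => hn2 x),
      (h6 Γ T z hFK hT hK hz).2.1 γ hγ d n hd hn hn1]
  rw [e1] at hd₁
  -- the shears of `D ∘ f`
  have hcyf : CyOn (fun x => D (f x)) (Vx T) := fun a _ b _ c _ h =>
    hDcy _ trivial _ trivial _ trivial (hOf a b c h)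
  have hconj : ∀ (γ : H) (x : Circle), (f * γ * f⁻¹) (f x) = f (γ x) := by
    intro γ x
    show f (γ (f⁻¹ (f x))) = f (γ x)
    have : f⁻¹ (f x) = x := f.symm_apply_apply x
    rw [this]
  have heqf : ∀ γ ∈ Γ, ∃ n : H, IsMob n ∧ (∀ x ∈ Vx T, d ((f * γ * f⁻¹) x) = n (d x)) ∧
      ∀ x, D (f (γ x)) = n (D (f x)) := by
    intro γ hγ
    obtain ⟨n, hn, hn1, hn2⟩ := hDn (f * γ * f⁻¹) ((hnorm γ).1 hγ)
    refine ⟨n, hn, hn1, fun x => ?_⟩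
    rw [← hn2 (f x), hconj]
  obtain ⟨z₂, hz₂, hd₂⟩ := h5 Γ T (fun x => D (f x)) hFK hT hK hcyf (fun γ hγ => by
    obtain ⟨n, hn, -, hn2⟩ := heqf γ hγ
    exact ⟨n, hn, fun x _ => hn2 x⟩)
  have e2 : z₂ = z := by
    refine hz2 z₂ hz₂ fun γ hγ => ?_
    obtain ⟨n, hn, hn1, hn2⟩ := heqf γ hγ
    rw [(h6 Γ T z₂ hFK hT hK hz₂).2.1 γ hγ _ n hd₂ hn (fun x _ => hn2 x),
      (h6 Γ T z hFK hT hK hz).2.1 (f * γ * f⁻¹) ((hnorm γ).1 hγ) d n hd hn hn1]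
  rw [e2] at hd₂
  obtain ⟨m₀, hm₀, hm₀x⟩ := h4.2 T z D (fun x => D (f x)) hT hd₁ hd₂
  -- the equation for all points
  have hVd : Dense (Vx T) := (h3 T hT).1
  have hall : ∀ u, D (f u) = m₀ (D u) := by
    intro u
    have a1 : LimL univ (fun x => D (f x)) u (D (f u)) :=
      lm5 univ D u (D (f u)) f hOf (fun x _ => trivial) (hDlim (f u))
    have a2 : LimL univ (fun x => m₀ (D x)) u (m₀ (D u)) := lm4 univ D u (D u) m₀ (hDlim u)
    have a3 : LimL (Vx T) (fun x => m₀ (D x)) u (D (f u)) :=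
      lm3 (Vx T) univ _ _ u _ (subset_univ _) (fun x hx => (hm₀x x hx).symm) a1
    have a4 : LimL (Vx T) (fun x => m₀ (D x)) u (m₀ (D u)) :=
      lm3 (Vx T) univ _ _ u _ (subset_univ _) (fun x _ => rfl) a2
    exact lm2 (Vx T) _ u _ _ hVd a3 a4
  -- the subgroup
  obtain ⟨mb1, mb2, mb3⟩ := h1
  let S : Subgroup H :=
    { carrier := {g | ∃ n : H, IsMob n ∧ ∀ x, D (g x) = n (D x)}
      one_mem' := ⟨1, mb1, fun _ => rfl⟩
      mul_mem' := by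
        rintro g g' ⟨n, hn, hnx⟩ ⟨n', hn', hnx'⟩
        refine ⟨n * n', mb2 n n' hn hn', fun x => ?_⟩
        show D (g (g' x)) = n (n' (D x))
        rw [hnx, hnx']
      inv_mem' := by
        rintro g ⟨n, hn, hnx⟩
        refine ⟨n⁻¹, mb3 n hn, fun x => ?_⟩
        have a1 := hnx (g⁻¹ x)
        have a2 : g (g⁻¹ x) = x := g.apply_symm_apply x
        rw [a2] at a1
        rw [a1]
        exact (n.symm_apply_apply _).symm }
  have hS : Γ ⊔ Subgroup.zpowers f ≤ S := by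
    refine sup_le ?_ ?_
    · intro γ hγ
      obtain ⟨n, hn, -, hn2⟩ := hDn γ hγ
      exact ⟨n, hn, hn2⟩
    · rw [Subgroup.zpowers_le]
      exact ⟨m₀, hm₀, hall⟩
  exact ⟨D, hDcy, fun g hg => hS hg⟩

end Pool.FO
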