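import Pool.Agent.Work.MP_ae1ff6_fo.Interface

/-!
# Block FRT of MP_ae1ff6_gt, finite order: frames along a path (typed by helper99)
-/

open Topology Filter Set
open scoped ComplexConjugate Matrix

set_option autoImplicit false

namespace Pool.FO

open Pool.CG Pool.AR Pool.SH

lemma FRT_cusps : Ccw (cusp 0 1) (cusp 1 1) (cusp 1 0) := by
  rw [q_FA1.2.2.2.2.2 0 1 1 1 1 0 (Or.inr one_ne_zero) (Or.inl one_ne_zero) (Or.inl one_ne_zero)]
  norm_num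

lemma FRT_mob {F F' : H} (h : IsMob F) (h' : IsMob F') : IsMob (F⁻¹ * F') := by
  obtain ⟨α, β, hp⟩ := (Pool.GC.mb1.1 F).1 h
  obtain ⟨α', β', hp'⟩ := (Pool.GC.mb1.1 F').1 h'
  exact (Pool.GC.mb1.1 _).2 ⟨_, _, Pool.GC.mb2.1 _ _ _ _ _ _ (Pool.GC.mb2.2.1 _ _ _ hp) hp'⟩

lemma FRT_rep_one : Rep 1 (1 : Matrix (Fin 2) (Fin 2) ℝ) := by
  refine ⟨Matrix.det_one, fun p q _ => ?_⟩
  show cusp p q = _
  simp

lemma FRT_inv {F : H} {x y : Circle} (h : F x = y) : F⁻¹ y = x := by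
  rw [← h]
  exact F.symm_apply_apply x

lemma FRT_uniq {T : Set (Circle × Circle)} {d : Circle → Circle} {e : Circle × Circle} {F F' : H}
    (h : Fr T d e F) (h' : Fr T d e F') : F⁻¹ * F' = 1 := by
  obtain ⟨-, h1, h2, h3⟩ := q_CYO.2.1 _ _ _ FRT_cusps
  refine Pool.GC.mb3 _ (FRT_mob h.mob h'.mob) (cusp 0 1) (cusp 1 1) (cusp 1 0) h1 h2 h3 ?_ ?_ ?_
  · show F⁻¹ (F' (cusp 0 1)) = cusp 0 1
    rw [h'.fst]
    exact FRT_inv h.fst
  · show F⁻¹ (F' (cusp 1 1)) = cusp 1 1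
    rw [h'.mid]
    exact FRT_inv h.mid
  · show F⁻¹ (F' (cusp 1 0)) = cusp 1 0
    rw [h'.snd]
    exact FRT_inv h.snd

lemma FRT_ed (T : Set (Circle × Circle)) (b : Bool) (l : List Bool) (e : Circle × Circle) :
    ed T (b :: l) e = ed T l (ed T [b] e) := by
  cases b <;> rfl

theorem p_FRT (h1 : Pool.SH.Stmt_TR3) (h2 : Stmt_VTX) (h3 : Stmt_REP) (h4 : Stmt_FR1) :
    Stmt_FRT := by
  have A : ∀ (T : Set (Circle × Circle)) (z : Ed) (d : Circle → Circle), Tri T → Dev T z d →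
      ∀ e ∈ T, ∃ F, Fr T d e F := by
    rintro T z d hT hD ⟨p, q⟩ he
    obtain ⟨hp, hq, hv, hcc, -⟩ := (h2 T hT).2.1 p q he
    obtain ⟨F, hF, e1, e2, e3⟩ := h1 _ _ _ _ _ _ FRT_cusps (hD.cy p hp _ hv q hq hcc)
    exact ⟨F, hF, e1, e2, e3⟩
  refine ⟨A, ?_⟩
  intro T z d hT hD l
  induction l with
  | nil =>
    intro e F F' _ hF hF'
    have h := FRT_uniq hF hF'
    rw [h]
    exact FRT_rep_one
  | cons b l ih =>
    intro e F F' he hF hF'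
    rw [FRT_ed] at hF'
    have he1 : ed T [b] e ∈ T := (q_PT1 T hT [b] e he).1
    obtain ⟨F₁, hF₁⟩ := A T z d hT hD _ he1
    have i1 := h4 T z d hT hD b e F F₁ he hF hF₁
    have i2 := ih (ed T [b] e) F₁ F' he1 hF₁ hF'
    have i3 := h3.2.2.1 _ _ _ _ i1 i2
    have hg : F⁻¹ * F₁ * (F₁⁻¹ * F') = F⁻¹ * F' := by group
    rw [hg] at i3
    exact i3

end Pool.FO
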