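import Pool.Agent.Work.MP_ae1ff6_fo.Interface

open Topology Filter Set
open scoped ComplexConjugate Matrix

set_option autoImplicit false

namespace Pool.FO

open Pool.CG Pool.AR Pool.SH

theorem FUN_half (s t : ℝ) (h : s ≠ t) :
    Real.exp ((1 / 2 : ℝ) * (s + t)) < (Real.exp s + Real.exp t) / 2 := by
  have h1 : Real.exp s = Real.exp (s / 2) * Real.exp (s / 2) := by
    rw [← Real.exp_add]; congr 1; ring
  have h2 : Real.exp t = Real.exp (t / 2) * Real.exp (t / 2) := by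
    rw [← Real.exp_add]; congr 1; ring
  have h3 : Real.exp ((1 / 2 : ℝ) * (s + t)) = Real.exp (s / 2) * Real.exp (t / 2) := by
    rw [← Real.exp_add]; congr 1; ring
  have h4 : Real.exp (s / 2) - Real.exp (t / 2) ≠ 0 := by
    intro h5
    apply h
    have := Real.exp_injective (sub_eq_zero.mp h5)
    linarith
  rw [h1, h2, h3]
  have := pow_pos (abs_pos.mpr h4) 2
  rw [sq_abs] at this
  nlinarith

theorem FUN_pow (Γ : Subgroup H) (f : H) (hN : ∀ γ, γ ∈ Γ ↔ f * γ * f⁻¹ ∈ Γ) (γ : H)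
    (hγ : γ ∈ Γ) (j : ℕ) : f ^ j * γ * (f ^ j)⁻¹ ∈ Γ := by
  induction j with
  | zero => simpa using hγ
  | succ j ih =>
    have := (hN _).1 ih
    have h : f ^ (j + 1) * γ * (f ^ (j + 1))⁻¹ = f * (f ^ j * γ * (f ^ j)⁻¹) * f⁻¹ := by
      rw [pow_succ', mul_inv_rev]
      group
    rw [h]
    exact this

theorem FUN_axis (γ g : H) (r s : Circle) (h : Axis γ r s) : Axis (g * γ * g⁻¹) (g r) (g s) := by
  refine ⟨fun e => h.1 (g.injective e), fun z => ?_⟩
  have h1 : (g * γ * g⁻¹) z = g (γ (g.symm z)) := rfl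
  rw [h1]
  have h2 := h.2 (g.symm z)
  constructor
  · intro h3
    have h4 : γ (g.symm z) = g.symm z := by
      have h6 := congrArg g.symm h3
      rwa [g.symm_apply_apply] at h6
    rcases h2.1 h4 with h5 | h5
    · left; rw [← h5, g.apply_symm_apply]
    · right; rw [← h5, g.apply_symm_apply]
  · intro h3
    have h4 : γ (g.symm z) = g.symm z := by
      apply h2.2
      rcases h3 with h5 | h5
      · left; rw [h5, g.symm_apply_apply]
      · right; rw [h5, g.symm_apply_apply]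
    rw [h4, g.apply_symm_apply]

theorem FUN_one (h1 : Stmt_ESB) (h2 : Stmt_ESL) (Γ : Subgroup H) (f : H)
    (T : Set (Circle × Circle)) (m : ℕ) (hF : FirstKind Γ) (hT : Tri T) (hK : Keeps Γ T)
    (hN : ∀ γ, γ ∈ Γ ↔ f * γ * f⁻¹ ∈ Γ) (hm : 0 < m) (a : T) (σ : ℝ) (hσ : σ = 1 ∨ σ = -1) :
    ∃ (F : Ed → ℝ) (γ : H), γ ∈ Γ ∧
      (∀ z, Shf Γ T z → F z = ∑ j ∈ Finset.range m, tr T z (f ^ j * γ * (f ^ j)⁻¹)) ∧
      Continuous F ∧ (∀ x, 0 ≤ F x) ∧
      (∀ x y, F ((1 / 2 : ℝ) • (x + y)) ≤ (F x + F y) / 2) ∧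
      (∀ x : Ed, σ * x a ≤ F x) ∧
      ∀ x y : Ed, x a ≠ y a → F ((1 / 2 : ℝ) • (x + y)) < (F x + F y) / 2 := by
  obtain ⟨e0, e1, e2, e3, e4, e5⟩ := h1
  obtain ⟨l1, l2⟩ := h2 Γ T hF hT hK
  obtain ⟨γ, hγ, ⟨r, s, hax⟩, S, G, hG, htr⟩ := l2 a a.2 σ hσ
  have hj : ∀ j : ℕ, ∃ Gj : Ed → ℝ, ES Gj ∧
      ∀ z, Shf Γ T z → tr T z (f ^ j * γ * (f ^ j)⁻¹) = Gj z := fun j =>
    l1 _ (FUN_pow Γ f hN γ hγ j) _ _ (FUN_axis γ (f ^ j) r s hax)
  choose g hg hgt using hj
  obtain ⟨m', rfl⟩ : ∃ m', m = m' + 1 := ⟨m - 1, by omega⟩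
  let U : Ed →L[ℝ] ℝ := σ • ContinuousLinearMap.proj (a : Circle × Circle) - S
  have hU : ∀ z : Ed, U z = σ * z a - S z := fun z => rfl
  let R : Ed → ℝ := fun z => (∑ j ∈ Finset.range m', g (j + 1) z) + G z
  have hR : ES R := e2 _ _ (e4 ℕ (Finset.range m') (fun j => g (j + 1)) (fun j _ => hg (j + 1))) hG
  obtain ⟨R1, R2, R3⟩ := e5 R hR
  obtain ⟨S1, S2, S3⟩ := e5 _ (e1 S)
  obtain ⟨U1, U2, U3⟩ := e5 _ (e1 U)
  refine ⟨fun z => Real.exp (S z) + Real.exp (U z) + R z, γ, hγ, ?_, ?_, ?_, ?_, ?_, ?_⟩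
  · intro z hz
    rw [Finset.sum_range_succ']
    have h0 : tr T z (f ^ 0 * γ * (f ^ 0)⁻¹) = Real.exp (S z) + Real.exp (σ * z a - S z) + G z := by
      rw [← htr z hz]; simp
    rw [h0, Finset.sum_congr rfl (fun j _ => hgt (j + 1) z hz)]
    simp only [hU, R]
    ring
  · exact (S1.add U1).add R1
  · intro x
    have := S2 x
    have := U2 x
    have := R2 x
    simp only at *
    linarith
  · intro x y
    have a1 := S3 x y
    have a2 := U3 x y
    have a3 := R3 x y
    simp only at *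
    linarith
  · intro x
    have a1 := Real.add_one_le_exp (S x)
    have a2 := Real.add_one_le_exp (U x)
    have a3 := R2 x
    rw [hU] at a2
    simp only [hU] at *
    linarith
  · intro x y hxy
    have a1 := S3 x y
    have a2 := U3 x y
    have a3 := R3 x y
    have m1 : S ((1 / 2 : ℝ) • (x + y)) = (1 / 2 : ℝ) * (S x + S y) := by
      rw [map_smul, map_add, smul_eq_mul]
    have m2 : U ((1 / 2 : ℝ) • (x + y)) = (1 / 2 : ℝ) * (U x + U y) := by
      rw [map_smul, map_add, smul_eq_mul]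
    by_cases hs : S x = S y
    · have hu : U x ≠ U y := by
        rw [hU, hU, hs]
        intro h
        have h' : σ * x a = σ * y a := by linarith
        apply hxy
        rcases hσ with rfl | rfl <;> linarith
      have := FUN_half _ _ hu
      rw [← m2] at this
      simp only at *
      linarith
    · have := FUN_half _ _ hs
      rw [← m1] at this
      simp only at *
      linarith

theorem p_FUN (h1 : Stmt_ESB) (h2 : Stmt_ESL) : Stmt_FUN := by
  intro Γ f T m hF hT hK _ hN hm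
  have hone : ∀ (a : T) (b : Bool), ∃ (F : Ed → ℝ) (γ : H), γ ∈ Γ ∧
      (∀ z, Shf Γ T z → F z = ∑ j ∈ Finset.range m, tr T z (f ^ j * γ * (f ^ j)⁻¹)) ∧
      Continuous F ∧ (∀ x, 0 ≤ F x) ∧
      (∀ x y, F ((1 / 2 : ℝ) • (x + y)) ≤ (F x + F y) / 2) ∧
      (∀ x : Ed, (if b then -1 else 1 : ℝ) * x a ≤ F x) ∧
      ∀ x y : Ed, x a ≠ y a → F ((1 / 2 : ℝ) • (x + y)) < (F x + F y) / 2 := by
    intro a b
    refine FUN_one h1 h2 Γ f T m hF hT hK hN hm a _ ?_
    cases b <;> simp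
  choose F γ hγ hFs hFc hF0 hFm hFl hFst using hone
  refine ⟨fun a z => F a false z + F a true z, γ, hγ, ?_, ?_, ?_, ?_, ?_, ?_⟩
  · intro a z hz
    show F a false z + F a true z = _
    rw [hFs a false z hz, hFs a true z hz, Finset.sum_add_distrib]
  · intro a
    exact (hFc a false).add (hFc a true)
  · intro a x
    exact add_nonneg (hF0 a false x) (hF0 a true x)
  · intro a x y
    have a1 := hFm a false x y
    have a2 := hFm a true x y
    simp only at *
    linarith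
  · intro a x
    have a1 := hFl a false x
    have a2 := hFl a true x
    have a3 := hF0 a false x
    have a4 := hF0 a true x
    simp only [Bool.false_eq_true, if_false, if_true] at a1 a2
    rw [abs_le]
    constructor <;> linarith
  · intro a x y hxy
    have a1 := hFst a false x y hxy
    have a2 := hFst a true x y hxy
    simp only at *
    linarith

end Pool.FO
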