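import Pool.Agent.Work.MP_ae1ff6_fo.Interface

/-!
# Block LMA: left limits
-/

open Topology Filter Set
open scoped ComplexConjugate Matrix

set_option autoImplicit false

namespace Pool.FO

open Pool.CG Pool.AR Pool.SH

lemma LMA_open (v u : Circle) : IsOpen {x : Circle | Ccw v x u} := by
  have h : Continuous fun x : Circle => area v x u := by
    unfold area
    refine Complex.continuous_im.comp (Continuous.mul ?_ continuous_const)
    exact Complex.continuous_conj.comp (Continuous.sub (by fun_prop) continuous_const)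
  exact isOpen_lt continuous_const h

lemma LMA_mid (v u : Circle) (h : v ≠ u) : ∃ x, Ccw v x u := by
  obtain ⟨s, t, hst, ht, rfl, rfl⟩ := q_ANG.2.2.1 v u h
  exact ⟨Circle.exp ((s + t) / 2), q_ANG.1 _ _ _ (by linarith) (by linarith) (by linarith)⟩

lemma LMA_one (V : Set Circle) (hV : Dense V) (v u : Circle) (h : v ≠ u) : ∃ x ∈ V, Ccw v x u := by
  obtain ⟨x, hx, hx'⟩ := hV.exists_mem_open (LMA_open v u) (LMA_mid v u h)
  exact ⟨x, hx, hx'⟩

/-- the arc from `v'` to `u` is contained in the arc from `v` to `u` -/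
lemma LMA_sub {v v' u x : Circle} (h : Ccw v v' u) (hx : Ccw v' x u) : Ccw v x u := by
  have h1 : Ccw u v v' := q_CYO.1 _ _ _ (q_CYO.1 _ _ _ h)
  have h2 : Ccw u v' x := q_CYO.1 _ _ _ (q_CYO.1 _ _ _ hx)
  exact q_CYO.1 _ _ _ (q_CYO.2.2.2 _ _ _ _ h1 h2).1

lemma LMA_two (V : Set Circle) (hV : Dense V) (u v v' : Circle) (h : v ≠ u) (h' : v' ≠ u) :
    ∃ x ∈ V, Ccw v x u ∧ Ccw v' x u := by
  by_cases hv : v = v'
  · subst hv
    obtain ⟨x, hx, hx'⟩ := LMA_one V hV v u h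
    exact ⟨x, hx, hx', hx'⟩
  · rcases q_CYO.2.2.1 v v' u hv h' h with hc | hc
    · obtain ⟨x, hx, hx'⟩ := LMA_one V hV v' u h'
      exact ⟨x, hx, LMA_sub hc hx', hx'⟩
    · obtain ⟨x, hx, hx'⟩ := LMA_one V hV v u h
      refine ⟨x, hx, hx', LMA_sub (q_CYO.1 _ _ _ (q_CYO.1 _ _ _ hc)) hx'⟩

theorem p_LMA : Stmt_LMA := by
  refine ⟨?_, ?_, ?_, ?_, ?_⟩
  · intro V hV u v v' h h'
    exact LMA_two V hV u v v' h h'
  · intro V d u y y' hV hy hy'
    by_contra hne
    obtain ⟨N, N', hN, hN', hd⟩ := t2_separation_nhds hne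
    obtain ⟨v, hv, h1⟩ := hy N hN
    obtain ⟨v', hv', h2⟩ := hy' N' hN'
    obtain ⟨x, hx, h3, h4⟩ := LMA_two V hV u v v' hv hv'
    exact Set.disjoint_left.1 hd (h1 x hx h3) (h2 x hx h4)
  · intro V V' d d' u y hV hd hy N hN
    obtain ⟨v, hv, h⟩ := hy N hN
    refine ⟨v, hv, fun x hx hc => ?_⟩
    rw [hd x hx]
    exact h x (hV hx) hc
  · intro V d u y m hy N hN
    have hm : m ⁻¹' N ∈ 𝓝 y := m.continuous.continuousAt.preimage_mem_nhds hN
    obtain ⟨v, hv, h⟩ := hy _ hm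
    exact ⟨v, hv, fun x hx hc => h x hx hc⟩
  · intro V d u y g hg hV hy N hN
    obtain ⟨v, hv, h⟩ := hy N hN
    refine ⟨g.symm v, ?_, fun x hx hc => ?_⟩
    · intro he
      apply hv
      rw [← he, g.apply_symm_apply]
    · have h1 := hg _ _ _ hc
      rw [g.apply_symm_apply] at h1
      exact h (g x) (hV x hx) h1

end Pool.FO
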