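import Pool.Agent.Work.MP_ae1ff6_fo.Interface

open Topology Filter Set
open scoped ComplexConjugate Matrix

set_option autoImplicit false

namespace Pool.FO

open Pool.CG Pool.AR Pool.SH

theorem LMB_ne (u : Circle) : ∃ v : Circle, v ≠ u := by
  by_contra h
  push Not at h
  have h1 := (h 1).trans (h (Circle.exp Real.pi)).symm
  have h2 : ((1 : Circle) : ℂ) = (Circle.exp Real.pi : ℂ) := congrArg _ h1
  rw [Circle.coe_exp, Circle.coe_one, Complex.exp_pi_mul_I] at h2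
  norm_num at h2

theorem p_LMB (h1 : Stmt_LMA) : Stmt_LMB := by
  intro V d hV hd u
  -- a point `b` of `V` different from `u`
  obtain ⟨b, hbV, hbu⟩ : ∃ b ∈ V, b ≠ u := by
    obtain ⟨v, hv⟩ := LMB_ne u
    obtain ⟨x, hx, hx1, -⟩ := h1.1 V hV u v v hv hv
    exact ⟨x, hx, (q_CYO.2.1 _ _ _ hx1).2.2.1⟩
  obtain ⟨s, -, hs⟩ : ∃ s : ℝ, True ∧ Circle.exp s = d b := by
    obtain ⟨θ, hθ, -, -⟩ := q_CUT 0
    exact ⟨θ (d b), trivial, (hθ (d b)).2.2⟩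
  obtain ⟨θ, hθ, hθ2, hθ3⟩ := q_CUT s
  have hsb : θ (d b) = s := by
    rw [← hs]
    exact hθ2 s le_rfl (by linarith [Real.pi_pos])
  set S : Set ℝ := {t | ∃ x ∈ V, Ccw b x u ∧ t = θ (d x)} with hS
  have hSne : S.Nonempty := by
    obtain ⟨x, hx, hx1, -⟩ := h1.1 V hV u b b hbu hbu
    exact ⟨_, x, hx, hx1, rfl⟩
  have hSbd : BddAbove S := ⟨s + 2 * Real.pi, by
    rintro _ ⟨x, -, -, rfl⟩
    exact (hθ (d x)).2.1.le⟩
  set σ := sSup S with hσ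
  refine ⟨Circle.exp σ, ?_⟩
  intro N hN
  have hc : Circle.exp ⁻¹' N ∈ 𝓝 σ := (Circle.exp.continuous.continuousAt) hN
  obtain ⟨ε, hε, hball⟩ := Metric.mem_nhds_iff.1 hc
  obtain ⟨t, ⟨x₀, hx₀V, hx₀, rfl⟩, ht⟩ := exists_lt_of_lt_csSup hSne (show σ - ε < σ by linarith)
  refine ⟨x₀, (q_CYO.2.1 _ _ _ hx₀).2.2.1, fun x hxV hx => ?_⟩
  -- `Ccw x₀ u b`, `Ccw x₀ x u`
  have h2 : Ccw x₀ u b := q_CYO.1 _ _ _ hx₀
  obtain ⟨h3, h4⟩ := q_CYO.2.2.2 x₀ x u b hx h2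
  -- `Ccw x₀ x b`, `Ccw x u b`
  have hbx : Ccw b x u := q_CYO.1 _ _ _ (q_CYO.1 _ _ _ h4)
  have hb0 : Ccw b x₀ x := q_CYO.1 _ _ _ (q_CYO.1 _ _ _ h3)
  have h5 : Ccw (d b) (d x₀) (d x) := hd b hbV x₀ hx₀V x hxV hb0
  have h6 : θ (d x₀) < θ (d x) := by
    rcases (hθ3 _ _ _).1 h5 with ⟨-, h⟩ | ⟨h, -⟩ | ⟨h, -⟩
    · exact h
    · exact h
    · exact absurd h (not_lt.2 (by rw [hsb]; exact (hθ (d x)).1))
  have h7 : θ (d x) ≤ σ := le_csSup hSbd ⟨x, hxV, hbx, rfl⟩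
  have h8 : θ (d x) ∈ Circle.exp ⁻¹' N := hball (by
    rw [Metric.mem_ball, Real.dist_eq, abs_lt]
    constructor <;> linarith)
  rw [mem_preimage, (hθ (d x)).2.2] at h8
  exact h8

end Pool.FO
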