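import Pool.Agent.Work.MP_ae1ff6_fo.Interface

/-!
# MP_ae1ff6_gt, block LMC: the extension by left limits is left continuous
-/

open Topology Filter Set
open scoped ComplexConjugate Matrix

set_option autoImplicit false

namespace Pool.FO

open Pool.CG Pool.AR Pool.SH

theorem p_LMC (h1 : Stmt_LMA) : Stmt_LMC := by
  intro V d D hV hD u N hN
  obtain ⟨N', hN', hcl, hsub⟩ := exists_mem_nhds_isClosed_subset hN
  obtain ⟨v, hvu, hv⟩ := hD u N' hN'
  refine ⟨v, hvu, ?_⟩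
  intro x _ hx
  apply hsub
  by_contra hcon
  have hcompl : N'ᶜ ∈ 𝓝 (D x) := hcl.isOpen_compl.mem_nhds hcon
  obtain ⟨v', hv'x, hv'⟩ := hD x _ hcompl
  have hvx : v ≠ x := (q_CYO.2.1 _ _ _ hx).2.1
  obtain ⟨x', hx'V, hx'1, hx'2⟩ := h1.1 V hV x v v' hvx hv'x
  have h5 : Ccw v x' u := (q_CYO.2.2.2 v x' x u hx'1 hx).1
  exact hv' x' hx'V hx'2 (hv x' hx'V h5)

end Pool.FO
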