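import Pool.Agent.Work.MP_ae1ff6_fo.Interface

/-!
# Mapping classes of finite order (MP_ae1ff6_gt): block LMD (left limits preserve the order)
-/

open Topology Filter Set
open scoped ComplexConjugate Matrix

set_option autoImplicit false

namespace Pool.FO

open Pool.CG Pool.AR Pool.SH

theorem LMD_open (p q : Circle) : IsOpen {y : Circle | Ccw p y q} := by
  unfold Ccw area
  refine isOpen_lt continuous_const ?_
  refine Complex.continuous_im.comp ?_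
  refine Continuous.mul ?_ continuous_const
  exact Complex.continuous_conj.comp (continuous_subtype_val.sub continuous_const)

theorem LMD_key (hLMA : Stmt_LMA) (V : Set Circle) (d D : Circle → Circle) (hV : Dense V)
    (hd : CyOn d V) (hD : ∀ u, LimL V d u (D u)) (u v v' : Circle) (hv : v ∈ V) (hv' : v' ∈ V)
    (h : Ccw v u v') : ¬ Ccw (d v') (D u) (d v) := by
  intro hc
  obtain ⟨w, hw, hN⟩ := hD u _ ((LMD_open (d v') (d v)).mem_nhds hc)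
  have hvu : v ≠ u := (q_CYO.2.1 _ _ _ h).2.1
  obtain ⟨x, hx, h1, h2⟩ := hLMA.1 V hV u w v hw hvu
  have h3 : Ccw (d v') (d x) (d v) := hN x hx h1
  -- `Ccw v x u`, `Ccw v u v'` give `Ccw v x v'`
  have h4 : Ccw v x v' := (q_CYO.2.2.2 v x u v' h2 h).1
  have h5 : Ccw (d v) (d x) (d v') := hd v hv x hx v' hv' h4
  have h6 : Ccw (d v') (d v) (d x) := q_CYO.1 _ _ _ (q_CYO.1 _ _ _ h5)
  exact (q_CYO.2.1 _ _ _ h6).1 h3

theorem p_LMD (hARL : Pool.SH.Stmt_ARL) (hLMA : Stmt_LMA) : Stmt_LMD := by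
  intro V d D hV hd hD a _ b _ c _ habc
  obtain ⟨-, nab, nbc, nac⟩ := q_CYO.2.1 _ _ _ habc
  obtain ⟨v₂, m₂, k₂, -⟩ := hLMA.1 V hV b a a nab nab
  have n₂ : a ≠ v₂ := (q_CYO.2.1 _ _ _ k₂).2.1
  obtain ⟨v₁, m₁, k₁, -⟩ := hLMA.1 V hV v₂ a a n₂ n₂
  obtain ⟨v₄, m₄, k₄, -⟩ := hLMA.1 V hV c b b nbc nbc
  have n₄ : b ≠ v₄ := (q_CYO.2.1 _ _ _ k₄).2.1
  obtain ⟨v₃, m₃, k₃, -⟩ := hLMA.1 V hV v₄ b b n₄ n₄
  obtain ⟨v₆, m₆, k₆, -⟩ := hLMA.1 V hV a c c nac.symm nac.symm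
  have n₆ : c ≠ v₆ := (q_CYO.2.1 _ _ _ k₆).2.1
  obtain ⟨v₅, m₅, k₅, -⟩ := hLMA.1 V hV v₆ c c n₆ n₆
  obtain ⟨θ, hθi, hθm, hθc, -⟩ := hARL a
  have hmin : ∀ y, a ≠ y → θ a < θ y := fun y hy =>
    lt_of_le_of_ne (hθm y) (fun e => hy (hθi e))
  have tab := hmin b nab
  have tac := hmin c nac
  have ta2 := hmin v₂ n₂
  have o1 : θ b < θ c := by
    rcases (hθc _ _ _).1 habc with h | h | h <;> linarith [h.1, h.2]
  have o2 : θ v₂ < θ b := by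
    rcases (hθc _ _ _).1 k₂ with h | h | h <;> linarith [h.1, h.2]
  have o3 : θ a < θ v₁ ∧ θ v₁ < θ v₂ := by
    rcases (hθc _ _ _).1 k₁ with h | h | h <;> constructor <;> linarith [h.1, h.2]
  have o4 : θ b < θ v₄ ∧ θ v₄ < θ c := by
    rcases (hθc _ _ _).1 k₄ with h | h | h <;> constructor <;> linarith [h.1, h.2]
  have o5 : θ b < θ v₃ ∧ θ v₃ < θ v₄ := by
    rcases (hθc _ _ _).1 k₃ with h | h | h <;> constructor <;> linarith [h.1, h.2, o4.1]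
  have o6 : θ c < θ v₆ := by
    have := hθm v₆
    rcases (hθc _ _ _).1 k₆ with h | h | h <;> linarith [h.1, h.2]
  have o7 : θ c < θ v₅ ∧ θ v₅ < θ v₆ := by
    rcases (hθc _ _ _).1 k₅ with h | h | h <;> constructor <;> linarith [h.1, h.2]
  -- the order of the points
  have C : ∀ x y z : Circle, θ x < θ y → θ y < θ z → Ccw x y z := fun x y z h1 h2 =>
    (hθc x y z).2 (Or.inl ⟨h1, h2⟩)
  have C' : ∀ x y z : Circle, θ z < θ x → θ x < θ y → Ccw x y z := fun x y z h1 h2 =>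
    (hθc x y z).2 (Or.inr (Or.inr ⟨h1, h2⟩))
  -- the three key facts
  have K1 : ¬ Ccw (d v₃) (D b) (d v₂) :=
    LMD_key hLMA V d D hV hd hD b v₂ v₃ m₂ m₃ (C _ _ _ o2 o5.1)
  have K2 : ¬ Ccw (d v₅) (D c) (d v₄) :=
    LMD_key hLMA V d D hV hd hD c v₄ v₅ m₄ m₅ (C _ _ _ o4.2 o7.1)
  have K3 : ¬ Ccw (d v₁) (D a) (d v₆) :=
    LMD_key hLMA V d D hV hd hD a v₆ v₁ m₆ m₁
      (q_CYO.1 _ _ _ (q_CYO.1 _ _ _ (C a v₁ v₆ o3.1 (by linarith [o4.1, o4.2, o7.1, o3.2]))))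
  -- the order of the images
  have W1 : Ccw (d v₆) (d v₁) (d v₂) := hd _ m₆ _ m₁ _ m₂
    (q_CYO.1 _ _ _ (q_CYO.1 _ _ _ (C v₁ v₂ v₆ o3.2 (by linarith))))
  have W2 : Ccw (d v₆) (d v₂) (d v₃) := hd _ m₆ _ m₂ _ m₃
    (q_CYO.1 _ _ _ (q_CYO.1 _ _ _ (C v₂ v₃ v₆ (by linarith [o5.1]) (by linarith [o5.2, o4.2]))))
  have W3 : Ccw (d v₆) (d v₃) (d v₄) := hd _ m₆ _ m₃ _ m₄
    (q_CYO.1 _ _ _ (q_CYO.1 _ _ _ (C v₃ v₄ v₆ o5.2 (by linarith [o4.2]))))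
  have W4 : Ccw (d v₆) (d v₄) (d v₅) := hd _ m₆ _ m₄ _ m₅
    (q_CYO.1 _ _ _ (q_CYO.1 _ _ _ (C v₄ v₅ v₆ (by linarith [o4.2, o7.1]) o7.2)))
  obtain ⟨φ, hφi, hφm, hφc, -⟩ := hARL (d v₆)
  have N : ∀ x y : Circle, Ccw (d v₆) x y → φ (d v₆) < φ x ∧ φ x < φ y := by
    intro x y hxy
    have e1 := hφm x
    have e2 := hφm y
    rcases (hφc _ _ _).1 hxy with h | h | h <;> constructor <;> linarith [h.1, h.2]
  have w1 := N _ _ W1
  have w2 := N _ _ W2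
  have w3 := N _ _ W3
  have w4 := N _ _ W4
  have f3 : φ (D a) ≤ φ (d v₁) := by
    by_contra hlt
    exact K3 ((hφc _ _ _).2 (Or.inr (Or.inr ⟨w1.1, not_le.1 hlt⟩)))
  have f1 : φ (d v₂) ≤ φ (D b) := by
    by_contra hlt
    exact K1 ((hφc _ _ _).2 (Or.inr (Or.inl ⟨not_le.1 hlt, w2.2⟩)))
  have f1' : φ (D b) ≤ φ (d v₃) := by
    by_contra hlt
    exact K1 ((hφc _ _ _).2 (Or.inr (Or.inr ⟨w2.2, not_le.1 hlt⟩)))
  have f2 : φ (d v₄) ≤ φ (D c) := by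
    by_contra hlt
    exact K2 ((hφc _ _ _).2 (Or.inr (Or.inl ⟨not_le.1 hlt, w4.2⟩)))
  exact (hφc _ _ _).2 (Or.inl ⟨by linarith [w1.2], by linarith [w3.2]⟩)

end Pool.FO
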