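import Pool.Agent.Work.MP_ae1ff6_fo.Interface

/-! Block MIN. -/

open Topology Filter Set
open scoped ComplexConjugate Matrix

set_option autoImplicit false

namespace Pool.FO

open Pool.CG Pool.AR Pool.SH

theorem p_MIN : Stmt_MIN := by
  intro κ _ Z F hZc hZ0 hmid hcont hnn hconv hcoer hstrict
  obtain ⟨i, hi⟩ := exists_injective_nat κ
  set w : κ → ℝ := fun k => (1 / 2 : ℝ) ^ (i k) / (1 + F k 0) with hw
  have hwpos : ∀ k, 0 < w k := fun k => by
    have := hnn k 0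
    simp only [hw]
    positivity
  set Φ : Ed → ENNReal := fun x => ∑' k, ENNReal.ofReal (w k * F k x) with hΦ
  have h0 : Φ 0 ≠ ⊤ := by
    have h1 : Φ 0 ≤ ∑' k, ENNReal.ofReal ((1 / 2 : ℝ) ^ (i k)) := by
      refine ENNReal.tsum_le_tsum fun k => ENNReal.ofReal_le_ofReal ?_
      have := hnn k 0
      simp only [hw]
      rw [div_mul_eq_mul_div, div_le_iff₀ (by linarith)]
      have h2 : (0 : ℝ) ≤ (1 / 2 : ℝ) ^ (i k) := by positivity
      nlinarith
    have h2 : ∑' k, ENNReal.ofReal ((1 / 2 : ℝ) ^ (i k)) ≤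
        ∑' n : ℕ, ENNReal.ofReal ((1 / 2 : ℝ) ^ n) :=
      ENNReal.tsum_comp_le_tsum_of_injective hi (fun n => ENNReal.ofReal ((1 / 2 : ℝ) ^ n))
    have h3 : ∑' n : ℕ, ENNReal.ofReal ((1 / 2 : ℝ) ^ n) ≠ ⊤ := by
      rw [← ENNReal.ofReal_tsum_of_nonneg (fun n => by positivity)
        (summable_geometric_of_lt_one (by norm_num) (by norm_num))]
      exact ENNReal.ofReal_ne_top
    exact ne_top_of_le_ne_top h3 (h1.trans h2)
  have hlsc : LowerSemicontinuous Φ :=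
    lowerSemicontinuous_tsum fun k =>
      (ENNReal.continuous_ofReal.comp (continuous_const.mul (hcont k))).lowerSemicontinuous
  set C : Set Ed := {x | x ∈ Z ∧ Φ x ≤ Φ 0} with hC
  have hCc : IsClosed C := hZc.inter (hlsc.isClosed_preimage (Φ 0))
  have hC0 : (0 : Ed) ∈ C := ⟨hZ0, le_rfl⟩
  choose B kk hB0 hB using hcoer
  have hsub : C ⊆ Set.univ.pi fun a => Icc (-(B a * ((Φ 0).toReal / w (kk a))))
      (B a * ((Φ 0).toReal / w (kk a))) := by
    intro x hx a _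
    rw [mem_Icc, ← abs_le]
    refine (hB a x hx.1).trans ?_
    refine mul_le_mul_of_nonneg_left ?_ (hB0 a)
    rw [le_div_iff₀ (hwpos _), mul_comm]
    rw [← ENNReal.ofReal_le_iff_le_toReal h0]
    exact (ENNReal.le_tsum (kk a)).trans hx.2
  have hCk : IsCompact C :=
    (isCompact_univ_pi fun a => isCompact_Icc).of_isClosed_subset hCc hsub
  obtain ⟨z, hzC, hzm⟩ := (hlsc.lowerSemicontinuousOn C).exists_isMinOn ⟨0, hC0⟩ hCk
  have hmin : ∀ x ∈ Z, Φ z ≤ Φ x := by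
    intro x hx
    by_cases h : Φ x ≤ Φ 0
    · exact hzm ⟨hx, h⟩
    · exact hzC.2.trans (not_le.1 h).le
  refine ⟨z, hzC.1, fun y hy hFy => ?_⟩
  by_contra hne
  obtain ⟨k0, hk0⟩ := hstrict z hzC.1 y hy (fun h => hne h.symm)
  set x : Ed := (1 / 2 : ℝ) • (z + y) with hx
  have hxZ : x ∈ Z := hmid z hzC.1 y hy
  have hle : ∀ k, F k x ≤ F k z := fun k => by
    have := hconv k z y
    rw [hFy k] at this
    linarith
  have hlt : F k0 x < F k0 z := by
    rw [hFy k0] at hk0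
    linarith
  have hfin : Φ z ≠ ⊤ := ne_top_of_le_ne_top h0 hzC.2
  have hle' : ∀ k, ENNReal.ofReal (w k * F k x) ≤ ENNReal.ofReal (w k * F k z) := fun k =>
    ENNReal.ofReal_le_ofReal (mul_le_mul_of_nonneg_left (hle k) (hwpos k).le)
  have hΦlt : Φ x < Φ z := by
    refine ENNReal.tsum_lt_tsum (ne_top_of_le_ne_top hfin (ENNReal.tsum_le_tsum hle')) hle'
      (i := k0) ?_
    have h1 : 0 < F k0 z := lt_of_le_of_lt (hnn k0 x) hlt
    rw [ENNReal.ofReal_lt_ofReal_iff (mul_pos (hwpos k0) h1)]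
    exact mul_lt_mul_of_pos_left hlt (hwpos k0)
  exact absurd (hmin x hxZ) (not_le.2 hΦlt)

end Pool.FO
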