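import Pool.Agent.Work.MP_ae1ff6_fo.Interface

/-!
# MP_ae1ff6_gt, finite order part, block MON: the quotient of distances is monotone on the two arcs
-/

open Topology Filter Set
open scoped ComplexConjugate Matrix

set_option autoImplicit false

namespace Pool.FO

open Pool.CG Pool.AR Pool.SH

theorem MON_dist (r s : ℝ) (h1 : s ≤ r) (h2 : r ≤ s + 2 * Real.pi) :
    dist (Circle.exp r) (Circle.exp s) = 2 * Real.sin ((r - s) / 2) := by
  have h3 : dist (Circle.exp r) (Circle.exp s) =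
      ‖Complex.exp (Complex.I * ((r - s : ℝ) : ℂ)) - 1‖ := by
    have h4 : dist (Circle.exp r) (Circle.exp s) = ‖((Circle.exp r : Circle) : ℂ) - (Circle.exp s : Circle)‖ := by
      rw [← Complex.dist_eq]
      rfl
    have h5 : ((Circle.exp r : Circle) : ℂ) - (Circle.exp s : Circle) =
        ((Circle.exp s : Circle) : ℂ) * (Complex.exp (Complex.I * ((r - s : ℝ) : ℂ)) - 1) := by
      rw [Circle.coe_exp, Circle.coe_exp, mul_sub, mul_one, ← Complex.exp_add]
      congr 2
      push_cast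
      ring
    rw [h4, h5, norm_mul, Circle.norm_coe, one_mul]
  rw [h3, Complex.norm_exp_I_mul_ofReal_sub_one, Real.norm_eq_abs, abs_of_nonneg]
  have h6 : 0 ≤ Real.sin ((r - s) / 2) :=
    Real.sin_nonneg_of_nonneg_of_le_pi (by linarith) (by linarith)
  linarith

theorem MON_id (a b u v : ℝ) :
    Real.sin ((v - a) / 2) * Real.sin ((b - u) / 2) - Real.sin ((u - a) / 2) * Real.sin ((b - v) / 2) =
      Real.sin ((b - a) / 2) * Real.sin ((v - u) / 2) := by
  have e1 : (v - a) / 2 = (u - a) / 2 + (v - u) / 2 := by ring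
  have e2 : (b - u) / 2 = (v - u) / 2 + (b - v) / 2 := by ring
  have e3 : (b - a) / 2 = (u - a) / 2 + (v - u) / 2 + (b - v) / 2 := by ring
  rw [e1, e2, e3]
  generalize (u - a) / 2 = α
  generalize (v - u) / 2 = β
  generalize (b - v) / 2 = γ
  rw [Real.sin_add (α + β) γ, Real.sin_add α β, Real.cos_add α β, Real.sin_add β γ]
  linear_combination Real.sin α * Real.sin γ * Real.sin_sq_add_cos_sq β

theorem MON_one (r s x y : Circle) (hx : Ccw r x s) (hy : Ccw r y s) :
    R r s x < R r s y ↔ Ccw r x y := by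
  have hrs : r ≠ s := (q_CYO.2.1 r x s hx).2.2.2
  obtain ⟨a, b, hab, hba, rfl, rfl⟩ := q_ANG.2.2.1 r s hrs
  obtain ⟨u, hu1, hu2, rfl⟩ := q_ANG.2.1 a b x hab hba hx
  obtain ⟨v, hv1, hv2, rfl⟩ := q_ANG.2.1 a b y hab hba hy
  have hpi := Real.pi_pos
  rw [q_ANG.2.2.2.2.1 a u v hu1 (by linarith) hv1 (by linarith)]
  unfold R
  rw [MON_dist u a hu1.le (by linarith), MON_dist v a hv1.le (by linarith),
    dist_comm (Circle.exp u) (Circle.exp b), dist_comm (Circle.exp v) (Circle.exp b),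
    MON_dist b u hu2.le (by linarith), MON_dist b v hv2.le (by linarith)]
  have p1 : 0 < Real.sin ((b - u) / 2) :=
    Real.sin_pos_of_pos_of_lt_pi (by linarith) (by linarith)
  have p2 : 0 < Real.sin ((b - v) / 2) :=
    Real.sin_pos_of_pos_of_lt_pi (by linarith) (by linarith)
  have p3 : 0 < Real.sin ((b - a) / 2) :=
    Real.sin_pos_of_pos_of_lt_pi (by linarith) (by linarith)
  rw [div_lt_div_iff₀ (by linarith) (by linarith)]
  have hid := MON_id a b u v
  constructor
  · intro h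
    by_contra hvu
    have h1 : Real.sin ((v - u) / 2) ≤ 0 :=
      Real.sin_nonpos_of_nonpos_of_neg_pi_le (by linarith) (by linarith)
    have h2 : Real.sin ((b - a) / 2) * Real.sin ((v - u) / 2) ≤ 0 :=
      mul_nonpos_of_nonneg_of_nonpos p3.le h1
    linarith
  · intro h
    have h1 : 0 < Real.sin ((v - u) / 2) :=
      Real.sin_pos_of_pos_of_lt_pi (by linarith) (by linarith)
    have h2 : 0 < Real.sin ((b - a) / 2) * Real.sin ((v - u) / 2) := mul_pos p3 h1
    linarith

theorem MON_pos (r s x : Circle) (h1 : x ≠ r) (h2 : x ≠ s) : 0 < R r s x :=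
  div_pos (dist_pos.2 h1) (dist_pos.2 h2)

theorem MON_inv (r s x : Circle) : R s r x = (R r s x)⁻¹ := by
  unfold R
  rw [inv_div]

theorem MON_two (r s x y : Circle) (hx : Ccw s x r) (hy : Ccw s y r) :
    R r s x < R r s y ↔ Ccw s y x := by
  have hx' := q_CYO.2.1 s x r hx
  have hy' := q_CYO.2.1 s y r hy
  rw [← MON_one s r y x hy hx, MON_inv r s x, MON_inv r s y]
  exact (inv_lt_inv₀ (MON_pos r s y hy'.2.2.1 hy'.2.1.symm)
    (MON_pos r s x hx'.2.2.1 hx'.2.1.symm)).symm

theorem p_MON : Stmt_MON := by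
  refine ⟨MON_one, MON_two, ?_⟩
  intro r s a b u v ha hu hb hv h1 h2
  rw [MON_one r s a u ha hu] at h1
  rw [MON_two r s b v hb hv] at h2
  have hrs : r ≠ s := (q_CYO.2.1 r a s ha).2.2.2
  obtain ⟨ρ, t, -, -, rfl, -⟩ := q_ANG.2.2.1 r s hrs
  obtain ⟨θ, T1, T2, T3⟩ := q_CUT ρ
  have hpi := Real.pi_pos
  have e := T2 ρ le_rfl (by linarith)
  have ma := (T1 a).1
  have mb := (T1 b).1
  have ms := (T1 s).1
  have mu := (T1 u).1
  have mv := (T1 v).1
  rw [T3, e] at ha hu hb hv h1
  rw [T3] at h2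
  rw [T3, T3]
  constructor <;> grind

end Pool.FO
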