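import Pool.Agent.Work.MP_ae1ff6_fo.Interface

/-!
Block MTR of MP_ae1ff6_fo (helper46): traces of Moebius maps.
-/

open Topology Filter Set
open scoped ComplexConjugate Matrix

set_option autoImplicit false

namespace Pool.FO

open Pool.CG Pool.AR Pool.SH

theorem MTR_one (h1 : Stmt_REP) (g : H) (M : Matrix (Fin 2) (Fin 2) ℝ) (hM : Rep g M) :
    mtr g = |M.trace| := by
  have hex : ∃ M, Rep g M := ⟨M, hM⟩
  unfold mtr
  rw [dif_pos hex]
  rcases h1.2.2.2.2 g M hex.choose hM hex.choose_spec with h | h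
  · rw [h]
  · rw [h, Matrix.trace_neg, abs_neg]

theorem p_MTR (h1 : Stmt_REP) : Stmt_MTR := by
  refine ⟨fun g M hM => MTR_one h1 g M hM, ?_, ?_⟩
  · intro g h hg hh
    obtain ⟨M, hM⟩ := (h1.2.1 g).1 hg
    obtain ⟨N, hN⟩ := (h1.2.1 h).1 hh
    have hr := h1.2.2.1 (h * g) h⁻¹ (N * M) N.adjugate (h1.2.2.1 h g N M hN hM)
      (h1.2.2.2.1 h N hN)
    rw [MTR_one h1 _ _ hr, MTR_one h1 g M hM, Matrix.trace_mul_comm, ← Matrix.mul_assoc,
      Matrix.adjugate_mul, hN.1, one_smul, Matrix.one_mul]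
  · intro g hg
    obtain ⟨M, hM⟩ := (h1.2.1 g).1 hg
    rw [MTR_one h1 _ _ (h1.2.2.2.1 g M hM), MTR_one h1 g M hM]
    congr 1
    rw [Matrix.adjugate_fin_two, Matrix.trace_fin_two, Matrix.trace_fin_two]
    simp [add_comm]

end Pool.FO
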