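import Pool.Agent.Work.MP_ae1ff6_fo.Interface

/-!
# Block RCH of MP_ae1ff6_gt, finite order: reaching the inner edges (typed by helper63)
-/

open Topology Filter Set
open scoped ComplexConjugate Matrix

set_option autoImplicit false

namespace Pool.FO

open Pool.CG Pool.AR Pool.SH

theorem p_RCH : Stmt_RCH := by
  intro T hT a b u v hab huv h1 h2
  obtain ⟨s₀, t₀, h3, h4, rfl, rfl⟩ := q_ANG.2.2.1 a b (hT.ne _ _ hab)
  obtain ⟨t, h5, h6, rfl⟩ := q_ANG.2.1 s₀ t₀ v h3 h4 h2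
  obtain ⟨s, h7, h8, rfl⟩ := q_ANG.2.1 s₀ t u h5 (h6.trans h4) h1
  obtain ⟨w, r, -, -, -, h9⟩ := q_PT3 T hT s₀ t₀ h3 h4 hab s t h7.le h8 h6.le
  exact ⟨w, h9 huv⟩

end Pool.FO
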