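import Pool.Agent.Work.MP_ae1ff6_fo.Interface

/-!
# Block REP: Möbius maps and real matrices
-/

open Topology Filter Set
open scoped ComplexConjugate Matrix

set_option autoImplicit false

namespace Pool.FO

open Pool.CG Pool.AR Pool.SH

theorem REP_map (a b c d : ℝ) (h : a * d - b * c = 1) (m : H)
    (hm : Par m (⟨(a + d) / 2, -(c - b) / 2⟩ : ℂ) (⟨(a - d) / 2, -(b + c) / 2⟩ : ℂ)) :
    ∀ p q : ℝ, (p ≠ 0 ∨ q ≠ 0) → m (cusp p q) = cusp (a * p + b * q) (c * p + d * q) := by
  intro p q hpq
  have hne := MOF_ne a b c d p q h hpq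
  have e1 := hm.2 (cusp p q)
  have e2 := q_FA1.1 p q hpq
  have e3 := q_FA1.1 _ _ hne
  have hw : ((a * p + b * q : ℝ) : ℂ) + ((c * p + d * q : ℝ) : ℂ) * Complex.I ≠ 0 := by
    intro h0
    have hre := congrArg Complex.re h0
    have him := congrArg Complex.im h0
    simp at hre him
    rcases hne with h' | h'
    · exact h' hre
    · exact h' him
  have e4 : (m (cusp p q) : ℂ) *
      (((a * p + b * q : ℝ) : ℂ) + ((c * p + d * q : ℝ) : ℂ) * Complex.I) =
      ((a * p + b * q : ℝ) : ℂ) - ((c * p + d * q : ℝ) : ℂ) * Complex.I := by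
    rw [← MOF_alg1, ← MOF_alg2, ← e2]
    linear_combination ((p : ℂ) + q * Complex.I) * e1
  rw [← e3] at e4
  exact Circle.ext (mul_right_cancel₀ hw e4)

theorem REP_det {M : Matrix (Fin 2) (Fin 2) ℝ} (h : M.det = 1) :
    M 0 0 * M 1 1 - M 0 1 * M 1 0 = 1 := by
  rw [← Matrix.det_fin_two]
  exact h

theorem REP_ext (g m : H) (h : ∀ p q : ℝ, (p ≠ 0 ∨ q ≠ 0) → g (cusp p q) = m (cusp p q)) : g = m := by
  ext z
  obtain ⟨p, q, hpq, rfl⟩ := q_FA1.2.1 z
  rw [h p q hpq]

theorem p_REP : Stmt_REP := by
  refine ⟨?_, ?_, ?_, ?_, ?_⟩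
  · intro M hM
    obtain ⟨m, -, hm⟩ := MOF_map q_FA1 q_MEX _ _ _ _ (REP_det hM)
    exact ⟨m, hM, hm⟩
  · intro g
    constructor
    · intro hg
      obtain ⟨α, β, hP⟩ := (Pool.GC.mb1.1 g).1 hg
      have hdet : (α.re + β.re) * (α.re - β.re) - (α.im - β.im) * (-α.im - β.im) = 1 := by
        have := hP.1
        rw [Complex.sq_norm, Complex.sq_norm, Complex.normSq_apply, Complex.normSq_apply] at this
        linarith
      refine ⟨!![α.re + β.re, α.im - β.im; -α.im - β.im, α.re - β.re], ?_, ?_⟩
      · rw [Matrix.det_fin_two]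
        simpa using hdet
      · have e1 : (⟨((α.re + β.re) + (α.re - β.re)) / 2, -((-α.im - β.im) - (α.im - β.im)) / 2⟩ : ℂ) = α := by
          apply Complex.ext
          · show ((α.re + β.re) + (α.re - β.re)) / 2 = α.re
            ring
          · show -((-α.im - β.im) - (α.im - β.im)) / 2 = α.im
            ring
        have e2 : (⟨((α.re + β.re) - (α.re - β.re)) / 2, -((α.im - β.im) + (-α.im - β.im)) / 2⟩ : ℂ) = β := by
          apply Complex.ext
          · show ((α.re + β.re) - (α.re - β.re)) / 2 = β.re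
            ring
          · show -((α.im - β.im) + (-α.im - β.im)) / 2 = β.im
            ring
        have := REP_map _ _ _ _ hdet g (by rw [e1, e2]; exact hP)
        simpa using this
    · rintro ⟨M, hM, hg⟩
      obtain ⟨m, hm, hm'⟩ := MOF_map q_FA1 q_MEX _ _ _ _ (REP_det hM)
      have : g = m := REP_ext g m fun p q hpq => by rw [hg p q hpq, hm' p q hpq]
      rw [this]
      exact hm
  · intro g g' M M' h h'
    refine ⟨by rw [Matrix.det_mul, h.1, h'.1, one_mul], ?_⟩
    intro p q hpq
    have hne := MOF_ne _ _ _ _ p q (REP_det h'.1) hpq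
    show g (g' (cusp p q)) = _
    rw [h'.2 p q hpq, h.2 _ _ hne]
    simp only [Matrix.mul_apply, Fin.sum_univ_two]
    congr 1 <;> ring
  · intro g M h
    have hd := REP_det h.1
    have hd' : M 1 1 * M 0 0 - (-(M 0 1)) * (-(M 1 0)) = 1 := by linarith
    refine ⟨?_, ?_⟩
    · rw [Matrix.adjugate_fin_two, Matrix.det_fin_two]
      simpa using hd'
    · intro p q hpq
      have hne := MOF_ne _ _ _ _ p q hd' hpq
      have e := h.2 _ _ hne
      have e1 : M 0 0 * (M 1 1 * p + -(M 0 1) * q) + M 0 1 * (-(M 1 0) * p + M 0 0 * q) = p := by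
        linear_combination p * hd
      have e2 : M 1 0 * (M 1 1 * p + -(M 0 1) * q) + M 1 1 * (-(M 1 0) * p + M 0 0 * q) = q := by
        linear_combination q * hd
      rw [e1, e2] at e
      have e3 : g⁻¹ (cusp p q) = cusp (M 1 1 * p + -(M 0 1) * q) (-(M 1 0) * p + M 0 0 * q) := by
        rw [← e]
        exact g.symm_apply_apply _
      rw [e3, Matrix.adjugate_fin_two]
      simp
  · intro g M M' h h'
    have hd := REP_det h.1
    have hd' := REP_det h'.1
    have key : ∀ p q : ℝ, (p ≠ 0 ∨ q ≠ 0) →
        (M 0 0 * p + M 0 1 * q) * (M' 1 0 * p + M' 1 1 * q) -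
          (M 1 0 * p + M 1 1 * q) * (M' 0 0 * p + M' 0 1 * q) = 0 := by
      intro p q hpq
      have e := (h.2 p q hpq).symm.trans (h'.2 p q hpq)
      exact (q_FA1.2.2.2.1 _ _ _ _ (MOF_ne _ _ _ _ p q hd hpq) (MOF_ne _ _ _ _ p q hd' hpq)).1 e
    have k1 := key 1 0 (Or.inl one_ne_zero)
    have k2 := key 0 1 (Or.inr one_ne_zero)
    have k3 := key 1 1 (Or.inl one_ne_zero)
    simp only [mul_one, mul_zero, add_zero, zero_add] at k1 k2 k3
    set a := M 0 0 with ha
    set b := M 0 1 with hb
    set c := M 1 0 with hc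
    set d := M 1 1 with hdd
    set a' := M' 0 0 with ha'
    set b' := M' 0 1 with hb'
    set c' := M' 1 0 with hc'
    set d' := M' 1 1 with hdd'
    have l1 : (a' * d - b * c') * a = a' := by linear_combination a' * hd - b * k1
    have l2 : (a' * d - b * c') * c = c' := by linear_combination c' * hd - d * k1
    have l0 : a * d' - c * b' = a' * d - b * c' := by linear_combination k3 - k1 - k2
    have l3 : (a' * d - b * c') * b = b' := by
      rw [← l0]
      linear_combination b' * hd + a * k2
    have l4 : (a' * d - b * c') * d = d' := by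
      rw [← l0]
      linear_combination d' * hd + c * k2
    have hsq : (a' * d - b * c') * (a' * d - b * c') = 1 := by
      have : (a' * d - b * c') * (a' * d - b * c') * (a * d - b * c) =
          ((a' * d - b * c') * a) * ((a' * d - b * c') * d) -
            ((a' * d - b * c') * b) * ((a' * d - b * c') * c) := by ring
      rw [l1, l2, l3, l4] at this
      rw [hd, hd', mul_one] at this
      exact this
    rcases mul_self_eq_one_iff.1 hsq with hl | hl
    · left
      rw [hl] at l1 l2 l3 l4
      ext i j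
      fin_cases i <;> fin_cases j
      · show a' = a
        linarith
      · show b' = b
        linarith
      · show c' = c
        linarith
      · show d' = d
        linarith
    · right
      rw [hl] at l1 l2 l3 l4
      ext i j
      fin_cases i <;> fin_cases j
      · show a' = -a
        linarith
      · show b' = -b
        linarith
      · show c' = -c
        linarith
      · show d' = -d
        linarith

end Pool.FO
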