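import Pool.Agent.Work.MP_ae1ff6_fo.Interface

/-!
Block SHR: the shears of an equivariant map.
-/

open Topology Filter Set
open scoped ComplexConjugate Matrix

set_option autoImplicit false

namespace Pool.FO

open Pool.CG Pool.AR Pool.SH

theorem SHR_pos {p q v w : Circle} (h1 : Ccw p v q) (h2 : Ccw q w p) : 0 < X p q v w := by
  obtain ⟨-, hpv, hvq, -⟩ := q_CYO.2.1 _ _ _ h1
  obtain ⟨-, hqw, hwp, -⟩ := q_CYO.2.1 _ _ _ h2
  have e1 : 0 < dist v p := dist_pos.2 hpv.symm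
  have e2 : 0 < dist w q := dist_pos.2 hqw.symm
  have e3 : 0 < dist v q := dist_pos.2 hvq
  have e4 : 0 < dist w p := dist_pos.2 hwp
  unfold X
  positivity

theorem SHR_symm (p q v w : Circle) : X q p w v = X p q v w := by
  unfold X
  rw [mul_comm (dist w q), mul_comm (dist w p)]

theorem p_SHR (h1 : Pool.SH.Stmt_MXI) (h2 : Stmt_VTX) : Stmt_SHR := by
  intro Γ T D hΓ hT hK hD hn
  classical
  obtain ⟨-, hvx, hthd⟩ := h2 T hT
  refine ⟨fun a => if a ∈ T then
    Real.log (X (D a.1) (D a.2) (D (thd T (a.1, a.2))) (D (thd T (a.2, a.1)))) else 0,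
    ⟨?_, ?_, ?_⟩, ⟨hD, ?_⟩⟩
  · intro p q
    by_cases hpq : (p, q) ∈ T
    · have hqp := hT.symm p q hpq
      rw [if_pos hpq, if_pos hqp]
      show Real.log (X (D p) (D q) (D (thd T (p, q))) (D (thd T (q, p)))) =
        Real.log (X (D q) (D p) (D (thd T (q, p))) (D (thd T (p, q))))
      rw [SHR_symm (D p) (D q)]
    · have hqp : (q, p) ∉ T := fun h => hpq (hT.symm q p h)
      rw [if_neg hpq, if_neg hqp]
  · intro γ hγ p q
    by_cases hpq : (p, q) ∈ T
    · have hqp := hT.symm p q hpq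
      have hγpq : (γ p, γ q) ∈ T := hK γ hγ p q hpq
      rw [if_pos hpq, if_pos hγpq]
      show Real.log (X (D (γ p)) (D (γ q)) (D (thd T (γ p, γ q))) (D (thd T (γ q, γ p)))) =
        Real.log (X (D p) (D q) (D (thd T (p, q))) (D (thd T (q, p))))
      have hOri : Ori γ := q_MOR.1 γ (hΓ.mob γ hγ)
      rw [hthd γ hOri (hK γ hγ) p q hpq, hthd γ hOri (hK γ hγ) q p hqp]
      obtain ⟨n, hnM, hnD⟩ := hn γ hγ
      obtain ⟨hp, hq, hv, -⟩ := hvx p q hpq
      obtain ⟨-, -, hw, -⟩ := hvx q p hqp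
      rw [hnD p hp, hnD q hq, hnD _ hv, hnD _ hw, (h1 n hnM).1]
    · have hγpq : (γ p, γ q) ∉ T := by
        intro h
        apply hpq
        have h3 := hK γ⁻¹ (Γ.inv_mem hγ) _ _ h
        have h4 : ∀ x : Circle, γ⁻¹ (γ x) = x := fun x => γ.symm_apply_apply x
        rw [h4, h4] at h3
        exact h3
      rw [if_neg hpq, if_neg hγpq]
  · intro a ha
    exact if_neg ha
  · intro p q hpq
    have hqp := hT.symm p q hpq
    obtain ⟨hp, hq, hv, hc, -⟩ := hvx p q hpq
    obtain ⟨-, -, hw, hc', -⟩ := hvx q p hqp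
    have hpos := SHR_pos (hD p hp _ hv q hq hc) (hD q hq _ hw p hp hc')
    rw [if_pos hpq]
    show X (D p) (D q) (D (thd T (p, q))) (D (thd T (q, p))) =
      Real.exp (Real.log (X (D p) (D q) (D (thd T (p, q))) (D (thd T (q, p)))))
    rw [Real.exp_log hpos]

end Pool.FO
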