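import Pool.Agent.Work.MP_ae1ff6_fo.Interface

/-!
# MP_ae1ff6_gt, finite order part, block TRB: the triangles of `T` are pieces, second part
-/

open Topology Filter Set
open scoped ComplexConjugate Matrix

set_option autoImplicit false

namespace Pool.FO

open Pool.CG Pool.AR Pool.SH

theorem TRB_dist (r s : ℝ) (h1 : s ≤ r) (h2 : r ≤ s + 2 * Real.pi) :
    dist (Circle.exp r) (Circle.exp s) = 2 * Real.sin ((r - s) / 2) := by
  have h3 : dist (Circle.exp r) (Circle.exp s) =
      ‖Complex.exp (Complex.I * ((r - s : ℝ) : ℂ)) - 1‖ := by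
    have h4 : dist (Circle.exp r) (Circle.exp s) = ‖((Circle.exp r : Circle) : ℂ) - (Circle.exp s : Circle)‖ := by
      rw [← Complex.dist_eq]
      rfl
    have h5 : ((Circle.exp r : Circle) : ℂ) - (Circle.exp s : Circle) =
        ((Circle.exp s : Circle) : ℂ) * (Complex.exp (Complex.I * ((r - s : ℝ) : ℂ)) - 1) := by
      rw [Circle.coe_exp, Circle.coe_exp, mul_sub, mul_one, ← Complex.exp_add]
      congr 2
      push_cast
      ring
    rw [h4, h5, norm_mul, Circle.norm_coe, one_mul]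
  rw [h3, Complex.norm_exp_I_mul_ofReal_sub_one, Real.norm_eq_abs, abs_of_nonneg]
  have h6 : 0 ≤ Real.sin ((r - s) / 2) :=
    Real.sin_nonneg_of_nonneg_of_le_pi (by linarith) (by linarith)
  linarith

/-- two points of a short arc `[s, t]` have distance at most `2 sin ((t - s) / 2)` -/
theorem TRB_short (s t : ℝ) (hts : t - s ≤ Real.pi) (x y : ℝ)
    (hx1 : s ≤ x) (hx2 : x ≤ t) (hy1 : s ≤ y) (hy2 : y ≤ t) :
    dist (Circle.exp x) (Circle.exp y) ≤ 2 * Real.sin ((t - s) / 2) := by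
  have hpi := Real.pi_pos
  rcases le_total x y with h | h
  · rw [dist_comm, TRB_dist y x h (by linarith)]
    have := Real.sin_le_sin_of_le_of_le_pi_div_two (x := (y - x) / 2) (y := (t - s) / 2)
      (by linarith) (by linarith) (by linarith)
    linarith
  · rw [TRB_dist x y h (by linarith)]
    have := Real.sin_le_sin_of_le_of_le_pi_div_two (x := (x - y) / 2) (y := (t - s) / 2)
      (by linarith) (by linarith) (by linarith)
    linarith

/-- real coordinates of the points of an arc -/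
theorem TRB_arc (s t : ℝ) (hst : s < t) (hts : t < s + 2 * Real.pi) (z : Circle)
    (hz : z ∈ Arc (Circle.exp s) (Circle.exp t)) : ∃ x, s ≤ x ∧ x ≤ t ∧ z = Circle.exp x := by
  rcases hz with h | h | h
  · exact ⟨s, le_rfl, hst.le, h⟩
  · exact ⟨t, hst.le, le_rfl, h⟩
  · obtain ⟨r, hr1, hr2, hr⟩ := q_ANG.2.1 s t z hst hts h
    exact ⟨r, hr1.le, hr2.le, hr⟩

theorem TRB_key (p q a b a' b' : Circle) (hpq : p ≠ q) (ha : a ∈ Arc p q) (hb : b ∈ Arc p q)
    (ha' : a' ∈ Arc q p) (hb' : b' ∈ Arc q p) : min (dist a b) (dist a' b') ≤ dist p q := by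
  obtain ⟨s, t, hst, hts, rfl, rfl⟩ := q_ANG.2.2.1 p q hpq
  have hpi := Real.pi_pos
  have hd : dist (Circle.exp s) (Circle.exp t) = 2 * Real.sin ((t - s) / 2) := by
    rw [dist_comm, TRB_dist t s hst.le hts.le]
  rcases le_total (t - s) Real.pi with h | h
  · obtain ⟨x, hx1, hx2, rfl⟩ := TRB_arc s t hst hts a ha
    obtain ⟨y, hy1, hy2, rfl⟩ := TRB_arc s t hst hts b hb
    refine (min_le_left _ _).trans ?_
    rw [hd]
    exact TRB_short s t h x y hx1 hx2 hy1 hy2
  · have hs : Circle.exp s = Circle.exp (s + 2 * Real.pi) := by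
      rw [Circle.exp_add, Circle.exp_two_pi, mul_one]
    rw [hs] at ha' hb'
    obtain ⟨x, hx1, hx2, rfl⟩ := TRB_arc t (s + 2 * Real.pi) hts (by linarith) a' ha'
    obtain ⟨y, hy1, hy2, rfl⟩ := TRB_arc t (s + 2 * Real.pi) hts (by linarith) b' hb'
    refine (min_le_right _ _).trans ?_
    have e1 : 2 * Real.sin ((t - s) / 2) = 2 * Real.sin ((s + 2 * Real.pi - t) / 2) := by
      have : (s + 2 * Real.pi - t) / 2 = Real.pi - (t - s) / 2 := by ring
      rw [this, Real.sin_pi_sub]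
    rw [hd, e1]
    exact TRB_short t (s + 2 * Real.pi) (by linarith) x y hx1 hx2 hy1 hy2

theorem p_TRB : Stmt_TRB := by
  intro T hT P hP P' hP'
  obtain ⟨a, b, c, habc, rfl, -, -, -⟩ := hP
  obtain ⟨a', b', c', habc', rfl, -, -, -⟩ := hP'
  have hab : a ≠ b := (q_CYO.2.1 a b c habc).2.1
  have hab' : a' ≠ b' := (q_CYO.2.1 a' b' c' habc').2.1
  have hε : 0 < min (dist a b) (dist a' b') := lt_min (dist_pos.2 hab) (dist_pos.2 hab')
  refine (hT.fin _ hε).subset ?_
  rintro ⟨p, q⟩ ⟨h1, h2, h3⟩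
  refine ⟨h1, ?_⟩
  exact TRB_key p q a b a' b' (hT.ne p q h1) (h2 (by simp)) (h2 (by simp)) (h3 (by simp))
    (h3 (by simp))

end Pool.FO
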