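import Pool.Agent.Work.MP_ae1ff6_fo.Interface

/-! # Block TRC: the trace of a closed path -/

open Topology Filter Set
open scoped ComplexConjugate Matrix

set_option autoImplicit false

namespace Pool.FO

open Pool.CG Pool.AR Pool.SH

theorem TRC_mul (g g' : H) (hg : IsMob g) (hg' : IsMob g') : IsMob (g * g') := by
  obtain ⟨α, β, h⟩ := (Pool.GC.mb1.1 g).1 hg
  obtain ⟨α', β', h'⟩ := (Pool.GC.mb1.1 g').1 hg'
  exact (Pool.GC.mb1.1 _).2 ⟨_, _, Pool.GC.mb2.1 g g' α β α' β' h h'⟩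

theorem TRC_inv (g : H) (hg : IsMob g) : IsMob g⁻¹ := by
  obtain ⟨α, β, h⟩ := (Pool.GC.mb1.1 g).1 hg
  exact (Pool.GC.mb1.1 _).2 ⟨_, _, Pool.GC.mb2.2.1 g α β h⟩

theorem TRC_Mat (b : Bool) (s : ℝ) (i j : Fin 2) : 0 ≤ Mat b s i j := by
  have h1 := (Real.exp_pos (s / 2)).le
  have h2 := (Real.exp_pos (-(s / 2))).le
  cases b <;> fin_cases i <;> fin_cases j <;> simp [Mat, h1, h2]

theorem TRC_W (T : Set (Circle × Circle)) (z : Ed) (l : List Bool) :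
    ∀ (e : Circle × Circle) (i j : Fin 2), 0 ≤ W T z l e i j := by
  induction l with
  | nil =>
    intro e i j
    show 0 ≤ (1 : Matrix (Fin 2) (Fin 2) ℝ) i j
    rw [Matrix.one_apply]
    split_ifs <;> norm_num
  | cons b l ih =>
    intro e i j
    show 0 ≤ (Mat b (z (ed T [b] e)) * W T z l (ed T [b] e)) i j
    rw [Matrix.mul_apply]
    exact Finset.sum_nonneg fun k _ => mul_nonneg (TRC_Mat _ _ _ _) (ih _ _ _)

theorem p_TRC (h1 : Stmt_VTX) (h2 : Stmt_DEV) (h3 : Stmt_MTR) (h4 : Stmt_FRT) (h5 : Stmt_TRD) :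
    Stmt_TRC := by
  intro Γ T z hΓ hT hK hz γ hγ l e he hed
  obtain ⟨d, hd⟩ := h2.1 T z hT hz.symm
  obtain ⟨t1, t2, _, _⟩ := h5 Γ T z hΓ hT hK hz
  obtain ⟨n, hn, hnd⟩ := t1 γ hγ d hd
  obtain ⟨F, hF⟩ := h4.1 T z d hT hd e he
  obtain ⟨_, hv, ht⟩ := h1 T hT
  obtain ⟨he1, he2, he3, _⟩ := hv e.1 e.2 he
  have hFr : Fr T d (ed T l e) (n * F) := by
    rw [hed]
    refine ⟨TRC_mul _ _ hn hF.mob, ?_, ?_, ?_⟩
    · show n (F (cusp 0 1)) = d (γ e.1)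
      rw [hF.fst, hnd e.1 he1]
    · show n (F (cusp 1 1)) = d (thd T (γ e.1, γ e.2))
      rw [hF.mid, ht γ (q_MOR.1 γ (hΓ.mob γ hγ)) (hK γ hγ) e.1 e.2 he]
      exact (hnd _ he3).symm
    · show n (F (cusp 1 0)) = d (γ e.2)
      rw [hF.snd, hnd e.2 he2]
  have hR := h4.2 T z d hT hd l e F (n * F) he hF hFr
  have htr : tr T z γ = mtr n := t2 γ hγ d n hd hn hnd
  have hconj := h3.2.1 n F⁻¹ hn (TRC_inv F hF.mob)
  have hmtr := h3.1 _ _ hR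
  rw [inv_inv, mul_assoc] at hconj
  rw [htr, ← hconj, hmtr, abs_of_nonneg]
  rw [Matrix.trace_fin_two]
  exact add_nonneg (TRC_W _ _ _ _ _ _) (TRC_W _ _ _ _ _ _)

end Pool.FO
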