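import Pool.Agent.Work.MP_ae1ff6_fo.Interface

/-!
# Mapping classes of finite order (MP_ae1ff6_gt): block TRD (the representation with given shears)
-/

open Topology Filter Set
open scoped ComplexConjugate Matrix

set_option autoImplicit false

namespace Pool.FO

open Pool.CG Pool.AR Pool.SH

theorem TRD_mul (g h : H) (hg : IsMob g) (hh : IsMob h) : IsMob (g * h) := by
  obtain ⟨α, β, h1⟩ := (Pool.GC.mb1.1 g).1 hg
  obtain ⟨α', β', h2⟩ := (Pool.GC.mb1.1 h).1 hh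
  exact (Pool.GC.mb1.1 _).2 ⟨_, _, Pool.GC.mb2.1 g h α β α' β' h1 h2⟩

theorem TRD_inv (g : H) (hg : IsMob g) : IsMob g⁻¹ := by
  obtain ⟨α, β, h1⟩ := (Pool.GC.mb1.1 g).1 hg
  exact (Pool.GC.mb1.1 _).2 ⟨_, _, Pool.GC.mb2.2.1 g α β h1⟩

theorem TRD_app (g h : H) (x : Circle) : (g * h) x = g (h x) := rfl

theorem TRD_inv_app (g : H) (x y : Circle) (h : g x = y) : g⁻¹ y = x := by
  rw [← h]
  exact g.symm_apply_apply x

theorem TRD_app_inv (g : H) (x : Circle) : g (g⁻¹ x) = x := g.apply_symm_apply x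

theorem TRD_vx (Γ : Subgroup H) (T : Set (Circle × Circle)) (hK : Keeps Γ T) (γ : H) (hγ : γ ∈ Γ)
    (x : Circle) (hx : x ∈ Vx T) : γ x ∈ Vx T := by
  obtain ⟨y, hy⟩ := hx
  exact ⟨γ y, hK γ hγ x y hy⟩

theorem TRD_dev (hVTX : Stmt_VTX) (Γ : Subgroup H) (T : Set (Circle × Circle)) (z : Ed)
    (hΓ : FirstKind Γ) (hT : Tri T) (hK : Keeps Γ T) (hz : Shf Γ T z) (γ : H) (hγ : γ ∈ Γ)
    (d : Circle → Circle) (hd : Dev T z d) : Dev T z (fun x => d (γ x)) := by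
  have hori : Ori γ := q_MOR.1 γ (hΓ.mob γ hγ)
  have hthd := (hVTX T hT).2.2 γ hori (hK γ hγ)
  refine ⟨?_, ?_⟩
  · intro a ha b hb c hc habc
    exact hd.cy _ (TRD_vx Γ T hK γ hγ a ha) _ (TRD_vx Γ T hK γ hγ b hb) _
      (TRD_vx Γ T hK γ hγ c hc) (hori a b c habc)
  · intro p q hpq
    have h1 := hd.sh (γ p) (γ q) (hK γ hγ p q hpq)
    rw [hthd p q hpq, hthd q p (hT.symm p q hpq), hz.keep γ hγ p q] at h1
    exact h1

/-- two Möbius maps which agree on the image of a developing map are equal -/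
theorem TRD_uniq (hVTX : Stmt_VTX) (T : Set (Circle × Circle)) (z : Ed) (hT : Tri T)
    (d : Circle → Circle) (hd : Dev T z d) (m n : H) (hm : IsMob m) (hn : IsMob n)
    (h : ∀ x ∈ Vx T, m (d x) = n (d x)) : m = n := by
  obtain ⟨⟨p, q⟩, hpq⟩ := hT.nonempty
  obtain ⟨hp, hq, hv, hc, -, -, -⟩ := (hVTX T hT).2.1 p q hpq
  have hc' := hd.cy _ hp _ hv _ hq hc
  obtain ⟨-, n1, n2, n3⟩ := q_CYO.2.1 _ _ _ hc'
  have hfix : ∀ x ∈ Vx T, (n⁻¹ * m) (d x) = d x := by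
    intro x hx
    rw [TRD_app]
    exact TRD_inv_app n _ _ (h x hx).symm
  have h1 : n⁻¹ * m = 1 := Pool.GC.mb3 _ (TRD_mul _ _ (TRD_inv n hn) hm) _ _ _ n1 n2 n3
    (hfix _ hp) (hfix _ hv) (hfix _ hq)
  exact (inv_mul_eq_one.1 h1).symm

theorem p_TRD (hVTX : Stmt_VTX) (hDEV : Stmt_DEV) (hMTR : Stmt_MTR) : Stmt_TRD := by
  intro Γ T z hΓ hT hK hz
  have P1 : ∀ γ ∈ Γ, ∀ d, Dev T z d → ∃ n : H, IsMob n ∧ ∀ x ∈ Vx T, d (γ x) = n (d x) := by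
    intro γ hγ d hd
    exact hDEV.2 T z d (fun x => d (γ x)) hT hd (TRD_dev hVTX Γ T z hΓ hT hK hz γ hγ d hd)
  have P2 : ∀ γ ∈ Γ, ∀ (d : Circle → Circle) (n : H), Dev T z d → IsMob n →
      (∀ x ∈ Vx T, d (γ x) = n (d x)) → tr T z γ = mtr n := by
    intro γ hγ d n hd hn hdn
    have h : ∃ n : H, IsMob n ∧ ∃ d, Dev T z d ∧ ∀ x ∈ Vx T, d (γ x) = n (d x) :=
      ⟨n, hn, d, hd, hdn⟩
    unfold tr
    rw [dif_pos h]
    obtain ⟨hn', d', hd', hdn'⟩ := h.choose_spec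
    obtain ⟨k, hk, hkd⟩ := hDEV.2 T z d d' hT hd hd'
    have h1 : h.choose * k = k * n := by
      refine TRD_uniq hVTX T z hT d hd _ _ (TRD_mul _ _ hn' hk) (TRD_mul _ _ hk hn) ?_
      intro x hx
      rw [TRD_app, TRD_app, ← hkd x hx, ← hdn' x hx, ← hdn x hx,
        hkd _ (TRD_vx Γ T hK γ hγ x hx)]
    have h2 : h.choose = k * n * k⁻¹ := by
      rw [← h1, mul_inv_cancel_right]
    rw [h2]
    exact hMTR.2.1 n k hn hk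
  obtain ⟨d, hd⟩ := hDEV.1 T z hT hz.symm
  refine ⟨P1, P2, ?_, ?_⟩
  · intro γ hγ κ hκ
    obtain ⟨n₁, hn₁, h1⟩ := P1 γ hγ d hd
    obtain ⟨n₂, hn₂, h2⟩ := P1 κ hκ d hd
    have hm : IsMob (n₂ * n₁ * n₂⁻¹) := TRD_mul _ _ (TRD_mul _ _ hn₂ hn₁) (TRD_inv _ hn₂)
    have e1 : tr T z (κ * γ * κ⁻¹) = mtr (n₂ * n₁ * n₂⁻¹) := by
      refine P2 _ (Γ.mul_mem (Γ.mul_mem hκ hγ) (Γ.inv_mem hκ)) d _ hd hm ?_
      intro x hx
      have hx' : κ⁻¹ x ∈ Vx T := TRD_vx Γ T hK κ⁻¹ (Γ.inv_mem hκ) x hx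
      have h3 : n₂ (d (κ⁻¹ x)) = d x := by
        rw [← h2 _ hx', TRD_app_inv]
      rw [TRD_app, TRD_app, TRD_app, TRD_app, h2 _ (TRD_vx Γ T hK γ hγ _ hx'), h1 _ hx',
        TRD_inv_app n₂ _ _ h3]
    rw [e1, hMTR.2.1 n₁ n₂ hn₁ hn₂, P2 γ hγ d n₁ hd hn₁ h1]
  · intro γ hγ
    obtain ⟨n₁, hn₁, h1⟩ := P1 γ hγ d hd
    have e1 : tr T z γ⁻¹ = mtr n₁⁻¹ := by
      refine P2 _ (Γ.inv_mem hγ) d _ hd (TRD_inv _ hn₁) ?_
      intro x hx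
      have hx' : γ⁻¹ x ∈ Vx T := TRD_vx Γ T hK γ⁻¹ (Γ.inv_mem hγ) x hx
      have h3 : n₁ (d (γ⁻¹ x)) = d x := by
        rw [← h1 _ hx', TRD_app_inv]
      rw [TRD_inv_app n₁ _ _ h3]
    rw [e1, hMTR.2.2 n₁ hn₁, P2 γ hγ d n₁ hd hn₁ h1]

end Pool.FO
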