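import Pool.Agent.Work.MP_ae1ff6_fo.Interface

/-!
# MP_ae1ff6_gt, block TRP: the triangles of an ideal triangulation are pieces
-/

open Topology Filter Set
open scoped ComplexConjugate Matrix

set_option autoImplicit false

namespace Pool.FO

open Pool.CG Pool.AR Pool.SH

theorem p_TRP (h1 : Stmt_TRA) (h2 : Stmt_TRB) : Stmt_TRP := by
  intro T hT
  obtain ⟨hunl, hside, hsep⟩ := h1 T hT
  have hfin := h2 T hT
  refine ⟨⟨hT.symm, hT.ne, ?_, hunl, hside, hsep, hfin⟩, ?_, ?_, ?_⟩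
  · rintro P ⟨a, b, c, habc, rfl, -, -, -⟩
    exact ⟨a, Or.inl rfl, b, Or.inr (Or.inl rfl), c, Or.inr (Or.inr rfl), habc⟩
  · rintro P ⟨a, b, c, habc, hP, -, -, -⟩
    exact ⟨a, b, c, habc, hP⟩
  · obtain ⟨⟨x, y⟩, hxy⟩ := hT.nonempty
    obtain ⟨P, hP, -⟩ := hside x y hxy
    exact ⟨P, hP⟩
  · ext x
    constructor
    · rintro ⟨P, ⟨a, b, c, -, rfl, hab, hbc, hca⟩, hx⟩
      rcases hx with rfl | rfl | rfl
      · exact ⟨b, hab⟩
      · exact ⟨c, hbc⟩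
      · exact ⟨a, hca⟩
    · rintro ⟨y, hxy⟩
      obtain ⟨P, hP, hxP, -⟩ := hside x y hxy
      exact ⟨P, hP, hxP⟩

end Pool.FO
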