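import Pool.Agent.Work.MP_ae1ff6_fo.Interface

/-!
# MP_ae1ff6_gt, block VTX: the vertices of an ideal triangulation
-/

open Topology Filter Set
open scoped ComplexConjugate Matrix

set_option autoImplicit false

namespace Pool.FO

open Pool.CG Pool.AR Pool.SH

/-- between two points of the arc of an edge there is a vertex -/
theorem VTX_half {T : Set (Circle × Circle)} (hT : Tri T) {s t : ℝ} (hst : s < t)
    (ht : t < s + 2 * Real.pi) (he : (Circle.exp s, Circle.exp t) ∈ T) {u v : ℝ} (hu : s ≤ u)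
    (huv : u < v) (hv : v ≤ t) : ∃ r, u < r ∧ r < v ∧ Circle.exp r ∈ Vx T := by
  obtain ⟨w, r, h1, h2, h3, -⟩ := q_PT3 T hT s t hst ht he u v hu huv hv
  obtain ⟨-, -, -, -, h5⟩ := q_PT1 T hT w _ he
  rw [h3] at h5
  exact ⟨r, h1, h2, ⟨_, h5⟩⟩

theorem VTX_dense {T : Set (Circle × Circle)} (hT : Tri T) : Dense (Vx T) := by
  obtain ⟨⟨a, b⟩, hab⟩ := hT.nonempty
  obtain ⟨s, t, hst, ht, rfl, rfl⟩ := q_ANG.2.2.1 a b (hT.ne _ _ hab)
  have hba : (Circle.exp t, Circle.exp (s + 2 * Real.pi)) ∈ T := by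
    rw [Circle.exp_add_two_pi]
    exact hT.symm _ _ hab
  obtain ⟨θ, hθ, -, -⟩ := q_CUT s
  rw [dense_iff_inter_open]
  rintro U hU ⟨z, hz⟩
  obtain ⟨h1, h2, h3⟩ := hθ z
  have hopen : IsOpen (Circle.exp ⁻¹' U) := hU.preimage Circle.exp.continuous
  have hmem : θ z ∈ Circle.exp ⁻¹' U := by
    show Circle.exp (θ z) ∈ U
    rw [h3]; exact hz
  obtain ⟨δ, hδ, hball⟩ := Metric.isOpen_iff.mp hopen _ hmem
  have key : ∀ r, θ z < r → r < θ z + δ → Circle.exp r ∈ U := by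
    intro r hr1 hr2
    apply hball
    rw [Metric.mem_ball, Real.dist_eq, abs_lt]
    constructor <;> linarith
  rcases lt_or_ge (θ z) t with hlt | hge
  · obtain ⟨r, hr1, hr2, hr3⟩ := VTX_half hT hst ht hab (u := θ z) (v := min (θ z + δ) t) h1
      (lt_min (by linarith) hlt) (min_le_right _ _)
    exact ⟨_, key r hr1 (lt_of_lt_of_le hr2 (min_le_left _ _)), hr3⟩
  · obtain ⟨r, hr1, hr2, hr3⟩ := VTX_half hT ht (by linarith) hba (u := θ z)
      (v := min (θ z + δ) (s + 2 * Real.pi)) hge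
      (lt_min (by linarith) h2) (min_le_right _ _)
    exact ⟨_, key r hr1 (lt_of_lt_of_le hr2 (min_le_left _ _)), hr3⟩

theorem VTX_thd {T : Set (Circle × Circle)} (hT : Tri T) (p q : Circle) (h : (p, q) ∈ T) :
    p ∈ Vx T ∧ q ∈ Vx T ∧ thd T (p, q) ∈ Vx T ∧ Ccw p (thd T (p, q)) q ∧
      (p, thd T (p, q)) ∈ T ∧ (thd T (p, q), q) ∈ T ∧
      ∀ v, Ccw p v q → (p, v) ∈ T → (v, q) ∈ T → v = thd T (p, q) := by
  obtain ⟨-, h1, -, h2, h3⟩ := q_PT1 T hT [] (p, q) h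
  have h1' : Ccw p (thd T (p, q)) q := h1
  have h2' : (p, thd T (p, q)) ∈ T := h2
  have h3' : (thd T (p, q), q) ∈ T := h3
  exact ⟨⟨q, h⟩, ⟨p, hT.symm _ _ h⟩, ⟨q, h3'⟩, h1', h2', h3', fun v hv hpv hvq =>
    q_UNQ T hT p q v (thd T (p, q)) hv h1' hpv hvq h2' h3'⟩

theorem p_VTX : Stmt_VTX := by
  intro T hT
  refine ⟨VTX_dense hT, VTX_thd hT, ?_⟩
  intro g hg hgT p q hpq
  obtain ⟨-, -, -, h1, h2, h3, -⟩ := VTX_thd hT p q hpq
  obtain ⟨-, -, -, -, -, -, h4⟩ := VTX_thd hT (g p) (g q) (hgT _ _ hpq)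
  exact (h4 (g (thd T (p, q))) (hg _ _ _ h1) (hgT _ _ h2) (hgT _ _ h3)).symm

end Pool.FO
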