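import Pool.Agent.Work.MP_ae1ff6_fo.Interface

open Topology Filter Set
open scoped ComplexConjugate Matrix

set_option autoImplicit false

namespace Pool.FO

open Pool.CG Pool.AR Pool.SH

theorem p_WES (h1 : Stmt_ESB) : Stmt_WES := by
  obtain ⟨e0, e1, e2, e3, e4, e5⟩ := h1
  intro T l
  induction l with
  | nil =>
    intro e
    refine ⟨0, fun _ _ _ => 0, fun _ _ => e0, fun z => ?_⟩
    simp [W]
  | cons b l ih =>
    intro e
    obtain ⟨S', G', hG, hW⟩ := ih (ed T [b] e)
    set e' := ed T [b] e with he'
    let P : Ed →L[ℝ] ℝ := (1 / 2 : ℝ) • ContinuousLinearMap.proj e'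
    have hP : ∀ z : Ed, P z = z e' / 2 := by
      intro z
      change (1 / 2 : ℝ) • (z e') = z e' / 2
      rw [smul_eq_mul]; ring
    have hEP : ES fun z => Real.exp (z e' / 2) := by
      have := e1 P
      simpa [hP] using this
    have hEN : ES fun z => Real.exp (-(z e' / 2)) := by
      have := e1 (-P)
      have h : ∀ z : Ed, (-P) z = -(z e' / 2) := fun z => by
        rw [ContinuousLinearMap.neg_apply, hP]
      simpa [h] using this
    have hSP : ES fun z => Real.exp (S' z) := e1 S'
    have hSN : ES fun z => Real.exp (-(S' z)) := by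
      have := e1 (-S')
      simpa using this
    have hX : ∀ z : Ed, Real.exp ((S' + P) z) = Real.exp (z e' / 2) * Real.exp (S' z) := by
      intro z
      rw [← Real.exp_add, ContinuousLinearMap.add_apply, hP]
      congr 1; ring
    have hY : ∀ z : Ed, Real.exp (-((S' + P) z)) =
        Real.exp (-(z e' / 2)) * Real.exp (-(S' z)) := by
      intro z
      rw [← Real.exp_add, ContinuousLinearMap.add_apply, hP]
      congr 1; ring
    cases b with
    | false =>
      refine ⟨S' + P, fun i j => if i = 0 then (if j = 0 then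
          (fun z => Real.exp (z e' / 2) * G' 0 0 z) else
          (fun z => Real.exp (z e' / 2) * G' 0 1 z)) else (if j = 0 then
          (fun z => (Real.exp (z e' / 2) * Real.exp (S' z) + Real.exp (z e' / 2) * G' 0 0 z) +
            Real.exp (-(z e' / 2)) * G' 1 0 z) else
          (fun z => Real.exp (z e' / 2) * G' 0 1 z + Real.exp (-(z e' / 2)) * G' 1 1 z)), ?_, ?_⟩
      · intro i j
        fin_cases i <;> fin_cases j
        · exact e3 _ _ hEP (hG 0 0)
        · exact e3 _ _ hEP (hG 0 1)
        · exact e2 _ _ (e2 _ _ (e3 _ _ hEP hSP) (e3 _ _ hEP (hG 0 0))) (e3 _ _ hEN (hG 1 0))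
        · exact e2 _ _ (e3 _ _ hEP (hG 0 1)) (e3 _ _ hEN (hG 1 1))
      · intro z
        obtain ⟨w00, w11, w01, w10⟩ := hW z
        have hU : W T z (false :: l) e = Mat false (z e') * W T z l e' := rfl
        rw [hU]
        simp only [Mat, Matrix.mul_apply, Fin.sum_univ_two, Matrix.of_apply, Matrix.cons_val_zero,
          Matrix.cons_val_one, Matrix.cons_val', Matrix.cons_val_fin_one, w00, w11, w01, w10, hX, hY,
          if_true, one_ne_zero, if_false]
        refine ⟨?_, ?_, ?_, ?_⟩ <;> ring
    | true =>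
      refine ⟨S' + P, fun i j => if i = 0 then (if j = 0 then
          (fun z => Real.exp (z e' / 2) * G' 0 0 z + Real.exp (-(z e' / 2)) * G' 1 0 z) else
          (fun z => Real.exp (z e' / 2) * G' 0 1 z +
            (Real.exp (-(z e' / 2)) * Real.exp (-(S' z)) + Real.exp (-(z e' / 2)) * G' 1 1 z)))
          else (if j = 0 then
          (fun z => Real.exp (-(z e' / 2)) * G' 1 0 z) else
          (fun z => Real.exp (-(z e' / 2)) * G' 1 1 z)), ?_, ?_⟩
      · intro i j
        fin_cases i <;> fin_cases j
        · exact e2 _ _ (e3 _ _ hEP (hG 0 0)) (e3 _ _ hEN (hG 1 0))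
        · exact e2 _ _ (e3 _ _ hEP (hG 0 1)) (e2 _ _ (e3 _ _ hEN hSN) (e3 _ _ hEN (hG 1 1)))
        · exact e3 _ _ hEN (hG 1 0)
        · exact e3 _ _ hEN (hG 1 1)
      · intro z
        obtain ⟨w00, w11, w01, w10⟩ := hW z
        have hU : W T z (true :: l) e = Mat true (z e') * W T z l e' := rfl
        rw [hU]
        simp only [Mat, Matrix.mul_apply, Fin.sum_univ_two, Matrix.of_apply, Matrix.cons_val_zero,
          Matrix.cons_val_one, Matrix.cons_val', Matrix.cons_val_fin_one, w00, w11, w01, w10, hX, hY,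
          if_true, one_ne_zero, if_false]
        refine ⟨?_, ?_, ?_, ?_⟩ <;> ring

end Pool.FO
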