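import Pool.Agent.Work.MP_ae1ff6_fo.Interface

open Topology Filter Set
open scoped ComplexConjugate Matrix

set_option autoImplicit false

namespace Pool.FO

open Pool.CG Pool.AR Pool.SH

theorem p_WLT (h1 : Stmt_ESB) (h2 : Stmt_WES) : Stmt_WLT := by
  obtain ⟨e0, e1, e2, e3, e4, e5⟩ := h1
  intro T l e
  refine ⟨?_, ?_, ?_⟩
  · obtain ⟨S, G, hG, hW⟩ := h2 T l e
    have hSN : ES fun z => Real.exp (-(S z)) := by
      have := e1 (-S)
      simpa using this
    refine ⟨fun z => (Real.exp (S z) + G 0 0 z) + (Real.exp (-(S z)) + G 1 1 z),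
      e2 _ _ (e2 _ _ (e1 S) (hG 0 0)) (e2 _ _ hSN (hG 1 1)), fun z => ?_⟩
    rw [Matrix.trace_fin_two, (hW z).1, (hW z).2.1]
  · obtain ⟨S', G', hG, hW⟩ := h2 T l (ed T [false, true] e)
    set p := ed T [false] e with hp
    set q := ed T [false, true] e with hq
    let P : Ed →L[ℝ] ℝ := (1 / 2 : ℝ) • ContinuousLinearMap.proj p
    have hP : ∀ z : Ed, P z = z p / 2 := by
      intro z
      change (1 / 2 : ℝ) • (z p) = z p / 2
      rw [smul_eq_mul]; ring
    let Q : Ed →L[ℝ] ℝ := (1 / 2 : ℝ) • ContinuousLinearMap.proj q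
    have hQ : ∀ z : Ed, Q z = z q / 2 := by
      intro z
      change (1 / 2 : ℝ) • (z q) = z q / 2
      rw [smul_eq_mul]; ring
    -- a b, a / b, 1 / (a b)
    have hab : ES fun z => Real.exp (z p / 2) * Real.exp (z q / 2) := by
      have := e3 _ _ (e1 P) (e1 Q)
      simpa only [hP, hQ] using this
    have haib : ES fun z => Real.exp (z p / 2) * Real.exp (-(z q / 2)) := by
      have := e3 _ _ (e1 P) (e1 (-Q))
      simpa only [hP, hQ, ContinuousLinearMap.neg_apply] using this
    have hiab : ES fun z => Real.exp (-(z p / 2)) * Real.exp (-(z q / 2)) := by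
      have := e3 _ _ (e1 (-P)) (e1 (-Q))
      simpa only [hP, hQ, ContinuousLinearMap.neg_apply] using this
    have hSN : ES fun z => Real.exp (-(S' z)) := by
      have := e1 (-S')
      simpa using this
    refine ⟨S' + P + Q, fun z =>
      ((Real.exp (z p / 2) * Real.exp (z q / 2)) * G' 0 0 z +
        (Real.exp (z p / 2) * Real.exp (-(z q / 2))) * G' 1 0 z) +
      ((Real.exp (z p / 2) * Real.exp (z q / 2)) * G' 0 1 z +
        (((Real.exp (z p / 2) * Real.exp (-(z q / 2))) * G' 1 1 z) +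
         (Real.exp (-(z p / 2)) * Real.exp (-(z q / 2))) * (Real.exp (-(S' z)) + G' 1 1 z))),
      e2 _ _ (e2 _ _ (e3 _ _ hab (hG 0 0)) (e3 _ _ haib (hG 1 0)))
        (e2 _ _ (e3 _ _ hab (hG 0 1)) (e2 _ _ (e3 _ _ haib (hG 1 1))
          (e3 _ _ hiab (e2 _ _ hSN (hG 1 1))))), fun z => ?_⟩
    obtain ⟨w00, w11, w01, w10⟩ := hW z
    have hU : W T z (false :: true :: l) e = Mat false (z p) * (Mat true (z q) * W T z l q) := rfl
    have hX : Real.exp ((S' + P + Q) z) =
        Real.exp (z p / 2) * Real.exp (z q / 2) * Real.exp (S' z) := by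
      rw [← Real.exp_add, ← Real.exp_add, ContinuousLinearMap.add_apply,
        ContinuousLinearMap.add_apply, hP, hQ]
      congr 1; ring
    have hY : Real.exp (z p - (S' + P + Q) z) =
        Real.exp (z p / 2) * Real.exp (-(z q / 2)) * Real.exp (-(S' z)) := by
      rw [← Real.exp_add, ← Real.exp_add, ContinuousLinearMap.add_apply,
        ContinuousLinearMap.add_apply, hP, hQ]
      congr 1; ring
    rw [hU, hX, hY, Matrix.trace_fin_two]
    simp only [Mat, Matrix.mul_apply, Fin.sum_univ_two, Matrix.of_apply, Matrix.cons_val_zero,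
      Matrix.cons_val_one, Matrix.cons_val', Matrix.cons_val_fin_one, w00, w11, w01, w10]
    ring
  · obtain ⟨S', G', hG, hW⟩ := h2 T l (ed T [true, false] e)
    set p := ed T [true] e with hp
    set q := ed T [true, false] e with hq
    let P : Ed →L[ℝ] ℝ := (1 / 2 : ℝ) • ContinuousLinearMap.proj p
    have hP : ∀ z : Ed, P z = z p / 2 := by
      intro z
      change (1 / 2 : ℝ) • (z p) = z p / 2
      rw [smul_eq_mul]; ring
    let Q : Ed →L[ℝ] ℝ := (1 / 2 : ℝ) • ContinuousLinearMap.proj q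
    have hQ : ∀ z : Ed, Q z = z q / 2 := by
      intro z
      change (1 / 2 : ℝ) • (z q) = z q / 2
      rw [smul_eq_mul]; ring
    have hab : ES fun z => Real.exp (z p / 2) * Real.exp (z q / 2) := by
      have := e3 _ _ (e1 P) (e1 Q)
      simpa only [hP, hQ] using this
    have hiab' : ES fun z => Real.exp (-(z p / 2)) * Real.exp (z q / 2) := by
      have := e3 _ _ (e1 (-P)) (e1 Q)
      simpa only [hP, hQ, ContinuousLinearMap.neg_apply] using this
    have hiab : ES fun z => Real.exp (-(z p / 2)) * Real.exp (-(z q / 2)) := by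
      have := e3 _ _ (e1 (-P)) (e1 (-Q))
      simpa only [hP, hQ, ContinuousLinearMap.neg_apply] using this
    have hSN : ES fun z => Real.exp (-(S' z)) := by
      have := e1 (-S')
      simpa using this
    refine ⟨-(S' + P + Q), fun z =>
      ((Real.exp (z p / 2) * Real.exp (z q / 2)) * (Real.exp (S' z) + G' 0 0 z) +
        (Real.exp (-(z p / 2)) * Real.exp (z q / 2)) * G' 0 0 z) +
      ((Real.exp (-(z p / 2)) * Real.exp (-(z q / 2))) * G' 1 0 z +
        ((Real.exp (-(z p / 2)) * Real.exp (z q / 2)) * G' 0 1 z +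
         (Real.exp (-(z p / 2)) * Real.exp (-(z q / 2))) * G' 1 1 z)),
      e2 _ _ (e2 _ _ (e3 _ _ hab (e2 _ _ (e1 S') (hG 0 0))) (e3 _ _ hiab' (hG 0 0)))
        (e2 _ _ (e3 _ _ hiab (hG 1 0)) (e2 _ _ (e3 _ _ hiab' (hG 0 1))
          (e3 _ _ hiab (hG 1 1)))), fun z => ?_⟩
    obtain ⟨w00, w11, w01, w10⟩ := hW z
    have hU : W T z (true :: false :: l) e = Mat true (z p) * (Mat false (z q) * W T z l q) := rfl
    have hX : Real.exp ((-(S' + P + Q)) z) =
        Real.exp (-(z p / 2)) * Real.exp (-(z q / 2)) * Real.exp (-(S' z)) := by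
      rw [← Real.exp_add, ← Real.exp_add,
        ContinuousLinearMap.neg_apply,
        ContinuousLinearMap.add_apply, ContinuousLinearMap.add_apply, hP, hQ]
      congr 1; ring
    have hY : Real.exp (-(z p) - (-(S' + P + Q)) z) =
        Real.exp (-(z p / 2)) * Real.exp (z q / 2) * Real.exp (S' z) := by
      rw [← Real.exp_add, ← Real.exp_add,
        ContinuousLinearMap.neg_apply,
        ContinuousLinearMap.add_apply, ContinuousLinearMap.add_apply, hP, hQ]
      congr 1; ring
    rw [hU, hX, hY, Matrix.trace_fin_two]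
    simp only [Mat, Matrix.mul_apply, Fin.sum_univ_two, Matrix.of_apply, Matrix.cons_val_zero,
      Matrix.cons_val_one, Matrix.cons_val', Matrix.cons_val_fin_one, w00, w11, w01, w10]
    ring

end Pool.FO
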