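import Pool.Agent.Work.MP_ae1ff6_fo.Interface

open Topology Filter Set
open scoped ComplexConjugate Matrix

set_option autoImplicit false

namespace Pool.FO

open Pool.CG Pool.AR Pool.SH

lemma WRD_pos {r s x : Circle} (h1 : x ≠ r) (h2 : x ≠ s) : 0 < R r s x :=
  div_pos (dist_pos.2 h1) (dist_pos.2 h2)

theorem p_WRD (h1 : Stmt_VTX) (h2 : Stmt_RCH) (h3 : Stmt_MON) (h4 : Stmt_DYN) : Stmt_WRD := by
  intro Γ T hG hT hK γ hγ r s hax
  obtain ⟨γ', c, hor, hc, hn⟩ := h4 γ r s (hG.mob γ hγ) hax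
  have hγ' : γ' ∈ Γ := by
    rcases hor with h | h
    · rw [h]; exact hγ
    · rw [h]; exact Γ.inv_mem hγ
  have hR : ∀ x, R r s (γ' x) = c * R r s x := by
    intro x
    have := (hn 1).1 x
    rwa [pow_one, pow_one] at this
  have hax' : Axis γ' r s := by
    have := (hn 1).2 one_pos
    rwa [pow_one] at this
  have hor' : Ori γ' := q_MOR.1 γ' (hG.mob γ' hγ')
  have hr : γ' r = r := (hax'.2 r).2 (Or.inl rfl)
  have hs : γ' s = s := (hax'.2 s).2 (Or.inr rfl)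
  have hkeep := hK γ' hγ'
  refine ⟨γ', hor, ?_⟩
  -- the axis is not an edge
  have hno : (r, s) ∉ T := by
    intro hrs
    obtain ⟨-, hv, hth⟩ := h1 T hT
    have h5 := hth γ' hor' hkeep r s hrs
    rw [hr, hs] at h5
    have h6 := (hv r s hrs).2.2.2.1
    have h7 := q_CYO.2.1 _ _ _ h6
    rcases (hax'.2 (thd T (r, s))).1 h5.symm with h | h
    · exact h7.2.1 h.symm
    · exact h7.2.2.1 h
  obtain ⟨z, w, hzw, ha, hb⟩ : ∃ z w, (z, w) ∈ T ∧ Ccw z s w ∧ Ccw w r z := by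
    rcases q_DCH T hT r s hax.1 with h | ⟨z, w, hzw, hl⟩
    · exact absurd h hno
    · rcases (q_LKC z w r s).1 hl with ⟨ha, hb⟩ | ⟨ha, hb⟩
      · exact ⟨w, z, hT.symm z w hzw, hb, ha⟩
      · exact ⟨z, w, hzw, ha, hb⟩
  have rot := q_CYO.1
  have hb' : Ccw z w r := rot _ _ _ (rot _ _ _ hb)
  obtain ⟨hc1, hc2⟩ := q_CYO.2.2.2 z s w r ha hb'
  have hrzs : Ccw r z s := rot _ _ _ (rot _ _ _ hc1)
  have hrus : Ccw r (γ' z) s := by
    have := hor' _ _ _ hrzs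
    rwa [hr, hs] at this
  have hsvr : Ccw s (γ' w) r := by
    have := hor' _ _ _ hc2
    rwa [hr, hs] at this
  have hz := q_CYO.2.1 _ _ _ hrzs
  have hw := q_CYO.2.1 _ _ _ hc2
  have hzu : R r s z < R r s (γ' z) := by
    rw [hR]
    exact lt_mul_of_one_lt_left (WRD_pos hz.2.1.symm hz.2.2.1) hc
  have hwv : R r s w < R r s (γ' w) := by
    rw [hR]
    exact lt_mul_of_one_lt_left (WRD_pos hw.2.2.1 hw.2.1.symm) hc
  obtain ⟨h8, h9⟩ := h3.2.2 r s z w (γ' z) (γ' w) hrzs hrus hc2 hsvr hzu hwv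
  obtain ⟨l, hl⟩ := h2 T hT z w (γ' z) (γ' w) hzw (hkeep z w hzw) h8 h9
  exact ⟨(z, w), hzw, l, hl⟩

end Pool.FO
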