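import Pool.Agent.Work.MP_ae1ff6_fo.Interface

/-!
# Block XCU: cross ratios of points of the projective line
-/

open Topology Filter Set
open scoped ComplexConjugate Matrix

set_option autoImplicit false

namespace Pool.FO

open Pool.CG Pool.AR Pool.SH

theorem XCU_pos {p q : ℝ} (h : p ≠ 0 ∨ q ≠ 0) : 0 < p ^ 2 + q ^ 2 := by
  rcases h with h | h
  · have := sq_pos_of_ne_zero h
    nlinarith [sq_nonneg q]
  · have := sq_pos_of_ne_zero h
    nlinarith [sq_nonneg p]

/-- the distance of two points -/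
theorem XCU_dist (p q r s : ℝ) (h : p ≠ 0 ∨ q ≠ 0) (h' : r ≠ 0 ∨ s ≠ 0) :
    dist (cusp p q) (cusp r s) =
      2 / (Real.sqrt (p ^ 2 + q ^ 2) * Real.sqrt (r ^ 2 + s ^ 2)) * |p * s - q * r| := by
  have h1 := q_FA1.2.2.2.2.1 p q r s h h'
  have hp := XCU_pos h
  have hr := XCU_pos h'
  have hp1 := Real.sqrt_pos.2 hp
  have hr1 := Real.sqrt_pos.2 hr
  have h2 : (dist (cusp p q) (cusp r s) * (Real.sqrt (p ^ 2 + q ^ 2) * Real.sqrt (r ^ 2 + s ^ 2))) ^ 2
      = (2 * |p * s - q * r|) ^ 2 := by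
    rw [mul_pow, mul_pow, Real.sq_sqrt hp.le, Real.sq_sqrt hr.le, h1, mul_pow, sq_abs]
    ring
  have h3 : dist (cusp p q) (cusp r s) * (Real.sqrt (p ^ 2 + q ^ 2) * Real.sqrt (r ^ 2 + s ^ 2))
      = 2 * |p * s - q * r| := by
    have ha : 0 ≤ dist (cusp p q) (cusp r s) *
        (Real.sqrt (p ^ 2 + q ^ 2) * Real.sqrt (r ^ 2 + s ^ 2)) := by positivity
    have hb : 0 ≤ 2 * |p * s - q * r| := by positivity
    exact (pow_left_inj₀ ha hb two_ne_zero).1 h2
  rw [div_mul_eq_mul_div, eq_div_iff (by positivity), h3]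

theorem p_XCU : Stmt_XCU := by
  intro a b c d u v x y hab hcd huv hxy
  have ha := Real.sqrt_pos.2 (XCU_pos hab)
  have hc := Real.sqrt_pos.2 (XCU_pos hcd)
  have hu := Real.sqrt_pos.2 (XCU_pos huv)
  have hx := Real.sqrt_pos.2 (XCU_pos hxy)
  unfold X
  rw [XCU_dist u v a b huv hab, XCU_dist x y c d hxy hcd, XCU_dist u v c d huv hcd,
    XCU_dist x y a b hxy hab]
  generalize Real.sqrt (a ^ 2 + b ^ 2) = A at *
  generalize Real.sqrt (c ^ 2 + d ^ 2) = C at *
  generalize Real.sqrt (u ^ 2 + v ^ 2) = U at *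
  generalize Real.sqrt (x ^ 2 + y ^ 2) = Y at *
  have e1 : 2 / (U * A) * |u * b - v * a| * (2 / (Y * C) * |x * d - y * c|) =
      4 / (U * A * Y * C) * (|u * b - v * a| * |x * d - y * c|) := by
    field_simp
    ring
  have e2 : 2 / (U * C) * |u * d - v * c| * (2 / (Y * A) * |x * b - y * a|) =
      4 / (U * A * Y * C) * (|u * d - v * c| * |x * b - y * a|) := by
    field_simp
    ring
  rw [e1, e2]
  exact mul_div_mul_left _ _ (by positivity)

end Pool.FO
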