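import Pool.Agent.Work.MP_ae1ff6_fo.B_TRA
import Pool.Agent.Work.MP_ae1ff6_fo.B_TRB
import Pool.Agent.Work.MP_ae1ff6_fo.B_TRP
import Pool.Agent.Work.MP_ae1ff6_fo.B_VTX
import Pool.Agent.Work.MP_ae1ff6_fo.B_DEV
import Pool.Agent.Work.MP_ae1ff6_fo.B_SHR
import Pool.Agent.Work.MP_ae1ff6_fo.B_REP
import Pool.Agent.Work.MP_ae1ff6_fo.B_MTR
import Pool.Agent.Work.MP_ae1ff6_fo.B_XCU
import Pool.Agent.Work.MP_ae1ff6_fo.B_FR1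
import Pool.Agent.Work.MP_ae1ff6_fo.B_FRT
import Pool.Agent.Work.MP_ae1ff6_fo.B_TRD
import Pool.Agent.Work.MP_ae1ff6_fo.B_TRC
import Pool.Agent.Work.MP_ae1ff6_fo.B_ESB
import Pool.Agent.Work.MP_ae1ff6_fo.B_WES
import Pool.Agent.Work.MP_ae1ff6_fo.B_WLT
import Pool.Agent.Work.MP_ae1ff6_fo.B_MIN
import Pool.Agent.Work.MP_ae1ff6_fo.B_RCH
import Pool.Agent.Work.MP_ae1ff6_fo.B_MON
import Pool.Agent.Work.MP_ae1ff6_fo.B_DYN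
import Pool.Agent.Work.MP_ae1ff6_fo.B_WRD
import Pool.Agent.Work.MP_ae1ff6_fo.B_CRV
import Pool.Agent.Work.MP_ae1ff6_fo.B_ESL
import Pool.Agent.Work.MP_ae1ff6_fo.B_LMA
import Pool.Agent.Work.MP_ae1ff6_fo.B_LMB
import Pool.Agent.Work.MP_ae1ff6_fo.B_LMC
import Pool.Agent.Work.MP_ae1ff6_fo.B_LMD
import Pool.Agent.Work.MP_ae1ff6_fo.B_EXT
import Pool.Agent.Work.MP_ae1ff6_fo.B_FUN
import Pool.Agent.Work.MP_ae1ff6_fo.B_UMN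
import Pool.Agent.Work.MP_ae1ff6_fo.B_FNL
import Pool.Agent.Work.MP_ae1ff6_fo.B_FNX
import Pool.Agent.Work.MP_ae1ff6_sh.AllG

/-!
# Mapping classes of finite order realized by isometries (MP_ae1ff6_gt): assembly
-/

set_option autoImplicit false

namespace Pool.FO

theorem q_VTX : Stmt_VTX := p_VTX
theorem q_TRA : Stmt_TRA := p_TRA Pool.SH.q_ARL Pool.SH.q_ARX
theorem q_TRB : Stmt_TRB := p_TRB
theorem q_TRP : Stmt_TRP := p_TRP q_TRA q_TRB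
theorem q_DEV : Stmt_DEV := p_DEV Pool.SH.q_DV1 Pool.SH.q_DU1 q_TRP q_VTX
theorem q_SHR : Stmt_SHR := p_SHR Pool.SH.q_MXI q_VTX
theorem q_REP : Stmt_REP := p_REP
theorem q_MTR : Stmt_MTR := p_MTR q_REP
theorem q_XCU : Stmt_XCU := p_XCU
theorem q_FR1 : Stmt_FR1 := p_FR1 Pool.SH.q_MXI Pool.SH.q_RAT q_VTX q_REP q_XCU
theorem q_FRT : Stmt_FRT := p_FRT Pool.SH.q_TR3 q_VTX q_REP q_FR1
theorem q_TRD : Stmt_TRD := p_TRD q_VTX q_DEV q_MTR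
theorem q_TRC : Stmt_TRC := p_TRC q_VTX q_DEV q_MTR q_FRT q_TRD
theorem q_ESB : Stmt_ESB := p_ESB
theorem q_WES : Stmt_WES := p_WES q_ESB
theorem q_WLT : Stmt_WLT := p_WLT q_ESB q_WES
theorem q_MIN : Stmt_MIN := p_MIN
theorem q_RCH : Stmt_RCH := p_RCH
theorem q_MON : Stmt_MON := p_MON
theorem q_DYN : Stmt_DYN := p_DYN Pool.SH.q_MXI q_MON
theorem q_WRD : Stmt_WRD := p_WRD q_VTX q_RCH q_MON q_DYN
theorem q_CRV : Stmt_CRV := p_CRV q_VTX q_RCH q_MON q_DYN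
theorem q_ESL : Stmt_ESL := p_ESL q_TRD q_TRC q_WLT q_WRD q_CRV
theorem q_LMA : Stmt_LMA := p_LMA
theorem q_LMB : Stmt_LMB := p_LMB q_LMA
theorem q_LMC : Stmt_LMC := p_LMC q_LMA
theorem q_LMD : Stmt_LMD := p_LMD Pool.SH.q_ARL q_LMA
theorem q_EXT : Stmt_EXT := p_EXT q_VTX q_TRD q_LMA q_LMB q_LMC q_LMD
theorem q_FUN : Stmt_FUN := p_FUN q_ESB q_ESL
theorem q_UMN : Stmt_UMN := p_UMN q_TRD q_MIN q_FUN
theorem q_FNL : Stmt_Fin :=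
  p_FNL Pool.SH.q_MBG Pool.SH.q_PIC q_VTX q_DEV q_SHR q_TRD q_LMA q_EXT q_UMN
theorem q_FNX : Stmt_FNX := p_FNX Pool.SH.q_MBG q_VTX q_DEV q_SHR q_TRD q_LMA q_EXT q_UMN

end Pool.FO
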