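import Pool.Agent.Work.MP_ae1ff6_fo.Interface

/-!
# Block DYN (MP_ae1ff6_gt, helper10): dynamics of hyperbolic elements
-/

open Topology Filter Set
open scoped ComplexConjugate Matrix

set_option autoImplicit false

namespace Pool.FO

open Pool.CG Pool.AR Pool.SH

theorem DYN_mulapp (g h : H) (z : Circle) : (g * h) z = g (h z) := rfl

theorem DYN_fixpow (g : H) (z : Circle) (hz : g z = z) : ∀ n : ℕ, (g ^ n) z = z := by
  intro n
  induction n with
  | zero => rfl
  | succ n ih => rw [pow_succ, DYN_mulapp, hz, ih]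

theorem DYN_rpow (g : H) (r s : Circle) (c : ℝ)
    (hR : ∀ x, R r s (g x) = c * R r s x) :
    ∀ n : ℕ, ∀ x, R r s ((g ^ n) x) = c ^ n * R r s x := by
  intro n
  induction n with
  | zero => intro x; simp
  | succ n ih =>
    intro x
    rw [pow_succ, DYN_mulapp, ih, hR, pow_succ]
    ring

theorem DYN_pos (r s x : Circle) (h1 : x ≠ r) (h2 : x ≠ s) : 0 < R r s x := by
  unfold R
  exact div_pos (dist_pos.2 h1) (dist_pos.2 h2)

theorem DYN_main (g : H) (r s : Circle) (c : ℝ) (hrs : r ≠ s) (hr : g r = r) (hs : g s = s)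
    (hc : 1 < c) (hR : ∀ x, R r s (g x) = c * R r s x) :
    ∀ n : ℕ, (∀ x, R r s ((g ^ n) x) = c ^ n * R r s x) ∧ (0 < n → Axis (g ^ n) r s) := by
  intro n
  refine ⟨DYN_rpow g r s c hR n, fun hn => ⟨hrs, fun z => ⟨fun hz => ?_, fun hz => ?_⟩⟩⟩
  · by_contra hcon
    push Not at hcon
    have h0 := DYN_pos r s z hcon.1 hcon.2
    have h1 := DYN_rpow g r s c hR n z
    rw [hz] at h1
    have h2 : 1 < c ^ n := one_lt_pow₀ hc (by omega)
    nlinarith
  · rcases hz with hz | hz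
    · rw [hz]; exact DYN_fixpow g r hr n
    · rw [hz]; exact DYN_fixpow g s hs n

theorem p_DYN (h1 : Pool.SH.Stmt_MXI) (h2 : Stmt_MON) : Stmt_DYN := by
  intro γ r s hγ hax
  have hrs := hax.1
  have hr : γ r = r := (hax.2 r).2 (Or.inl rfl)
  have hs : γ s = s := (hax.2 s).2 (Or.inr rfl)
  obtain ⟨c, hc0, hc⟩ := (h1 γ hγ).2 r s
  have hR : ∀ x, R r s (γ x) = c * R r s x := by
    intro x
    have := hc x
    rw [hr, hs] at this
    exact this
  obtain ⟨x, hx⟩ : ∃ x, Ccw r x s := by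
    obtain ⟨a, b, hab, hb, ha', hb'⟩ := q_ANG.2.2.1 r s hrs
    refine ⟨Circle.exp ((a + b) / 2), ?_⟩
    rw [ha', hb']
    exact q_ANG.1 a ((a + b) / 2) b (by linarith) (by linarith) hb
  have hx' := q_CYO.2.1 r x s hx
  have hOri : Ori γ := q_MOR.1 γ hγ
  have hgx : Ccw r (γ x) s := by
    have := hOri r x s hx
    rw [hr, hs] at this
    exact this
  have hgx' := q_CYO.2.1 r (γ x) s hgx
  have hne : γ x ≠ x := by
    intro h
    rcases (hax.2 x).1 h with h | h
    · exact hx'.2.1 h.symm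
    · exact hx'.2.2.1 h
  have hc1 : c ≠ 1 := by
    intro h
    have hRx := hR x
    rw [h, one_mul] at hRx
    rcases q_CYO.2.2.1 r x (γ x) hx'.2.1 (Ne.symm hne) hgx'.2.1 with h | h
    · have := (h2.1 r s x (γ x) hx hgx).2 h
      linarith
    · have := (h2.1 r s (γ x) x hgx hx).2 h
      linarith
  rcases lt_or_gt_of_ne hc1 with hlt | hgt
  · refine ⟨γ⁻¹, c⁻¹, Or.inr rfl, (one_lt_inv₀ hc0).2 hlt, ?_⟩
    have hinv : ∀ x, γ (γ⁻¹ x) = x := fun x => by
      rw [← DYN_mulapp, mul_inv_cancel]; rfl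
    have hinv' : ∀ x, γ⁻¹ (γ x) = x := fun x => by
      rw [← DYN_mulapp, inv_mul_cancel]; rfl
    refine DYN_main γ⁻¹ r s c⁻¹ hrs ?_ ?_ ((one_lt_inv₀ hc0).2 hlt) ?_
    · conv_lhs => rw [← hr]
      exact hinv' r
    · conv_lhs => rw [← hs]
      exact hinv' s
    · intro x
      have := hR (γ⁻¹ x)
      rw [hinv] at this
      rw [this, ← mul_assoc, inv_mul_cancel₀ hc0.ne', one_mul]
  · exact ⟨γ, c, Or.inl rfl, hgt, DYN_main γ r s c hrs hr hs hgt hR⟩

end Pool.FO
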