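import Pool.Agent.Work.MP_ae1ff6_fo.Interface

/-! Block FR1 (helper58): one step of the frames. -/

open Topology Filter Set
open scoped ComplexConjugate Matrix

set_option autoImplicit false

namespace Pool.FO

open Pool.CG Pool.AR Pool.SH

/-- the image of the fourth point is determined by the cross ratio -/
theorem FR1_eq (hMXI : Pool.SH.Stmt_MXI) (hRAT : Pool.SH.Stmt_RAT) (F : H) (hF : IsMob F)
    (A B C τ P : Circle) (h1 : Ccw A τ B) (h2 : Ccw (F A) P (F B)) (hac : A ≠ C) (hbc : B ≠ C)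
    (hX : X A B τ C = X (F A) (F B) P (F C)) : F τ = P := by
  have h3 := q_MOR.1 F hF A τ B h1
  have h4 := (hMXI F hF).1 A B τ C
  rw [hX] at h4
  refine hRAT.2 (F A) (F B) (F τ) P h3 h2 ?_
  have n1 := (q_CYO.2.1 _ _ _ h3).2
  have n2 := (q_CYO.2.1 _ _ _ h2).2
  have e1 : 0 < dist (F C) (F B) := dist_pos.2 fun h => hbc (F.injective h).symm
  have e2 : 0 < dist (F C) (F A) := dist_pos.2 fun h => hac (F.injective h).symm
  have e3 : 0 < dist (F τ) (F B) := dist_pos.2 n1.2.1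
  have e4 : 0 < dist P (F B) := dist_pos.2 n2.2.1
  unfold X at h4
  rw [div_eq_div_iff (by positivity) (by positivity)] at h4
  have h5 : (dist (F C) (F B) * dist (F C) (F A)) * (dist (F τ) (F A) * dist P (F B)) =
      (dist (F C) (F B) * dist (F C) (F A)) * (dist P (F A) * dist (F τ) (F B)) := by
    linear_combination h4
  exact mul_left_cancel₀ (by positivity) h5

theorem FR1_mul (hREP : Stmt_REP) (g g' : H) (h : IsMob g) (h' : IsMob g') : IsMob (g * g') := by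
  obtain ⟨M, hM⟩ := (hREP.2.1 g).1 h
  obtain ⟨M', hM'⟩ := (hREP.2.1 g').1 h'
  exact (hREP.2.1 _).2 ⟨_, hREP.2.2.1 g g' M M' hM hM'⟩

theorem FR1_inv (hREP : Stmt_REP) (g : H) (h : IsMob g) : IsMob g⁻¹ := by
  obtain ⟨M, hM⟩ := (hREP.2.1 g).1 h
  exact (hREP.2.1 _).2 ⟨_, hREP.2.2.2.1 g M hM⟩

theorem FR1_c01 : cusp 0 1 ≠ cusp 1 1 := by
  rw [Ne, q_FA1.2.2.2.1 0 1 1 1 (Or.inr one_ne_zero) (Or.inl one_ne_zero)]
  norm_num

theorem FR1_c10 : cusp 1 1 ≠ cusp 1 0 := by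
  rw [Ne, q_FA1.2.2.2.1 1 1 1 0 (Or.inl one_ne_zero) (Or.inl one_ne_zero)]
  norm_num

theorem FR1_c00 : cusp 0 1 ≠ cusp 1 0 := by
  rw [Ne, q_FA1.2.2.2.1 0 1 1 0 (Or.inr one_ne_zero) (Or.inl one_ne_zero)]
  norm_num

/-- a Möbius map is determined by three values -/
theorem FR1_unq (hREP : Stmt_REP) (g g' : H) (h : IsMob g) (h' : IsMob g')
    (e1 : g (cusp 0 1) = g' (cusp 0 1)) (e2 : g (cusp 1 1) = g' (cusp 1 1))
    (e3 : g (cusp 1 0) = g' (cusp 1 0)) : g = g' := by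
  have hf : ∀ x, g x = g' x → (g'⁻¹ * g) x = x := by
    intro x hx
    show g'.symm (g x) = x
    rw [hx]
    exact g'.symm_apply_apply x
  have h1 : g'⁻¹ * g = 1 := Pool.GC.mb3 _ (FR1_mul hREP _ _ (FR1_inv hREP _ h') h) _ _ _
    FR1_c01 FR1_c10 FR1_c00 (hf _ e1) (hf _ e2) (hf _ e3)
  rw [inv_mul_eq_one] at h1
  exact h1.symm

/-- two frames at the same edge -/
theorem FR1_fin (hREP : Stmt_REP) (T : Set (Circle × Circle)) (d : Circle → Circle)
    (e : Circle × Circle) (F F' N : H) (M : Matrix (Fin 2) (Fin 2) ℝ) (hN : Rep N M)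
    (h1 : Fr T d e (F * N)) (h2 : Fr T d e F') : Rep (F⁻¹ * F') M := by
  have h3 : F' = F * N := FR1_unq hREP _ _ h2.mob h1.mob (h2.fst.trans h1.fst.symm)
    (h2.mid.trans h1.mid.symm) (h2.snd.trans h1.snd.symm)
  rw [h3, inv_mul_cancel_left]
  exact hN

theorem p_FR1 (hMXI : Pool.SH.Stmt_MXI) (hRAT : Pool.SH.Stmt_RAT) (hVTX : Stmt_VTX)
    (hREP : Stmt_REP) (hXCU : Stmt_XCU) : Stmt_FR1 := by
  intro T z d hT hd b e F F' he hF hF'
  obtain ⟨x, y⟩ := e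
  obtain ⟨v, hv⟩ : ∃ v, v = thd T (x, y) := ⟨_, rfl⟩
  have hV := (hVTX T hT).2.1
  obtain ⟨hx, hy, hvV, hc, hxv, hvy, -⟩ := hV x y he
  rw [← hv] at hvV hc hxv hvy
  have hFa : F (cusp 0 1) = d x := hF.fst
  have hFb : F (cusp 1 1) = d v := by rw [hv]; exact hF.mid
  have hFc : F (cusp 1 0) = d y := hF.snd
  have hc1 : Ccw v y x := q_CYO.1 _ _ _ hc
  have hc2 : Ccw y x v := q_CYO.1 _ _ _ hc1
  have hyx : (y, x) ∈ T := hT.symm _ _ he
  have hvx : (v, x) ∈ T := hT.symm _ _ hxv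
  have hyv : (y, v) ∈ T := hT.symm _ _ hvy
  -- the exponentials
  have main : ∀ s : ℝ, ∃ k k' : ℝ, k = Real.exp (s / 2) ∧ k' = Real.exp (-(s / 2)) ∧ 0 < k ∧
      0 < k' ∧ k * k' = 1 ∧ k / k' = Real.exp s := by
    intro s
    refine ⟨_, _, rfl, rfl, Real.exp_pos _, Real.exp_pos _, ?_, ?_⟩
    · rw [← Real.exp_add, add_neg_cancel, Real.exp_zero]
    · rw [← Real.exp_sub]
      congr 1
      ring
  cases b with
  | false =>
    obtain ⟨s, hs⟩ : ∃ s, s = z (x, v) := ⟨_, rfl⟩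
    obtain ⟨k, k', hk, hk', hk0, hk0', hkk, hks⟩ := main s
    have hE : ed T [false] (x, y) = (x, v) := by rw [hv]; rfl
    rw [hE] at hF' ⊢
    have hM : Mat false s = !![k, 0; k, k'] := by rw [hk, hk']; rfl
    rw [← hs, hM]
    have hdet : (!![k, 0; k, k'] : Matrix (Fin 2) (Fin 2) ℝ).det = 1 := by
      rw [Matrix.det_fin_two_of, hkk]
      ring
    obtain ⟨N, hN⟩ := hREP.1 _ hdet
    have hNc : ∀ p q : ℝ, (p ≠ 0 ∨ q ≠ 0) → N (cusp p q) = cusp (k * p + 0 * q) (k * p + k' * q) :=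
      fun p q hpq => hN.2 p q hpq
    refine FR1_fin hREP T d (x, v) F F' N _ hN ?_ hF'
    have hm : IsMob (F * N) := FR1_mul hREP _ _ hF.mob ((hREP.2.1 _).2 ⟨_, hN⟩)
    refine ⟨hm, ?_, ?_, ?_⟩
    · show F (N (cusp 0 1)) = d x
      rw [hNc 0 1 (Or.inr one_ne_zero), ← hFa]
      congr 1
      rw [q_FA1.2.2.2.1 _ _ _ _ (Or.inr (by simpa using hk0'.ne')) (Or.inr one_ne_zero)]
      ring
    · show F (N (cusp 1 1)) = d (thd T (x, v))
      rw [hNc 1 1 (Or.inr one_ne_zero)]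
      obtain ⟨-, -, hwV, hwc, -, -, -⟩ := hV x v hxv
      have hy' : y = thd T (v, x) := (hV v x hvx).2.2.2.2.2.2 y hc1 hvy hyx
      have hsh := hd.sh x v hxv
      rw [← hy', ← hs] at hsh
      refine FR1_eq hMXI hRAT F hF.mob (cusp 0 1) (cusp 1 1) (cusp 1 0) _ _ ?_ ?_ FR1_c00
        FR1_c10 ?_
      · rw [q_FA1.2.2.2.2.2 _ _ _ _ _ _ (Or.inr one_ne_zero) (Or.inl (by
          simpa using hk0.ne')) (Or.inl one_ne_zero)]
        nlinarith [hkk]
      · rw [hFa, hFb]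
        exact hd.cy x hx _ hwV v hvV hwc
      · rw [hFa, hFb, hFc, hsh, hXCU _ _ _ _ _ _ _ _ (Or.inr one_ne_zero) (Or.inl one_ne_zero)
          (Or.inl (by simpa using hk0.ne')) (Or.inl one_ne_zero), ← hks]
        have a1 : |(k * 1 + 0 * 1) * 1 - (k * 1 + k' * 1) * 0| = k := by
          rw [show (k * 1 + 0 * 1) * 1 - (k * 1 + k' * 1) * 0 = k by ring, abs_of_pos hk0]
        have a2 : |(k * 1 + 0 * 1) * 1 - (k * 1 + k' * 1) * 1| = k' := by
          rw [show (k * 1 + 0 * 1) * 1 - (k * 1 + k' * 1) * 1 = -k' by ring, abs_neg,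
            abs_of_pos hk0']
        rw [a1, a2]
        norm_num
    · show F (N (cusp 1 0)) = d v
      rw [hNc 1 0 (Or.inl one_ne_zero), ← hFb]
      congr 1
      rw [q_FA1.2.2.2.1 _ _ _ _ (Or.inl (by simpa using hk0.ne')) (Or.inr one_ne_zero)]
      ring
  | true =>
    obtain ⟨s, hs⟩ : ∃ s, s = z (v, y) := ⟨_, rfl⟩
    obtain ⟨k, k', hk, hk', hk0, hk0', hkk, hks⟩ := main s
    have hE : ed T [true] (x, y) = (v, y) := by rw [hv]; rfl
    rw [hE] at hF' ⊢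
    have hM : Mat true s = !![k, k'; 0, k'] := by rw [hk, hk']; rfl
    rw [← hs, hM]
    have hdet : (!![k, k'; 0, k'] : Matrix (Fin 2) (Fin 2) ℝ).det = 1 := by
      rw [Matrix.det_fin_two_of, hkk]
      ring
    obtain ⟨N, hN⟩ := hREP.1 _ hdet
    have hNc : ∀ p q : ℝ, (p ≠ 0 ∨ q ≠ 0) → N (cusp p q) = cusp (k * p + k' * q) (0 * p + k' * q) :=
      fun p q hpq => hN.2 p q hpq
    refine FR1_fin hREP T d (v, y) F F' N _ hN ?_ hF'
    have hm : IsMob (F * N) := FR1_mul hREP _ _ hF.mob ((hREP.2.1 _).2 ⟨_, hN⟩)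
    refine ⟨hm, ?_, ?_, ?_⟩
    · show F (N (cusp 0 1)) = d v
      rw [hNc 0 1 (Or.inr one_ne_zero), ← hFb]
      congr 1
      rw [q_FA1.2.2.2.1 _ _ _ _ (Or.inr (by simpa using hk0'.ne')) (Or.inr one_ne_zero)]
      ring
    · show F (N (cusp 1 1)) = d (thd T (v, y))
      rw [hNc 1 1 (Or.inr one_ne_zero)]
      obtain ⟨-, -, hwV, hwc, -, -, -⟩ := hV v y hvy
      have hx' : x = thd T (y, v) := (hV y v hyv).2.2.2.2.2.2 x hc2 hyx hxv
      have hsh := hd.sh v y hvy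
      rw [← hx', ← hs] at hsh
      have hpos : (0 : ℝ) < k * 1 + k' * 1 := by positivity
      refine FR1_eq hMXI hRAT F hF.mob (cusp 1 1) (cusp 1 0) (cusp 0 1) _ _ ?_ ?_ FR1_c01.symm
        FR1_c00.symm ?_
      · rw [q_FA1.2.2.2.2.2 _ _ _ _ _ _ (Or.inr one_ne_zero) (Or.inl hpos.ne')
          (Or.inl one_ne_zero)]
        nlinarith [hkk]
      · rw [hFb, hFc]
        exact hd.cy v hvV _ hwV y hy hwc
      · rw [hFa, hFb, hFc, hsh, hXCU _ _ _ _ _ _ _ _ (Or.inr one_ne_zero) (Or.inl one_ne_zero)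
          (Or.inl hpos.ne') (Or.inr one_ne_zero), ← hks]
        have a1 : |(k * 1 + k' * 1) * 1 - (0 * 1 + k' * 1) * 1| = k := by
          rw [show (k * 1 + k' * 1) * 1 - (0 * 1 + k' * 1) * 1 = k by ring, abs_of_pos hk0]
        have a2 : |(k * 1 + k' * 1) * 0 - (0 * 1 + k' * 1) * 1| = k' := by
          rw [show (k * 1 + k' * 1) * 0 - (0 * 1 + k' * 1) * 1 = -k' by ring, abs_neg,
            abs_of_pos hk0']
        rw [a1, a2]
        norm_num
    · show F (N (cusp 1 0)) = d y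
      rw [hNc 1 0 (Or.inl one_ne_zero), ← hFc]
      congr 1
      rw [q_FA1.2.2.2.1 _ _ _ _ (Or.inl (by simpa using hk0.ne')) (Or.inl one_ne_zero)]
      ring

end Pool.FO
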