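import Pool.Agent.Work.MP_ae1ff6_fo.Interface

/-!
# Mapping classes of finite order: block TRA

The triangles of `T` are pieces: unlinked, side, sep.
-/

open Topology Filter Set
open scoped ComplexConjugate Matrix

set_option autoImplicit false

namespace Pool.FO

open Pool.CG Pool.AR Pool.SH

theorem TRA_mem {T : Set (Circle × Circle)} (hT : Tri T) {P : Set Circle} (hP : P ∈ Trg T)
    {x y : Circle} (hx : x ∈ P) (hy : y ∈ P) (hxy : x ≠ y) : (x, y) ∈ T := by
  obtain ⟨a, b, c, -, rfl, h1, h2, h3⟩ := hP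
  simp only [mem_insert_iff, mem_singleton_iff] at hx hy
  rcases hx with rfl | rfl | rfl <;> rcases hy with rfl | rfl | rfl
  · exact absurd rfl hxy
  · exact h1
  · exact hT.symm _ _ h3
  · exact hT.symm _ _ h1
  · exact absurd rfl hxy
  · exact h2
  · exact h3
  · exact hT.symm _ _ h2
  · exact absurd rfl hxy

theorem TRA_unl (hX : Pool.SH.Stmt_ARX) {T : Set (Circle × Circle)} (hT : Tri T) {P : Set Circle}
    (hP : P ∈ Trg T) {p q : Circle} (hpq : (p, q) ∈ T) : P ⊆ Arc p q ∨ P ⊆ Arc q p := by
  by_contra hcon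
  rw [not_or, Set.not_subset, Set.not_subset] at hcon
  obtain ⟨⟨x, hxP, hx⟩, y, hyP, hy⟩ := hcon
  have hne := hT.ne p q hpq
  have hx' : x ∈ Arc q p := (hX.1 p q x hne).resolve_left hx
  have hy' : y ∈ Arc p q := (hX.1 p q y hne).resolve_right hy
  have hxy : y ≠ x := fun h => hx (h ▸ hy')
  have h1 : Ccw q x p := by
    rcases hx' with h | h | h
    · exact absurd (Or.inr (Or.inl h)) hx
    · exact absurd (Or.inl h) hx
    · exact h
  have h2 : Ccw p y q := by
    rcases hy' with h | h | h
    · exact absurd (Or.inr (Or.inl h)) hy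
    · exact absurd (Or.inl h) hy
    · exact h
  exact hT.unlinked p q y x hpq (TRA_mem hT hP hyP hxP hxy)
    ((q_LKC p q y x).2 (Or.inl ⟨h2, h1⟩))

theorem TRA_card {T : Set (Circle × Circle)} {P : Set Circle} (hP : P ∈ Trg T) :
    P.ncard = 3 := by
  obtain ⟨a, b, c, habc, rfl, -, -, -⟩ := hP
  obtain ⟨-, hab, hbc, hac⟩ := q_CYO.2.1 a b c habc
  exact Set.ncard_eq_three.2 ⟨a, b, c, hab, hac, hbc, rfl⟩

theorem p_TRA (hL : Pool.SH.Stmt_ARL) (hX : Pool.SH.Stmt_ARX) : Stmt_TRA := by
  intro T hT
  refine ⟨fun P hP p q hpq => TRA_unl hX hT hP hpq, ?_, ?_⟩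
  · intro p q hpq
    obtain ⟨z, hz, h1, h2⟩ := hT.third p q hpq
    refine ⟨{p, z, q}, ⟨p, z, q, hz, rfl, h1, h2, hT.symm _ _ hpq⟩, by simp, by simp, ?_⟩
    intro x hx
    simp only [mem_insert_iff, mem_singleton_iff] at hx
    rcases hx with rfl | rfl | rfl
    · exact Or.inl rfl
    · exact Or.inr (Or.inr hz)
    · exact Or.inr (Or.inl rfl)
  · intro P hP P' hP' hne
    have hP0 := hP
    have hc3 := TRA_card hP
    obtain ⟨a, b, c, habc, hPe, h1, h2, h3⟩ := hP
    have hbca : Ccw b c a := q_CYO.1 a b c habc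
    have hcab : Ccw c a b := q_CYO.1 b c a hbca
    have ha : a ∈ P := by rw [hPe]; simp
    have hb : b ∈ P := by rw [hPe]; simp
    have hc : c ∈ P := by rw [hPe]; simp
    have s1 : P ⊆ Arc a c := by
      intro x hx
      rw [hPe] at hx
      simp only [mem_insert_iff, mem_singleton_iff] at hx
      rcases hx with rfl | rfl | rfl
      · exact Or.inl rfl
      · exact Or.inr (Or.inr habc)
      · exact Or.inr (Or.inl rfl)
    have s2 : P ⊆ Arc b a := by
      intro x hx
      rw [hPe] at hx
      simp only [mem_insert_iff, mem_singleton_iff] at hx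
      rcases hx with rfl | rfl | rfl
      · exact Or.inr (Or.inl rfl)
      · exact Or.inl rfl
      · exact Or.inr (Or.inr hbca)
    have s3 : P ⊆ Arc c b := by
      intro x hx
      rw [hPe] at hx
      simp only [mem_insert_iff, mem_singleton_iff] at hx
      rcases hx with rfl | rfl | rfl
      · exact Or.inr (Or.inr hcab)
      · exact Or.inr (Or.inl rfl)
      · exact Or.inl rfl
    rcases TRA_unl hX hT hP' h3 with t1 | t1
    · exact ⟨a, c, hT.symm _ _ h3, ha, hc, s1, t1⟩
    rcases TRA_unl hX hT hP' h1 with t2 | t2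
    · exact ⟨b, a, hT.symm _ _ h1, hb, ha, s2, t2⟩
    rcases TRA_unl hX hT hP' h2 with t3 | t3
    · exact ⟨c, b, hT.symm _ _ h2, hc, hb, s3, t3⟩
    exfalso
    have hsub : P' ⊆ P := by
      intro x hx
      by_contra hxP
      have xa : x ≠ a := fun h => hxP (h ▸ ha)
      have xb : x ≠ b := fun h => hxP (h ▸ hb)
      have xc : x ≠ c := fun h => hxP (h ▸ hc)
      have u1 : Ccw a x c := by
        rcases t1 hx with h | h | h
        · exact absurd h xa
        · exact absurd h xc
        · exact h
      have u2 : Ccw b x a := by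
        rcases t2 hx with h | h | h
        · exact absurd h xb
        · exact absurd h xa
        · exact h
      have u3 : Ccw c x b := by
        rcases t3 hx with h | h | h
        · exact absurd h xc
        · exact absurd h xb
        · exact h
      obtain ⟨θ, -, -, -, hθ, -⟩ := hL x
      have v1 := (hθ c a xc.symm xa.symm).1 u1
      have v2 := (hθ a b xa.symm xb.symm).1 u2
      have v3 := (hθ b c xb.symm xc.symm).1 u3
      linarith
    have hfin : P.Finite := by
      rw [hPe]
      exact Set.toFinite _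
    exact hne (Set.eq_of_subset_of_ncard_le hsub (by rw [hc3, TRA_card hP']) hfin).symm

end Pool.FO
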