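import Pool.Agent.Work.MP_ae1ff6_fo.Interface

open Topology Filter Set
open scoped ComplexConjugate Matrix

set_option autoImplicit false

namespace Pool.FO

open Pool.CG Pool.AR Pool.SH

theorem UMN_closed (Γ : Subgroup H) (T : Set (Circle × Circle)) :
    IsClosed {z : Ed | Shf Γ T z} := by
  have h : {z : Ed | Shf Γ T z} =
      (⋂ (p : Circle) (q : Circle), {z : Ed | z (p, q) = z (q, p)}) ∩
      ((⋂ (γ : H) (_ : γ ∈ Γ) (p : Circle) (q : Circle), {z : Ed | z (γ p, γ q) = z (p, q)}) ∩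
      (⋂ (a : Circle × Circle) (_ : a ∉ T), {z : Ed | z a = 0})) := by
    ext z
    simp only [mem_inter_iff, mem_iInter, mem_setOf_eq]
    constructor
    · intro hz
      exact ⟨hz.symm, hz.keep, hz.off⟩
    · rintro ⟨h1, h2, h3⟩
      exact ⟨h1, h2, h3⟩
  rw [h]
  refine IsClosed.inter ?_ (IsClosed.inter ?_ ?_)
  · exact isClosed_iInter fun p => isClosed_iInter fun q =>
      isClosed_eq (continuous_apply _) (continuous_apply _)
  · exact isClosed_iInter fun γ => isClosed_iInter fun _ => isClosed_iInter fun p =>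
      isClosed_iInter fun q => isClosed_eq (continuous_apply _) (continuous_apply _)
  · exact isClosed_iInter fun a => isClosed_iInter fun _ =>
      isClosed_eq (continuous_apply _) continuous_const

theorem UMN_mid (Γ : Subgroup H) (T : Set (Circle × Circle)) (x y : Ed) (hx : Shf Γ T x)
    (hy : Shf Γ T y) : Shf Γ T ((1 / 2 : ℝ) • (x + y)) := by
  refine ⟨fun p q => ?_, fun γ hγ p q => ?_, fun a ha => ?_⟩
  · simp only [Pi.smul_apply, Pi.add_apply, hx.symm p q, hy.symm p q]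
  · simp only [Pi.smul_apply, Pi.add_apply, hx.keep γ hγ p q, hy.keep γ hγ p q]
  · simp only [Pi.smul_apply, Pi.add_apply, hx.off a ha, hy.off a ha, add_zero, smul_zero]

theorem UMN_countable (T : Set (Circle × Circle)) (hT : Tri T) : T.Countable := by
  have h : T ⊆ ⋃ n : ℕ, {a : Circle × Circle | a ∈ T ∧ 1 / ((n : ℝ) + 1) ≤ dist a.1 a.2} := by
    rintro ⟨p, q⟩ ha
    have h1 : 0 < dist p q := dist_pos.2 (hT.ne p q ha)
    obtain ⟨n, hn⟩ := exists_nat_one_div_lt h1
    exact mem_iUnion.2 ⟨n, ha, hn.le⟩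
  refine Countable.mono h (countable_iUnion fun n => (hT.fin _ ?_).countable)
  positivity

theorem p_UMN (h1 : Stmt_TRD) (h2 : Stmt_MIN) (h3 : Stmt_FUN) : Stmt_UMN := by
  intro Γ f T m hF hT hK hO hN hm hfm
  obtain ⟨F, γ, hγ, hFs, hFc, hF0, hFm, hFl, hFst⟩ := h3 Γ f T m hF hT hK hO hN hm
  have hpow : ∀ (g : H) (_ : g ∈ Γ) (j : ℕ), f ^ j * g * (f ^ j)⁻¹ ∈ Γ := by
    intro g hg j
    induction j with
    | zero => simpa using hg
    | succ j ih =>
      have := (hN _).1 ih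
      have h : f ^ (j + 1) * g * (f ^ (j + 1))⁻¹ = f * (f ^ j * g * (f ^ j)⁻¹) * f⁻¹ := by
        rw [pow_succ', mul_inv_rev]
        group
      rw [h]
      exact this
  haveI : Countable T := (UMN_countable T hT).to_subtype
  obtain ⟨a0, ha0⟩ := hT.nonempty
  obtain ⟨z, hz, hzu⟩ := h2 T {z : Ed | Shf Γ T z} F (UMN_closed Γ T)
    (show Shf Γ T 0 from ⟨fun _ _ => rfl, fun _ _ _ _ => rfl, fun _ _ => rfl⟩)
    (fun x hx y hy => UMN_mid Γ T x y hx hy) hFc hF0 hFm
    (by
      intro a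
      by_cases ha : a ∈ T
      · refine ⟨1, ⟨a, ha⟩, zero_le_one, fun x _ => ?_⟩
        rw [one_mul]
        exact hFl ⟨a, ha⟩ x
      · refine ⟨0, ⟨a0, ha0⟩, le_refl _, fun x hx => ?_⟩
        have hx' : Shf Γ T x := hx
        rw [hx'.off a ha]
        simp)
    (by
      intro x hx y hy hxy
      have hx' : Shf Γ T x := hx
      have hy' : Shf Γ T y := hy
      obtain ⟨a, ha⟩ := Function.ne_iff.1 hxy
      have haT : a ∈ T := by
        by_contra hn
        exact ha (by rw [hx'.off a hn, hy'.off a hn])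
      exact ⟨⟨a, haT⟩, hFst ⟨a, haT⟩ x y ha⟩)
  have hz' : Shf Γ T z := hz
  refine ⟨z, hz', ?_, ?_⟩
  · intro y hy hty
    refine hzu y hy fun a => ?_
    rw [hFs a y hy, hFs a z hz']
    refine Finset.sum_congr rfl fun j _ => ?_
    rw [hty _ (hpow _ (hγ a false) j), hty _ (hpow _ (hγ a true) j)]
  · intro y hy hty
    refine hzu y hy fun a => ?_
    rw [hFs a y hy, hFs a z hz']
    have hs : ∀ j : ℕ, tr T y (f ^ j * γ a false * (f ^ j)⁻¹) + tr T y (f ^ j * γ a true * (f ^ j)⁻¹)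
        = tr T z (f ^ (j + 1) * γ a false * (f ^ (j + 1))⁻¹) +
          tr T z (f ^ (j + 1) * γ a true * (f ^ (j + 1))⁻¹) := by
      intro j
      rw [hty _ (hpow _ (hγ a false) j), hty _ (hpow _ (hγ a true) j)]
      have e : ∀ g : H, f * (f ^ j * g * (f ^ j)⁻¹) * f⁻¹ =
          f ^ (j + 1) * g * (f ^ (j + 1))⁻¹ := by
        intro g
        rw [pow_succ', mul_inv_rev]
        group
      rw [e, e]
    rw [Finset.sum_congr rfl (fun j _ => hs j)]
    obtain ⟨m', rfl⟩ : ∃ m', m = m' + 1 := ⟨m - 1, by omega⟩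
    rw [Finset.sum_range_succ, Finset.sum_range_succ' (n := m')]
    obtain ⟨-, -, t3, -⟩ := h1 Γ T z hF hT hK hz'
    rw [t3 _ (hγ a false) _ hfm, t3 _ (hγ a true) _ hfm]
    simp

end Pool.FO
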