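import Pool.Agent.Work.MP_ae1ff6_fo.Defs
import Pool.Agent.Work.MP_ae1ff6_sh.Defs

/-!
# Mapping classes realized by isometries (MP_ae1ff6_gt): infinite and finite order together
-/

set_option autoImplicit false

namespace Pool.FO

open Pool.CG Pool.AR Pool.SH

/-- the theorem for all mapping classes -/
def Stmt_Comb : Prop :=
  ∀ (Γ : Subgroup H) (f : H) (T₀ : Set (Circle × Circle)), FirstKind Γ →
    (∀ γ ∈ Γ, ∀ n : ℕ, 0 < n → γ ^ n = 1 → γ = 1) → Tri T₀ → Keeps Γ T₀ → Ori f →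
    (∀ γ, γ ∈ Γ ↔ f * γ * f⁻¹ ∈ Γ) →
    (RealizedW (Γ ⊔ Subgroup.zpowers f) ↔ (∃ n : ℕ, 0 < n ∧ f ^ n ∈ Γ) ∨
      ∀ γ ∈ Γ, ∀ p q : Circle, Axis γ p q →
        {n : ℤ | ∃ κ ∈ Γ, Link ((κ * f ^ n) p) ((κ * f ^ n) q) p q}.Finite)

theorem comb (h1 : Pool.SH.Stmt_Full) (h2 : Stmt_Fin) : Stmt_Comb := by
  intro Γ f T₀ hΓ htf hT hK hO hf
  by_cases h : ∃ n : ℕ, 0 < n ∧ f ^ n ∈ Γ
  · exact ⟨fun _ => Or.inl h, fun _ => h2 Γ f T₀ hΓ hT hK hO hf h⟩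
  · have h' : ∀ n : ℕ, 0 < n → f ^ n ∉ Γ := fun n hn hn' => h ⟨n, hn, hn'⟩
    rw [h1 Γ f T₀ hΓ htf hT hK hO hf h']
    constructor
    · intro hh
      exact Or.inr hh
    · rintro (hh | hh)
      · exact absurd hh h
      · exact hh

end Pool.FO
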