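import Pool.Agent.Work.MP_ae1ff6_sh.InterfaceG

/-!
# Mapping classes of finite order realized by isometries (MP_ae1ff6_gt): definitions

`Γ` is a Fuchsian group of the first kind, `T` a `Γ`-invariant ideal triangulation of the disc, `f` an
orientation preserving homeomorphism of the circle which normalises `Γ`, and `f ^ m ∈ Γ`. The theorem
`Stmt_Fin` says that the group generated by `Γ` and `f` is realized by isometries (Nielsen realization).
The proof minimizes a sum of traces as a function of the shear coordinates: along the shear coordinates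
the traces are sums of exponentials of linear functions, hence convex.
-/

open Topology Filter Set
open scoped ComplexConjugate Matrix

set_option autoImplicit false

namespace Pool.FO

open Pool.CG Pool.AR Pool.SH

/-- functions on the pairs of points of the circle -/
abbrev Ed : Type := Circle × Circle → ℝ

/-- the vertices of the triangulation `T` -/
def Vx (T : Set (Circle × Circle)) : Set Circle := {x | ∃ y, (x, y) ∈ T}

/-- the triangles of `T` (sets of three vertices) -/
def Trg (T : Set (Circle × Circle)) : Set (Set Circle) :=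
  {P | ∃ a b c, Ccw a b c ∧ P = {a, b, c} ∧ (a, b) ∈ T ∧ (b, c) ∈ T ∧ (c, a) ∈ T}

/-- `z` is a `Γ`-invariant function on the edges of `T` (it is `0` at all other pairs) -/
structure Shf (Γ : Subgroup H) (T : Set (Circle × Circle)) (z : Ed) : Prop where
  symm : ∀ p q, z (p, q) = z (q, p)
  keep : ∀ γ ∈ Γ, ∀ p q, z (γ p, γ q) = z (p, q)
  off : ∀ a, a ∉ T → z a = 0

/-- `d` preserves the cyclic order of the vertices and has the shears `z` (a developing map) -/
structure Dev (T : Set (Circle × Circle)) (z : Ed) (d : Circle → Circle) : Prop where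
  cy : CyOn d (Vx T)
  sh : ∀ p q, (p, q) ∈ T →
    X (d p) (d q) (d (thd T (p, q))) (d (thd T (q, p))) = Real.exp (z (p, q))

/-! ### Matrices -/

/-- `g` is the Möbius map of the real matrix `M` of determinant one (`cusp p q` is the point `p / q` of the
boundary of the upper half plane) -/
def Rep (g : H) (M : Matrix (Fin 2) (Fin 2) ℝ) : Prop :=
  M.det = 1 ∧ ∀ p q : ℝ, (p ≠ 0 ∨ q ≠ 0) →
    g (cusp p q) = cusp (M 0 0 * p + M 0 1 * q) (M 1 0 * p + M 1 1 * q)

open Classical in
/-- the absolute value of the trace of a Möbius map -/
noncomputable def mtr (g : H) : ℝ := if h : ∃ M, Rep g M then |h.choose.trace| else 0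

open Classical in
/-- the absolute value of the trace of `γ` in the representation with the shears `z` -/
noncomputable def tr (T : Set (Circle × Circle)) (z : Ed) (γ : H) : ℝ :=
  if h : ∃ n : H, IsMob n ∧ ∃ d, Dev T z d ∧ ∀ x ∈ Vx T, d (γ x) = n (d x) then mtr h.choose else 0

/-- the matrices of the two turns -/
noncomputable def Mat (b : Bool) (s : ℝ) : Matrix (Fin 2) (Fin 2) ℝ :=
  match b with
  | false => !![Real.exp (s / 2), 0; Real.exp (s / 2), Real.exp (-(s / 2))]
  | true => !![Real.exp (s / 2), Real.exp (-(s / 2)); 0, Real.exp (-(s / 2))]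

/-- the product of the matrices along the path `l` which starts at the edge `e` -/
noncomputable def W (T : Set (Circle × Circle)) (z : Ed) :
    List Bool → Circle × Circle → Matrix (Fin 2) (Fin 2) ℝ
  | [], _ => 1
  | b :: l, e => Mat b (z (ed T [b] e)) * W T z l (ed T [b] e)

/-- the frame at the edge `e`: the Möbius map `F` which maps `0`, `1`, `∞` to the images of the vertices of the
triangle on the right side of `e` -/
structure Fr (T : Set (Circle × Circle)) (d : Circle → Circle) (e : Circle × Circle) (F : H) : Prop where
  mob : IsMob F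
  fst : F (cusp 0 1) = d e.1
  mid : F (cusp 1 1) = d (thd T e)
  snd : F (cusp 1 0) = d e.2

/-- sums of exponentials of continuous linear functions -/
def ES (g : Ed → ℝ) : Prop :=
  ∃ L : List (Ed →L[ℝ] ℝ), ∀ z, g z = (L.map fun ℓ => Real.exp (ℓ z)).sum

/-! ### Left limits -/

/-- `d x` tends to `y` if `x ∈ V` tends to `u` from the left (that is counterclockwise) -/
def LimL (V : Set Circle) (d : Circle → Circle) (u y : Circle) : Prop :=
  ∀ N ∈ 𝓝 y, ∃ v, v ≠ u ∧ ∀ x ∈ V, Ccw v x u → d x ∈ N

/-- the quotient of the distances from the ends of an axis -/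
noncomputable def R (r s x : Circle) : ℝ := dist x r / dist x s

/-! ### The theorem -/

/-- mapping classes of finite order are realized by isometries -/
def Stmt_Fin : Prop :=
  ∀ (Γ : Subgroup H) (f : H) (T : Set (Circle × Circle)), FirstKind Γ → Tri T → Keeps Γ T → Ori f →
    (∀ γ, γ ∈ Γ ↔ f * γ * f⁻¹ ∈ Γ) → (∃ n : ℕ, 0 < n ∧ f ^ n ∈ Γ) →
    RealizedW (Γ ⊔ Subgroup.zpowers f)

end Pool.FO
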