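import Pool.Agent.Work.MP_ae1ff6_fo.Defs

/-!
# Mapping classes of finite order (MP_ae1ff6_gt): interface (helper15)

Block `X`: file `Pool/Agent/Work/MP_ae1ff6_fo/B_X.lean`,
`import Pool.Agent.Work.MP_ae1ff6_fo.Interface`, `namespace Pool.FO`, the `open` lines of this file,
`theorem p_X (h1 : Stmt_Y) (h2 : Pool.SH.Stmt_Z) .. : Stmt_X` with exactly the blocks of the column
`uses`, in this order, as hypotheses (`SH.Z` means `Pool.SH.Stmt_Z`, see
`Pool/Agent/Work/MP_ae1ff6_sh/InterfaceG.lean`); auxiliary lemmas with the prefix `X_`.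

Proved facts (not hypotheses), statements in `Pool/Agent/Work/MP_ae1ff6_ar/Interface.lean`:
`Pool.AR.q_CUT`, `q_CYO`, `q_LKC`, `q_ANG`, `q_MOR`, `q_CYH`, `q_FA1`, `q_MEX`, `q_UNQ`, `q_PT1`, `q_PT3`,
`q_DCH`, `q_NST`, `Pool.AR.MOF_map`, `MOF_ne`, `MOF_norm`, `MOF_alg1`, `MOF_alg2`; in
`Pool/Agent/Work/MP_ae1ff6_cg/Interface.lean`: `Pool.GC.arc`, `Pool.GC.mb1`, `Pool.GC.mb2`, `Pool.GC.mb3`,
`Pool.GC.dns` (density of the axes). `H = Circle ≃ₜ Circle` is a group (`(g * h) z = g (h z)`,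
`g⁻¹ = g.symm`: `rfl`). `Ccw a b c`: different points in counterclockwise order. `Arc a b`: the closed arc from
`a` to `b`. `thd T (p, q)`: the third vertex of the triangle on the right side of the edge `(p, q)`, so
`Ccw p (thd T (p, q)) q`. `ed T l e`: the edge reached from `e` by the word `l`; `ed T (b :: l) e` is
`ed T l (ed T [b] e)`, `ed T [false] e = (e.1, thd T e)`, `ed T [true] e = (thd T e, e.2)` (`rfl`).
-/

open Topology Filter Set
open scoped ComplexConjugate Matrix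

set_option autoImplicit false

namespace Pool.FO

open Pool.CG Pool.AR Pool.SH

/-! ### Part 1: triangles and developing maps -/

/-- TRA (150 lines; uses SH.ARL SH.ARX): the triangles of `T` are pieces, first part. Proof. Let
`P = {a, b, c}`, `Ccw a b c`, be a triangle; all pairs of different points of `P` are in `T` (`Tri.symm`).
(1) Otherwise there are `x ∈ P`, `x ∉ Arc p q` and `y ∈ P`, `y ∉ Arc q p`. ARX (1): `x ∈ Arc q p`,
`y ∈ Arc p q`, and `x, y ≠ p, q`; so `Ccw q x p`, `Ccw p y q` and `Link p q y x` (`q_LKC`), `x ≠ y` (ARX 2),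
`(y, x) ∈ T`: a contradiction to `Tri.unlinked`. (2) `Tri.third`: `z`; `P = {p, z, q}`. (3) Each of the
sides `(a, c)`, `(b, a)`, `(c, b)` of `P = {a, b, c}` has `P` on the side `Arc a c`, `Arc b a`, `Arc c b`.
By (1) for `P'` we are done, unless `P'` is contained in `Arc a c`, `Arc b a` and `Arc c b`. Then
`P' ⊆ P`: otherwise let `x ∈ P'`, `x ≠ a, b, c`; ARL for `z = x`: `Ccw a x c` says `θ c < θ a`,
`Ccw b x a` says `θ a < θ b` and `Ccw c x b` says `θ b < θ c`. `P'` has three different points, so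
`P' = P`. -/
def Stmt_TRA : Prop :=
  ∀ T : Set (Circle × Circle), Tri T →
    (∀ P ∈ Trg T, ∀ p q, (p, q) ∈ T → P ⊆ Arc p q ∨ P ⊆ Arc q p) ∧
    (∀ p q, (p, q) ∈ T → ∃ P ∈ Trg T, p ∈ P ∧ q ∈ P ∧ P ⊆ Arc p q) ∧
    ∀ P ∈ Trg T, ∀ P' ∈ Trg T, P ≠ P' → ∃ p q, (p, q) ∈ T ∧ p ∈ P ∧ q ∈ P ∧ P ⊆ Arc p q ∧
      P' ⊆ Arc q p

/-- TRB (100 lines): only finitely many edges separate two triangles. Proof. Let `a, b ∈ P` and
`a', b' ∈ P'` be pairs of different points and `ε` the minimum of `dist a b`, `dist a' b'`. Claim: if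
`(p, q) ∈ T`, `P ⊆ Arc p q` and `P' ⊆ Arc q p` then `ε ≤ dist p q`; then `Tri.fin`. Let `p = exp s`,
`q = exp t`, `s < t < s + 2π` (`q_ANG` 3). The points of `Arc p q` are `exp x` with `s ≤ x ≤ t` (`q_ANG` 2),
the points of `Arc q p` are `exp x` with `t ≤ x ≤ s + 2π`. `dist (exp x) (exp y) = 2 sin (|x - y| / 2)` for
`|x - y| ≤ 2π` (see `q_FA1` or `Pool/Agent/Work/MP_ae1ff6_sh/B_RAT.lean`). If `t - s ≤ π`, then
`dist a b ≤ 2 sin ((t - s) / 2) = dist p q` (`sin` is increasing on `[0, π / 2]`). Otherwise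
`s + 2π - t ≤ π` and `dist a' b' ≤ 2 sin ((s + 2π - t) / 2) = dist p q`. -/
def Stmt_TRB : Prop :=
  ∀ T : Set (Circle × Circle), Tri T → ∀ P ∈ Trg T, ∀ P' ∈ Trg T,
    {a : Circle × Circle | a ∈ T ∧ P ⊆ Arc a.1 a.2 ∧ P' ⊆ Arc a.2 a.1}.Finite

/-- TRP (50 lines; uses TRA TRB): the triangles of `T` are pieces. Proof. `Pieces`: `Tri.symm`, `Tri.ne`,
definition of `Trg`, TRA, TRB. Nonempty: `Tri.nonempty` and TRA (2). The last claim: a point of a triangle
is a vertex; and if `(x, y) ∈ T` then `x` is in the triangle of TRA (2). -/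
def Stmt_TRP : Prop :=
  ∀ T : Set (Circle × Circle), Tri T → Pieces (Trg T) T ∧ Trs (Trg T) ∧ (Trg T).Nonempty ∧
    ⋃₀ (Trg T) = Vx T

/-- VTX (120 lines): vertices. Proofs. (1) Let `(exp s, exp t) ∈ T`, `s < t < s + 2π` (`Tri.nonempty`,
`q_ANG` 3). By `q_PT3` for `s ≤ u < v ≤ t` there is `r ∈ (u, v)` such that `exp r` is a point `pt T w e`, which
is a vertex (`q_PT1`). The same for the edge `(exp t, exp (s + 2π))`. Each real interval contains, after
a translation by a multiple of `2π`, an interval in `[s, t]` or in `[t, s + 2π]`; so each nonempty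
open subset of the circle contains a vertex. (2) Definition of `thd` (or `q_PT1` for `[]`), `q_UNQ`.
(3) `g` maps the triangle on the right side of `(p, q)` to the triangle on the right side of
`(g p, g q)`: (2). -/
def Stmt_VTX : Prop :=
  ∀ T : Set (Circle × Circle), Tri T → Dense (Vx T) ∧
    (∀ p q, (p, q) ∈ T → p ∈ Vx T ∧ q ∈ Vx T ∧ thd T (p, q) ∈ Vx T ∧ Ccw p (thd T (p, q)) q ∧
      (p, thd T (p, q)) ∈ T ∧ (thd T (p, q), q) ∈ T ∧
      ∀ v, Ccw p v q → (p, v) ∈ T → (v, q) ∈ T → v = thd T (p, q)) ∧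
    ∀ g : H, Ori g → (∀ x y, (x, y) ∈ T → (g x, g y) ∈ T) → ∀ p q, (p, q) ∈ T →
      thd T (g p, g q) = g (thd T (p, q))

/-- DEV (100 lines; uses SH.DV1 SH.DU1 TRP VTX): existence and uniqueness of developing maps. Proof. Claim:
`Dev T z d` iff `CyOn d (⋃₀ (Trg T))` and `Shear (Trg T) T (fun p q => z (p, q)) d`. Let `(p, q) ∈ T`,
`v = thd T (p, q)`, `w = thd T (q, p)`; by VTX (2) `Ccw p v q`, `Ccw q w p` and `{p, q, v}`, `{p, q, w}` are
in `Trg T`: (⇐). (⇒) Let `Ccw p v' q` and `{p, q, v'} ∈ Trg T`; all pairs of different points of a triangle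
are in `T`, so `v' = v` by VTX (2). In the same way for `w`. Now DV1 and DU1 (TRP). -/
def Stmt_DEV : Prop :=
  (∀ (T : Set (Circle × Circle)) (z : Ed), Tri T → (∀ p q, z (p, q) = z (q, p)) →
    ∃ d, Dev T z d) ∧
  ∀ (T : Set (Circle × Circle)) (z : Ed) (d d' : Circle → Circle), Tri T → Dev T z d →
    Dev T z d' → ∃ n : H, IsMob n ∧ ∀ x ∈ Vx T, d' x = n (d x)

/-- SHR (120 lines; uses SH.MXI VTX): the shears of an equivariant map. Proof. Let
`z (p, q) = log (X (D p) (D q) (D (thd T (p, q))) (D (thd T (q, p))))` for `(p, q) ∈ T` and `0` otherwise.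
`symm`: `X q p w v = X p q v w` by definition. `keep`: `(p, q) ∈ T` iff `(γ p, γ q) ∈ T` (`Keeps` for `γ` and
`γ⁻¹`); `γ` is orientation preserving (`q_MOR` 1), so `thd T (γ p, γ q) = γ (thd T (p, q))` by VTX (3); MXI for
`n`. `Dev.sh`: with `v = thd T (p, q)`, `w = thd T (q, p)` we have `Ccw p v q`, `Ccw q w p` (VTX), so their
images are counterclockwise (`CyOn`), the four distances in `X` are positive (`q_CYO` 2), and
`exp (log X) = X`. -/
def Stmt_SHR : Prop :=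
  ∀ (Γ : Subgroup H) (T : Set (Circle × Circle)) (D : Circle → Circle), FirstKind Γ → Tri T →
    Keeps Γ T → CyOn D (Vx T) →
    (∀ γ ∈ Γ, ∃ n : H, IsMob n ∧ ∀ x ∈ Vx T, D (γ x) = n (D x)) → ∃ z, Shf Γ T z ∧ Dev T z D

/-! ### Part 2: matrices, frames and traces -/

/-- REP (180 lines): Möbius maps and real matrices. Proofs. (1) `MOF_map q_FA1 q_MEX`
(`Matrix.det_fin_two`). (2) (⇐) `MOF_map` gives a Möbius map `m` with `m (cusp p q) = g (cusp p q)`, and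
all points are of this form (`q_FA1` 2), so `m = g`. (⇒) Let `(α, β)` be parameters of `g`
(`Pool.GC.mb1`); take `a = Re α + Re β`, `b = Im α - Im β`, `c = - Im α - Im β`, `d = Re α - Re β`; then
`α = ⟨(a + d) / 2, -(c - b) / 2⟩`, `β = ⟨(a - d) / 2, -(b + c) / 2⟩`, `a d - b c = 1` (`MOF_norm`), and the
proof of `MOF_map` (copy it, with `hm : Par g α β` as a hypothesis) shows the formula. (3)
`Matrix.mul_apply`, `Fin.sum_univ_two`; the image vector is not zero (`MOF_ne`). (4)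
`Matrix.adjugate_fin_two`: `g (cusp (adj M v)) = cusp (M (adj M v)) = cusp v`. (5) For `v = (1, 0)`,
`(0, 1)` and `(1, 1)` the vectors `M v`, `M' v` are parallel (`q_FA1` 4): `M' v = λ M v`, with
`λ, μ, ν`; `ν (M e₁ + M e₂) = λ M e₁ + μ M e₂`, so `λ = μ`, `M' = λ M`, and `λ ^ 2 = 1` (determinant). -/
def Stmt_REP : Prop :=
  (∀ M : Matrix (Fin 2) (Fin 2) ℝ, M.det = 1 → ∃ g : H, Rep g M) ∧
  (∀ g : H, IsMob g ↔ ∃ M, Rep g M) ∧
  (∀ (g g' : H) (M M' : Matrix (Fin 2) (Fin 2) ℝ), Rep g M → Rep g' M' →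
    Rep (g * g') (M * M')) ∧
  (∀ (g : H) (M : Matrix (Fin 2) (Fin 2) ℝ), Rep g M → Rep g⁻¹ M.adjugate) ∧
  ∀ (g : H) (M M' : Matrix (Fin 2) (Fin 2) ℝ), Rep g M → Rep g M' → M' = M ∨ M' = -M

/-- MTR (60 lines; uses REP): traces. Proofs. (1) REP (5). (2) `Rep g M`, `Rep h N`; REP (3), (4):
`Rep (h * g * h⁻¹) (N * M * N.adjugate)`, and its trace is the trace of
`N.adjugate * N * M = M` (`Matrix.trace_mul_comm`, `Matrix.adjugate_mul`). (3)
`Matrix.adjugate_fin_two`: the trace of `M.adjugate` is the trace of `M`. -/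
def Stmt_MTR : Prop :=
  (∀ (g : H) (M : Matrix (Fin 2) (Fin 2) ℝ), Rep g M → mtr g = |M.trace|) ∧
  (∀ g h : H, IsMob g → IsMob h → mtr (h * g * h⁻¹) = mtr g) ∧
  ∀ g : H, IsMob g → mtr g⁻¹ = mtr g

/-- XCU (60 lines): cross ratios of points of the projective line. Proof. `q_FA1` (5):
`dist (cusp p q) (cusp r s) = 2 |p s - q r| / (√(p² + q²) √(r² + s²))`. Numerator and denominator of
`X` have the same norm factors; `mul_div_mul_left`. -/
def Stmt_XCU : Prop :=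
  ∀ a b c d u v x y : ℝ, (a ≠ 0 ∨ b ≠ 0) → (c ≠ 0 ∨ d ≠ 0) → (u ≠ 0 ∨ v ≠ 0) → (x ≠ 0 ∨ y ≠ 0) →
    X (cusp a b) (cusp c d) (cusp u v) (cusp x y) =
      |u * b - v * a| * |x * d - y * c| / (|u * d - v * c| * |x * b - y * a|)

/-- FR1 (180 lines; uses SH.MXI SH.RAT VTX REP XCU): one step. Proof. Let `e = (x, y)`, `v = thd T e`,
`s = z (ed T [b] e)`, `k = exp (s / 2)`, and `N` the Möbius map of the matrix `Mat b s` (REP 1, its
determinant is one). Claim: `F * N` is a frame at `e' = ed T [b] e`; then `F' = F * N` by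
`Pool.GC.mb3` (both are Möbius maps with the same values at three different points), and
`F⁻¹ * F' = N`. Case `b = false`, `e' = (x, v)`: `N (cusp 0 1) = cusp 0 (1 / k) = cusp 0 1`,
`N (cusp 1 0) = cusp k k = cusp 1 1` (`q_FA1` 4), so `F * N` maps `cusp 0 1` to `d x`, `cusp 1 0` to `d v`.
Let `τ = N (cusp 1 1) = cusp k (k + 1 / k)`, `P = F τ`, `P' = d (thd T e')`. By XCU
`X (cusp 0 1) (cusp 1 1) τ (cusp 1 0) = k * 1 / ((1 / k) * 1) = k ^ 2 = exp s`, so by MXI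
`X (d x) (d v) P (d y) = exp s`. `thd T (v, x) = y` (VTX 2: `Ccw v y x`), so `Dev.sh` for `(x, v)` says
`X (d x) (d v) P' (d y) = exp s`. `Ccw (cusp 0 1) τ (cusp 1 1)` (`q_FA1` 6), so `Ccw (d x) P (d v)`
(`q_MOR` 1), and `Ccw (d x) P' (d v)` (`Dev.cy`). The equation of the `X` gives (`dist (d y) _ ≠ 0`)
`dist P (d x) * dist P' (d v) = dist P' (d x) * dist P (d v)`: `P = P'` by RAT (2). Case `b = true`,
`e' = (v, y)`: `N (cusp 0 1) = cusp (1 / k) (1 / k) = cusp 1 1`, `N (cusp 1 0) = cusp k 0 = cusp 1 0`,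
`τ = N (cusp 1 1) = cusp (k + 1 / k) (1 / k)`, `X (cusp 1 1) (cusp 1 0) τ (cusp 0 1) = k ^ 2`,
`thd T (y, v) = x`, `Ccw (cusp 1 1) τ (cusp 1 0)`: the same. -/
def Stmt_FR1 : Prop :=
  ∀ (T : Set (Circle × Circle)) (z : Ed) (d : Circle → Circle), Tri T → Dev T z d →
    ∀ (b : Bool) (e : Circle × Circle) (F F' : H), e ∈ T → Fr T d e F →
      Fr T d (ed T [b] e) F' → Rep (F⁻¹ * F') (Mat b (z (ed T [b] e)))

/-- FRT (80 lines; uses SH.TR3 VTX REP FR1): frames along a path. Proof. (1)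
`Ccw (cusp 0 1) (cusp 1 1) (cusp 1 0)` (`q_FA1` 6) and `Ccw (d e.1) (d (thd T e)) (d e.2)` (`Dev.cy`, VTX):
TR3. (2) Induction on `l` for all `e`, `F`. `l = []`: `F' = F` (`Pool.GC.mb3`), `Rep 1 1`. `l = b :: l'`: let
`F₁` be a frame at `ed T [b] e ∈ T` (`q_PT1`); `F⁻¹ * F' = (F⁻¹ * F₁) * (F₁⁻¹ * F')`, FR1, REP (3). -/
def Stmt_FRT : Prop :=
  (∀ (T : Set (Circle × Circle)) (z : Ed) (d : Circle → Circle), Tri T → Dev T z d →
    ∀ e ∈ T, ∃ F, Fr T d e F) ∧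
  ∀ (T : Set (Circle × Circle)) (z : Ed) (d : Circle → Circle), Tri T → Dev T z d →
    ∀ (l : List Bool) (e : Circle × Circle) (F F' : H), e ∈ T → Fr T d e F →
      Fr T d (ed T l e) F' → Rep (F⁻¹ * F') (W T z l e)

/-- TRD (150 lines; uses VTX DEV MTR): the representation with the shears `z`. Proofs. (1) `Dev T z (d ∘ γ)`:
`γ` is orientation preserving (`q_MOR` 1) and maps `Vx T` to itself; `thd T (γ p, γ q) = γ (thd T (p, q))`
(VTX 3) and `z (γ p, γ q) = z (p, q)`. DEV (2). (2) Let `n'`, `d'` be the Möbius map and the developing map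
in the definition of `tr` (`Exists.choose_spec`), and `k` a Möbius map with `d' = k ∘ d` on `Vx T` (DEV 2).
For `x ∈ Vx T`: `n' (k (d x)) = n' (d' x) = d' (γ x) = k (d (γ x)) = k (n (d x))`. So the Möbius map
`n⁻¹ * (k⁻¹ * (n' * k))` fixes the points `d x`, `x ∈ Vx T`; three of them are different (a triangle, VTX),
so it is `1` (`Pool.GC.mb3`, `Pool.GC.mb2`) and `n' = k * n * k⁻¹`: MTR (2). (3), (4) Let `d` be from DEV (1) (`Shf.symm`),
`n₁`, `n₂` from (1) for `γ`, `κ`: `d (κ (γ (κ⁻¹ x))) = (n₂ * n₁ * n₂⁻¹) (d x)`, since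
`d (κ (κ⁻¹ x)) = n₂ (d (κ⁻¹ x))`; (2) and MTR. -/
def Stmt_TRD : Prop :=
  ∀ (Γ : Subgroup H) (T : Set (Circle × Circle)) (z : Ed), FirstKind Γ → Tri T → Keeps Γ T →
    Shf Γ T z →
    (∀ γ ∈ Γ, ∀ d, Dev T z d → ∃ n : H, IsMob n ∧ ∀ x ∈ Vx T, d (γ x) = n (d x)) ∧
    (∀ γ ∈ Γ, ∀ (d : Circle → Circle) (n : H), Dev T z d → IsMob n →
      (∀ x ∈ Vx T, d (γ x) = n (d x)) → tr T z γ = mtr n) ∧
    (∀ γ ∈ Γ, ∀ κ ∈ Γ, tr T z (κ * γ * κ⁻¹) = tr T z γ) ∧ ∀ γ ∈ Γ, tr T z γ⁻¹ = tr T z γ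

/-- TRC (80 lines; uses VTX DEV MTR FRT TRD): the trace of a closed path. Proof. `d` from DEV (1), `n` from
TRD (1), `F` a frame at `e` (FRT 1). `n * F` is a frame at `(γ e.1, γ e.2) = ed T l e`
(`thd T (γ e.1, γ e.2) = γ (thd T e)` by VTX). FRT (2): `Rep (F⁻¹ * (n * F)) (W T z l e)`, so by MTR and
TRD (2) `tr T z γ = mtr n = |(W T z l e).trace|`. All entries of `W T z l e` are nonnegative
(induction on `l`). -/
def Stmt_TRC : Prop :=
  ∀ (Γ : Subgroup H) (T : Set (Circle × Circle)) (z : Ed), FirstKind Γ → Tri T → Keeps Γ T →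
    Shf Γ T z → ∀ γ ∈ Γ, ∀ (l : List Bool) (e : Circle × Circle), e ∈ T →
      ed T l e = (γ e.1, γ e.2) → tr T z γ = (W T z l e).trace

/-! ### Part 3: sums of exponentials and minimization -/

/-- ESB (120 lines): sums of exponentials. Proofs. The lists `[]`, `[ℓ]`, `L ++ L'`, and the list of all
`ℓ + ℓ'` (`List.product` or `List.flatMap`); induction on the finite set. Continuity and
nonnegativity: induction on the list. Convexity: `exp ((a + b) / 2) ≤ (exp a + exp b) / 2`, since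
`exp a + exp b - 2 exp ((a + b) / 2) = (exp (a / 2) - exp (b / 2)) ^ 2`. -/
def Stmt_ESB : Prop :=
  ES (fun _ => 0) ∧ (∀ ℓ : Ed →L[ℝ] ℝ, ES fun z => Real.exp (ℓ z)) ∧
  (∀ g g' : Ed → ℝ, ES g → ES g' → ES fun z => g z + g' z) ∧
  (∀ g g' : Ed → ℝ, ES g → ES g' → ES fun z => g z * g' z) ∧
  (∀ (ι : Type) (s : Finset ι) (g : ι → Ed → ℝ), (∀ i ∈ s, ES (g i)) →
    ES fun z => ∑ i ∈ s, g i z) ∧
  ∀ g : Ed → ℝ, ES g → Continuous g ∧ (∀ z, 0 ≤ g z) ∧
    ∀ x y : Ed, g ((1 / 2 : ℝ) • (x + y)) ≤ (g x + g y) / 2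

/-- WES (120 lines; uses ESB): the entries of the matrix of a path. Proof. Induction on `l` for all `e`.
`l = []`: `S = 0`, `G = 0`. `l = b :: l'`: let `S'`, `G'` be given for `l'` and `e' = ed T [b] e`, and
`S = S' + (1 / 2) • ContinuousLinearMap.proj e'`. The entries of the product are sums of products of
`exp (± z e' / 2)` and the entries for `l'`; the product of the entries `(0, 0)` contains
`exp (z e' / 2) exp (S' z) = exp (S z)`, the product of the entries `(1, 1)` contains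
`exp (- z e' / 2) exp (- S' z) = exp (- S z)`; all other terms are products of sums of exponentials. -/
def Stmt_WES : Prop :=
  ∀ (T : Set (Circle × Circle)) (l : List Bool) (e : Circle × Circle),
    ∃ (S : Ed →L[ℝ] ℝ) (G : Fin 2 → Fin 2 → Ed → ℝ), (∀ i j, ES (G i j)) ∧
      ∀ z : Ed, W T z l e 0 0 = Real.exp (S z) + G 0 0 z ∧
        W T z l e 1 1 = Real.exp (-(S z)) + G 1 1 z ∧ W T z l e 0 1 = G 0 1 z ∧
        W T z l e 1 0 = G 1 0 z

/-- WLT (120 lines; uses ESB WES): leading terms. Proofs. (1) `Matrix.trace_fin_two`, WES. (2) Let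
`s = z (ed T [false] e)`, `t = z (ed T [false, true] e)`, `a = exp (s / 2)`, `b = exp (t / 2)`, and
`W' = W T z l (ed T [false, true] e)` with `S'`, `G'` from WES. The product of the first two matrices is
`(a b, a / b; a b, a / b + 1 / (a b))`. So the trace of the product with `W'` contains
`a b exp (S' z) = exp (S z)` with `S z = s / 2 + t / 2 + S' z`, and
`(a / b) exp (- S' z) = exp (s - S z)`; all other terms are products of sums of exponentials. (3) Here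
the product of the first two matrices is `(a b + b / a, 1 / (a b); b / a, 1 / (a b))`; the trace contains
`(1 / (a b)) exp (- S' z) = exp (S z)` with `S z = - s / 2 - t / 2 - S' z`, and
`(b / a) exp (S' z) = exp (- s - S z)`. -/
def Stmt_WLT : Prop :=
  ∀ (T : Set (Circle × Circle)) (l : List Bool) (e : Circle × Circle),
    (∃ G : Ed → ℝ, ES G ∧ ∀ z : Ed, (W T z l e).trace = G z) ∧
    (∃ (S : Ed →L[ℝ] ℝ) (G : Ed → ℝ), ES G ∧ ∀ z : Ed, (W T z (false :: true :: l) e).trace =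
      Real.exp (S z) + Real.exp (z (ed T [false] e) - S z) + G z) ∧
    ∃ (S : Ed →L[ℝ] ℝ) (G : Ed → ℝ), ES G ∧ ∀ z : Ed, (W T z (true :: false :: l) e).trace =
      Real.exp (S z) + Real.exp (-(z (ed T [true] e)) - S z) + G z

/-- MIN (180 lines): minimization. Proof. Let `i : κ → ℕ` be injective, `w k = 2 ^ (- i k) / (1 + F k 0)`
and `Φ x = ∑' k, ENNReal.ofReal (w k * F k x)`. `Φ 0 ≤ 2` (`∑ 2 ^ (- n) = 2`). `Φ` is lower
semicontinuous (`lowerSemicontinuous_tsum`), so `C = {x ∈ Z | Φ x ≤ Φ 0}` is closed, and `0 ∈ C`. For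
`x ∈ C`: `w k * F k x ≤ 2`, so `|x a| ≤ C_a * 2 / w k`: `C` is contained in a product of compact intervals
(`isCompact_univ_pi`), so it is compact. Let `z ∈ C` be a point where `Φ` is minimal on `C`
(`LowerSemicontinuousOn.exists_isMinOn` or similar); it is minimal on `Z`. Let `y ∈ Z`,
`F k y = F k z` for all `k`, and suppose `y ≠ z`; let `x = (1 / 2) (z + y) ∈ Z`. Then
`F k x ≤ (F k z + F k y) / 2 = F k z` for all `k`, with strict inequality for some `k`, and `Φ z < ∞`: so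
`Φ x < Φ z` (`ENNReal.tsum_lt_tsum`), a contradiction. -/
def Stmt_MIN : Prop :=
  ∀ (κ : Type) [Countable κ] (Z : Set Ed) (F : κ → Ed → ℝ), IsClosed Z → (0 : Ed) ∈ Z →
    (∀ x ∈ Z, ∀ y ∈ Z, (1 / 2 : ℝ) • (x + y) ∈ Z) → (∀ k, Continuous (F k)) →
    (∀ k x, 0 ≤ F k x) →
    (∀ k x y, F k ((1 / 2 : ℝ) • (x + y)) ≤ (F k x + F k y) / 2) →
    (∀ a, ∃ (C : ℝ) (k : κ), 0 ≤ C ∧ ∀ x ∈ Z, |x a| ≤ C * F k x) →
    (∀ x ∈ Z, ∀ y ∈ Z, x ≠ y → ∃ k, F k ((1 / 2 : ℝ) • (x + y)) < (F k x + F k y) / 2) →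
    ∃ z ∈ Z, ∀ y ∈ Z, (∀ k, F k y = F k z) → y = z

/-! ### Part 4: closed paths -/

/-- RCH (50 lines): an edge inside of the edge `(a, b)` is reached from `(a, b)`. Proof. `a = exp s₀`,
`b = exp t₀` (`q_ANG` 3), `v = exp t`, `s₀ < t < t₀`, then `u = exp s`, `s₀ < s < t` (`q_ANG` 2). `q_PT3` (last
part) for `s ≤ t`. -/
def Stmt_RCH : Prop :=
  ∀ T : Set (Circle × Circle), Tri T → ∀ a b u v : Circle, (a, b) ∈ T → (u, v) ∈ T →
    Ccw a u v → Ccw a v b → ∃ l, ed T l (a, b) = (u, v)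

/-- MON (120 lines): `R r s x = dist x r / dist x s` is monotone on the two arcs. Proofs. (1) `r = exp a`,
`s = exp b`, `a < b < a + 2π` (`q_ANG` 3), `x = exp u`, `y = exp v`, `u, v ∈ (a, b)` (`q_ANG` 2).
`R r s x = sin ((u - a) / 2) / sin ((b - u) / 2)`, the same for `y`, and
`sin ((v - a) / 2) sin ((b - u) / 2) - sin ((u - a) / 2) sin ((b - v) / 2) =`
`sin ((b - a) / 2) sin ((v - u) / 2)`. So `R r s x < R r s y` iff `u < v` iff `Ccw r x y` (`q_ANG` 5). (2) (1)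
for `s`, `r` and `y`, `x`: `R s r x = (R r s x)⁻¹`. (3) By (1) and (2) `Ccw r a u` and `Ccw s v b`. Cut at
`r` (`q_CUT` with `θ r` minimal): `θ r < θ a < θ u < θ s < θ v < θ b`. -/
def Stmt_MON : Prop :=
  (∀ r s x y : Circle, Ccw r x s → Ccw r y s → (R r s x < R r s y ↔ Ccw r x y)) ∧
  (∀ r s x y : Circle, Ccw s x r → Ccw s y r → (R r s x < R r s y ↔ Ccw s y x)) ∧
  ∀ r s a b u v : Circle, Ccw r a s → Ccw r u s → Ccw s b r → Ccw s v r →
    R r s a < R r s u → R r s b < R r s v → Ccw a u v ∧ Ccw a v b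

/-- DYN (120 lines; uses SH.MXI MON): dynamics of hyperbolic elements. Proof. MXI (2) for `p = r`, `q = s`:
`R r s (γ x) = c * R r s x` with `0 < c`. `c ≠ 1`: let `x ≠ r, s`; say `Ccw r x s` (otherwise
`Ccw s x r`, the same proof). Then `Ccw r (γ x) s` (`q_MOR` 1, `γ r = r`, `γ s = s`), `γ x ≠ x`
(`Axis`), so `Ccw r x (γ x)` or `Ccw r (γ x) x` (`q_CYO` 3) and `R r s x ≠ R r s (γ x)` by MON (1). If
`1 < c` take `γ' = γ`; if `c < 1` take `γ' = γ⁻¹`, `c⁻¹` (put `γ⁻¹ x` for `x`). Powers: induction on `n`. If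
`(γ' ^ n) x = x`, `0 < n`, `x ≠ r, s`, then `R r s x = c ^ n * R r s x`, `0 < R r s x`, `1 < c ^ n`: a
contradiction. -/
def Stmt_DYN : Prop :=
  ∀ (γ : H) (r s : Circle), IsMob γ → Axis γ r s → ∃ (γ' : H) (c : ℝ), (γ' = γ ∨ γ' = γ⁻¹) ∧
    1 < c ∧ ∀ n : ℕ, (∀ x, R r s ((γ' ^ n) x) = c ^ n * R r s x) ∧ (0 < n → Axis (γ' ^ n) r s)

/-- WRD (120 lines; uses VTX RCH MON DYN): closed paths of hyperbolic elements. Proof. DYN: `γ'`, `c`
(for `n = 1`). `(r, s) ∉ T`: otherwise `v = thd T (r, s)` satisfies `Ccw r v s` and `γ' v = v` by VTX (3)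
(`γ'` is orientation preserving, fixes `r` and `s`), a contradiction to `Axis γ' r s`. By `q_DCH` there is
`(z, w) ∈ T` with `Link z w r s`. By `q_LKC`, exchanging `z` and `w` if necessary (`Tri.symm`), `Ccw z s w`
and `Ccw w r z`; so `Ccw r z s` and `Ccw s w r`. Let `u = γ' z`, `v = γ' w`: `Ccw r u s`, `Ccw s v r`, and
`R r s z < R r s u`, `R r s w < R r s v` (`0 < R r s z`, `1 < c`). MON (3) for `a = z`, `b = w`; `(u, v) ∈ T`:
RCH. -/
def Stmt_WRD : Prop :=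
  ∀ (Γ : Subgroup H) (T : Set (Circle × Circle)), FirstKind Γ → Tri T → Keeps Γ T →
    ∀ γ ∈ Γ, ∀ r s : Circle, Axis γ r s →
      ∃ γ' : H, (γ' = γ ∨ γ' = γ⁻¹) ∧ ∃ e ∈ T, ∃ l, ed T l e = (γ' e.1, γ' e.2)

/-- CRV (150 lines; uses VTX RCH MON DYN): closed paths with a prescribed first turn. Proof. Let
`y = thd T (q, p)`, `v = thd T (p, q)`: `Ccw p v q`, `Ccw q y p`; the cyclic order is `p, v, q, y`. (1)
`e = (p, y)`: `Ccw p q y` and `(p, q), (q, y) ∈ T`, so `thd T e = q` (VTX 2), `ed T [false] e = (p, q)` and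
`ed T [false, true] e = (v, q)`. The sets `U = {x | Ccw y x p}` and `V = {x | Ccw v x q}` are open and not
empty (`area` is continuous; `q_ANG`), so `Pool.GC.dns` gives `γ₀ ∈ Γ`, `r ∈ U`, `s ∈ V`, `Axis γ₀ r s`. DYN:
`γ'`, `c`. The cyclic order is `r, p, v, s, q, y`. Choose `n > 0` such that `R r s v < c ^ n * R r s p` and
`R r s q < c ^ n * R r s y` (`tendsto_pow_atTop_atTop_of_one_lt`; `0 < R r s p`), `γ = γ' ^ n ∈ Γ`, and
MON (3) for `a = v`, `b = q`, `u = γ p`, `v = γ y` (`Ccw r p s` gives `Ccw r (γ p) s`, and so on). RCH: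
`ed T l (v, q) = (γ p, γ y)`. (2) `e = (y, q)`: `thd T e = p`, `ed T [true] e = (p, q)`,
`ed T [true, false] e = (p, v)`; `U = {x | Ccw q x y}`, `V = {x | Ccw p x v}`; the cyclic order is
`r, y, p, s, v, q`; MON (3) for `a = p`, `b = v`, `u = γ y`, `v = γ q`. -/
def Stmt_CRV : Prop :=
  ∀ (Γ : Subgroup H) (T : Set (Circle × Circle)), FirstKind Γ → Tri T → Keeps Γ T →
    ∀ p q : Circle, (p, q) ∈ T →
      (∃ γ ∈ Γ, (∃ r s, Axis γ r s) ∧ ∃ e ∈ T, ∃ l, ed T [false] e = (p, q) ∧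
        ed T (false :: true :: l) e = (γ e.1, γ e.2)) ∧
      ∃ γ ∈ Γ, (∃ r s, Axis γ r s) ∧ ∃ e ∈ T, ∃ l, ed T [true] e = (p, q) ∧
        ed T (true :: false :: l) e = (γ e.1, γ e.2)

/-- ESL (80 lines; uses TRD TRC WLT WRD CRV): the traces as functions of the shears. Proof. (1) WRD; TRC for
`γ'` (`tr T z γ⁻¹ = tr T z γ` by TRD); WLT (1). (2) CRV, TRC, WLT (2) and (3). -/
def Stmt_ESL : Prop :=
  ∀ (Γ : Subgroup H) (T : Set (Circle × Circle)), FirstKind Γ → Tri T → Keeps Γ T →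
    (∀ γ ∈ Γ, ∀ r s : Circle, Axis γ r s → ∃ G : Ed → ℝ, ES G ∧
      ∀ z, Shf Γ T z → tr T z γ = G z) ∧
    ∀ a ∈ T, ∀ σ : ℝ, (σ = 1 ∨ σ = -1) → ∃ γ ∈ Γ, (∃ r s, Axis γ r s) ∧
      ∃ (S : Ed →L[ℝ] ℝ) (G : Ed → ℝ), ES G ∧
        ∀ z, Shf Γ T z → tr T z γ = Real.exp (S z) + Real.exp (σ * z a - S z) + G z

/-! ### Part 5: left limits -/

/-- LMA (120 lines): left limits. Proofs. (1) `u = exp t`, `v = exp s`, `v' = exp s'` with
`t - 2π < s, s' < t` (`q_ANG` 3); the open set `exp '' Ioo (max s s') t` (`Pool.GC.arc`) contains a point of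
`V`; `q_ANG` (1). (2) Otherwise there are disjoint neighbourhoods of `y`, `y'`; (1). (3) Clear. (4)
`m` is continuous. (5) For a neighbourhood `N` of `y` let `v ≠ g u` be given; take `g⁻¹ v`: if `x ∈ V` and
`Ccw (g⁻¹ v) x u`, then `Ccw v (g x) (g u)` and `g x ∈ V`. -/
def Stmt_LMA : Prop :=
  (∀ V : Set Circle, Dense V → ∀ u v v' : Circle, v ≠ u → v' ≠ u →
    ∃ x ∈ V, Ccw v x u ∧ Ccw v' x u) ∧
  (∀ (V : Set Circle) (d : Circle → Circle) (u y y' : Circle), Dense V → LimL V d u y →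
    LimL V d u y' → y = y') ∧
  (∀ (V V' : Set Circle) (d d' : Circle → Circle) (u y : Circle), V ⊆ V' →
    (∀ x ∈ V, d x = d' x) → LimL V' d' u y → LimL V d u y) ∧
  (∀ (V : Set Circle) (d : Circle → Circle) (u y : Circle) (m : H), LimL V d u y →
    LimL V (fun x => m (d x)) u (m y)) ∧
  ∀ (V : Set Circle) (d : Circle → Circle) (u y : Circle) (g : H), Ori g →
    (∀ x ∈ V, g x ∈ V) → LimL V d (g u) y → LimL V (fun x => d (g x)) u y

/-- LMB (120 lines; uses LMA): left limits exist. Proof. Let `b ∈ V`, `b ≠ u`, `d b = exp s'`, `θ` from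
`q_CUT s'`, so `θ (d b) = s'` is minimal. The set `S` of the numbers `θ (d x)`, `x ∈ V`, `Ccw b x u`, is not
empty (LMA 1) and bounded by `s' + 2π`; let `σ = sSup S` and `y = exp σ`. Let `N` be a neighbourhood of
`y`: there is `ε > 0` with `exp t ∈ N` for `|t - σ| < ε`, and `x₀ ∈ V` with `Ccw b x₀ u`,
`σ - ε < θ (d x₀)`. Take `v = x₀`: let `x ∈ V`, `Ccw x₀ x u`; then `Ccw b x u` and `Ccw b x₀ x` (`q_CYO` 4), so
`Ccw (d b) (d x₀) (d x)`, `θ (d x₀) < θ (d x) ≤ σ` and `d x = exp (θ (d x)) ∈ N`. -/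
def Stmt_LMB : Prop :=
  ∀ (V : Set Circle) (d : Circle → Circle), Dense V → CyOn d V → ∀ u, ∃ y, LimL V d u y

/-- LMC (80 lines; uses LMA): the extension by left limits is left continuous. Proof. Let `N` be a
neighbourhood of `D u` and `N' ⊆ N` a closed neighbourhood (the circle is regular:
`exists_mem_nhds_isClosed_subset`). `LimL V d u (D u)`: `v ≠ u` with `d x ∈ N'` for `x ∈ V`, `Ccw v x u`.
Claim: `D x ∈ N'` for all `x` with `Ccw v x u`. Otherwise the complement of `N'` is a neighbourhood of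
`D x`: there is `v' ≠ x` such that `d x' ∉ N'` for all `x' ∈ V`, `Ccw v' x' x`. LMA (1) for `x`, `v`, `v'`:
`x' ∈ V` with `Ccw v x' x`, `Ccw v' x' x`; then `Ccw v x' u` (`q_CYO`) and `d x' ∈ N'`: a contradiction. -/
def Stmt_LMC : Prop :=
  ∀ (V : Set Circle) (d D : Circle → Circle), Dense V → (∀ u, LimL V d u (D u)) →
    ∀ u, LimL univ D u (D u)

/-- LMD (180 lines; uses SH.ARL LMA): the extension by left limits preserves the order. Proof. Let
`Ccw a b c`, `a = exp α`, `b = exp β`, `c = exp γ`, `α < β < γ < α + 2π` (`q_ANG`). By density there are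
`v i = exp (t i) ∈ V` with `α < t₁ < t₂ < β < t₃ < t₄ < γ < t₅ < t₆ < α + 2π`; let `w i = d (v i)`. (1) Not
`Ccw w₃ (D b) w₂`: otherwise `{y | Ccw w₃ y w₂}` is a neighbourhood of `D b` (`area` is continuous), so
there is `v ≠ b` with `Ccw w₃ (d x) w₂` for all `x ∈ V`, `Ccw v x b`; LMA (1) for `b`, `v`, `v₂`: `x ∈ V`
with `Ccw v x b` and `Ccw v₂ x b`, so `Ccw v₂ x v₃` and `Ccw w₂ (d x) w₃`: a contradiction (`q_CYO` 2). In
the same way: (2) not `Ccw w₅ (D c) w₄`, (3) not `Ccw w₁ (D a) w₆`. ARL for `z = w₆`: the points are in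
cyclic order, so `θ w₆ < θ w₁ < θ w₂ < θ w₃ < θ w₄ < θ w₅`. (3): `θ (D a) ≤ θ w₁`; (1):
`θ w₂ ≤ θ (D b) ≤ θ w₃`; (2): `θ w₄ ≤ θ (D c) ≤ θ w₅`. So `θ (D a) < θ (D b) < θ (D c)`. -/
def Stmt_LMD : Prop :=
  ∀ (V : Set Circle) (d D : Circle → Circle), Dense V → CyOn d V → (∀ u, LimL V d u (D u)) →
    CyOn D univ

/-- EXT (80 lines; uses VTX TRD LMA LMB LMC LMD): extension of the developing map to the circle. Proof. `D u`
is a left limit of `d` on `V = Vx T` (LMB, `V` is dense by VTX). LMD, LMC. Let `γ ∈ Γ` and `n` from TRD (1).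
LMA (5): `LimL V (d ∘ γ) u (D (γ u))`. LMA (4): `LimL V (n ∘ d) u (n (D u))`. The two functions are equal
on `V`, so `D (γ u) = n (D u)` by LMA (3), (2). -/
def Stmt_EXT : Prop :=
  ∀ (Γ : Subgroup H) (T : Set (Circle × Circle)) (z : Ed) (d : Circle → Circle), FirstKind Γ →
    Tri T → Keeps Γ T → Shf Γ T z → Dev T z d →
    ∃ D : Circle → Circle, CyOn D univ ∧ (∀ u, LimL univ D u (D u)) ∧
      ∀ γ ∈ Γ, ∃ n : H, IsMob n ∧ (∀ x ∈ Vx T, d (γ x) = n (d x)) ∧ ∀ x, D (γ x) = n (D x)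

/-! ### Part 6: the theorem -/

/-- FUN (180 lines; uses ESB ESL): the functions to be minimized. Proof. Let `a ∈ T`. ESL (2) for
`σ = 1` and `σ = -1`: `γ a false`, `γ a true`, with `S₁`, `G₁`, `S₂`, `G₂`. For `0 < j < m` and
`b : Bool` the element `f ^ j * γ a b * (f ^ j)⁻¹` is in `Γ` and has an axis `(f ^ j r, f ^ j s)`: ESL (1)
gives a sum of exponentials which is its trace for all `z` with `Shf Γ T z`. Let `F a` be the sum of
`exp (S₁ x) + exp (x a - S₁ x) + G₁ x`, `exp (S₂ x) + exp (- x a - S₂ x) + G₂ x` (this is the term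
`j = 0`) and of the functions for `0 < j < m` (`Finset.sum_range_succ'` or `Finset.range_eq_..`; write
`m = m' + 1`). `F a` is a sum of exponentials (`fun x => x a` is `ContinuousLinearMap.proj a`): ESB. Since
`1 + t ≤ exp t`: `x a ≤ (1 + S₁ x) + (1 + x a - S₁ x) ≤ F a x` and `- x a ≤ F a x` in the same way.
Strict convexity: let `x a ≠ y a`; then `S₁ x ≠ S₁ y` or `x a - S₁ x ≠ y a - S₁ y`, and
`exp ((s + t) / 2) < (exp s + exp t) / 2` for `s ≠ t`; all other terms are convex (ESB). -/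
def Stmt_FUN : Prop :=
  ∀ (Γ : Subgroup H) (f : H) (T : Set (Circle × Circle)) (m : ℕ), FirstKind Γ → Tri T →
    Keeps Γ T → Ori f → (∀ γ, γ ∈ Γ ↔ f * γ * f⁻¹ ∈ Γ) → 0 < m →
    ∃ (F : T → Ed → ℝ) (γ : T → Bool → H), (∀ a b, γ a b ∈ Γ) ∧
      (∀ a z, Shf Γ T z → F a z = ∑ j ∈ Finset.range m,
        (tr T z (f ^ j * γ a false * (f ^ j)⁻¹) + tr T z (f ^ j * γ a true * (f ^ j)⁻¹))) ∧
      (∀ a, Continuous (F a)) ∧ (∀ a x, 0 ≤ F a x) ∧
      (∀ a x y, F a ((1 / 2 : ℝ) • (x + y)) ≤ (F a x + F a y) / 2) ∧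
      (∀ (a : T) (x : Ed), |x a| ≤ F a x) ∧
      ∀ (a : T) (x y : Ed), x a ≠ y a → F a ((1 / 2 : ℝ) • (x + y)) < (F a x + F a y) / 2

/-- UMN (150 lines; uses TRD MIN FUN): a point which is determined by its traces. Proof. `Z` is the set
of the `z` with `Shf Γ T z`: closed (intersection of closed conditions on coordinates), closed under
midpoints, `0 ∈ Z`. `T` is countable: it is the union of the finite sets
`{a | a ∈ T ∧ 1 / (n + 1) ≤ dist a.1 a.2}` (`Tri.fin`, `Tri.ne`). MIN for `κ = T` and `F` from FUN (for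
`a ∉ T` all `x ∈ Z` satisfy `x a = 0`: take `C = 0`; if `x ≠ y` in `Z` then `x a ≠ y a` for some
`a`, and `a ∈ T`): `z`. (1) `F a y = F a z` for all `a` (`f ^ j * γ a b * (f ^ j)⁻¹ ∈ Γ`). (2)
`F a y = ∑ j ∈ range m, ∑ b, tr T z (f ^ (j + 1) * γ a b * (f ^ (j + 1))⁻¹)`, and this is `F a z`
(`Finset.sum_range_succ`, `Finset.sum_range_succ'`), because
`tr T z (f ^ m * γ a b * (f ^ m)⁻¹) = tr T z (γ a b)` by TRD (3) for `κ = f ^ m ∈ Γ`. -/
def Stmt_UMN : Prop :=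
  ∀ (Γ : Subgroup H) (f : H) (T : Set (Circle × Circle)) (m : ℕ), FirstKind Γ → Tri T →
    Keeps Γ T → Ori f → (∀ γ, γ ∈ Γ ↔ f * γ * f⁻¹ ∈ Γ) → 0 < m → f ^ m ∈ Γ →
    ∃ z, Shf Γ T z ∧
      (∀ y, Shf Γ T y → (∀ γ ∈ Γ, tr T y γ = tr T z γ) → y = z) ∧
      ∀ y, Shf Γ T y → (∀ γ ∈ Γ, tr T y γ = tr T z (f * γ * f⁻¹)) → y = z

/-- FNL (150 lines; uses SH.MBG SH.PIC VTX DEV SHR TRD LMA EXT UMN): the theorem for finite order. Proof. `m` with
`f ^ m ∈ Γ`; `z` from UMN; `d` from DEV (1); `D` from EXT, with Möbius maps `n γ`. SHR for `D`: `z₁` with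
`Dev T z₁ D`. TRD (2) for `z₁` and for `z`: `tr T z₁ γ = mtr (n γ) = tr T z γ`, so `z₁ = z` by UMN. Let
`D' = D ∘ f`: `CyOn D' univ` and `D' (γ x) = D ((f γ f⁻¹) (f x)) = n (f γ f⁻¹) (D' x)`. SHR: `z₂` with
`Dev T z₂ D'`; TRD (2): `tr T z₂ γ = mtr (n (f γ f⁻¹)) = tr T z (f γ f⁻¹)`, so `z₂ = z` by UMN. DEV (2): a
Möbius map `m₀` with `D (f x) = m₀ (D x)` for `x ∈ Vx T`. LMA (5) for `f`, `V = univ`:
`LimL univ (D ∘ f) u (D (f u))`; LMA (4): `LimL univ (m₀ ∘ D) u (m₀ (D u))`; restricted to the dense set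
`Vx T` the functions are equal, so `D (f u) = m₀ (D u)` for all `u` (LMA 3, 2). The elements `g : H` such
that `D (g x) = n (D x)` for all `x` and some Möbius map `n` form a subgroup (MBG; for the inverse put
`g⁻¹ x` for `x`), which contains `Γ` and `f`, so it contains `G = Γ ⊔ zpowers f`. PIC for `G`, `V = univ`, `D`
(`q_MOR` 3). -/
def Stmt_FNL : Prop := Stmt_Fin

end Pool.FO
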